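import Mathlib

/-!
Definitions for problem MP_2596c2_co (interval cyclic edge colourings), and the translation between
the definition and a convenient description.
-/

namespace Pool.Agent.MP2596c2

/-- `c` is an interval cyclic `t`-colouring of `G`: every edge gets a colour in `{1, …, t}`, edges
with a common end get different colours, every colour is used, and the colours at each vertex `v`,
read as residues modulo `t`, form a set `{a, a + 1, …, a + d(v) - 1}`. -/
def IsIntervalCyclic {V : Type} (G : SimpleGraph V) (t : ℕ) (c : Sym2 V → ℕ) : Prop :=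
  (∀ e ∈ G.edgeSet, 1 ≤ c e ∧ c e ≤ t) ∧
  (∀ e ∈ G.edgeSet, ∀ f ∈ G.edgeSet, e ≠ f → (∃ v, v ∈ e ∧ v ∈ f) → c e ≠ c f) ∧
  (∀ k, 1 ≤ k → k ≤ t → ∃ e ∈ G.edgeSet, c e = k) ∧
  (∀ v : V, ∃ a : ZMod t, {x : ZMod t | ∃ e ∈ G.edgeSet, v ∈ e ∧ (c e : ZMod t) = x} =
    {x : ZMod t | ∃ i : ℕ, i < (G.neighborSet v).ncard ∧ x = a + (i : ZMod t)})

/-- The feasible set `F(G)`: all `t ≥ 1` such that `G` has an interval cyclic `t`-colouring. -/
def feasibleSet {V : Type} (G : SimpleGraph V) : Set ℕ :=
  {t | 1 ≤ t ∧ ∃ c : Sym2 V → ℕ, IsIntervalCyclic G t c}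

/-- A set is gap-free if it contains everything between two of its elements. -/
def GapFree (S : Set ℕ) : Prop :=
  ∀ a b c : ℕ, a < b → b < c → a ∈ S → c ∈ S → b ∈ S

/-- The hypercube: vertices are 0/1-vectors of length `n`, adjacent when they differ in exactly one
coordinate. -/
def hypercube (n : ℕ) : SimpleGraph (Fin n → Bool) where
  Adj x y := {i | x i ≠ y i}.ncard = 1
  symm := ⟨fun x y h => by simpa only [ne_comm] using h⟩
  loopless := ⟨fun x h => by simp at h⟩

end Pool.Agent.MP2596c2
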