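import Mathlib
import Pool.Agent.Lib.MP_2596c2_co.Defs

/-!
Translation between the definition of interval cyclic colourings and a convenient description.
-/

namespace Pool.Agent.MP2596c2

/-- Convenient description of an interval cyclic `t`-colouring: integer colours `α`, read modulo
`t`, and starting points `s` of the arcs. -/
structure Good {V : Type} (G : SimpleGraph V) (t : ℕ) (s : V → ℤ) (α : V → V → ℤ) : Prop where
  symm : ∀ u v, G.Adj u v → α u v = α v u
  inj : ∀ u v w, G.Adj u v → G.Adj u w → (t : ℤ) ∣ α u v - α u w → v = w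
  arc : ∀ u v, G.Adj u v → ∃ i : ℕ, i < (G.neighborSet u).ncard ∧ (t : ℤ) ∣ α u v - (s u + i)
  surj : ∀ k : ℤ, ∃ u v, G.Adj u v ∧ (t : ℤ) ∣ α u v - k

theorem good_of_mem {V : Type} {G : SimpleGraph V} {t : ℕ} (h : t ∈ feasibleSet G) :
    1 ≤ t ∧ ∃ s α, Good G t s α := by
  obtain ⟨ht, c, hc1, hc2, hc3, hc4⟩ := h
  refine ⟨ht, ?_⟩
  choose a ha using hc4
  have : NeZero t := ⟨by omega⟩
  refine ⟨fun u => ((a u).val : ℤ), fun u v => (c s(u, v) : ℤ), ⟨?_, ?_, ?_, ?_⟩⟩
  · intro u v _
    change (c s(u, v) : ℤ) = (c s(v, u) : ℤ)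
    rw [Sym2.eq_swap]
  · intro u v w huv huw hd
    by_contra hvw
    have hne : s(u, v) ≠ s(u, w) := by
      intro h
      rw [Sym2.eq_iff] at h
      rcases h with ⟨_, h⟩ | ⟨h1, h2⟩
      · exact hvw h
      · exact hvw (h2.trans h1)
    have h1 := hc1 s(u, v) huv
    have h2 := hc1 s(u, w) huw
    have h3 := hc2 s(u, v) huv s(u, w) huw hne ⟨u, by simp, by simp⟩
    apply h3
    obtain ⟨k, hk⟩ := hd
    have hk0 : k = 0 := by
      have : -(t : ℤ) < t * k ∧ (t : ℤ) * k < t := by omega
      have htp : (0 : ℤ) < t := by omega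
      have h4 : k < 1 := by
        by_contra h5
        nlinarith
      have h5 : -1 < k := by
        by_contra h5
        nlinarith
      omega
    rw [hk0] at hk
    omega
  · intro u v huv
    have h1 : (c s(u, v) : ZMod t) ∈ {x : ZMod t | ∃ e ∈ G.edgeSet, u ∈ e ∧ (c e : ZMod t) = x} :=
      ⟨s(u, v), huv, by simp, rfl⟩
    rw [ha u] at h1
    obtain ⟨i, hi, hx⟩ := h1
    refine ⟨i, hi, ?_⟩
    rw [← ZMod.intCast_zmod_eq_zero_iff_dvd]
    push_cast
    rw [ZMod.natCast_zmod_val, hx]
    ring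
  · intro k
    obtain ⟨e, he, hce⟩ := hc3 (((k - 1) % t).toNat + 1) (by omega) (by
      have := Int.emod_lt_of_pos (k - 1) (show (0 : ℤ) < t by omega)
      have := Int.emod_nonneg (k - 1) (show (t : ℤ) ≠ 0 by omega)
      omega)
    induction e using Sym2.ind with
    | _ u v =>
      refine ⟨u, v, he, ?_⟩
      simp only [hce]
      have h1 := Int.emod_nonneg (k - 1) (show (t : ℤ) ≠ 0 by omega)
      push_cast
      rw [Int.toNat_of_nonneg h1]
      have h2 := Int.emod_add_mul_ediv (k - 1) t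
      exact ⟨-((k - 1) / t), by linarith⟩

theorem mem_of_good {V : Type} [Finite V] {G : SimpleGraph V} {t : ℕ} (ht : 1 ≤ t)
    {s : V → ℤ} {α : V → V → ℤ} (h : Good G t s α) : t ∈ feasibleSet G := by
  classical
  have : NeZero t := ⟨by omega⟩
  have htp : (0 : ℤ) < t := by omega
  let c0 : V → V → ℕ := fun u v => if G.Adj u v then ((α u v - 1) % t).toNat + 1 else 1
  have hc0 : ∀ u v, c0 u v = c0 v u := by
    intro u v
    simp only [c0]
    by_cases huv : G.Adj u v
    · rw [if_pos huv, if_pos huv.symm, h.symm u v huv]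
    · rw [if_neg huv, if_neg (fun h' => huv h'.symm)]
  let c : Sym2 V → ℕ := Sym2.lift ⟨c0, hc0⟩
  have hcval : ∀ u v, c s(u, v) = c0 u v := fun u v => rfl
  have hmod : ∀ u v, G.Adj u v → (t : ℤ) ∣ (c s(u, v) : ℤ) - α u v := by
    intro u v huv
    rw [hcval]
    simp only [c0, if_pos huv]
    have h1 := Int.emod_nonneg (α u v - 1) (show (t : ℤ) ≠ 0 by omega)
    push_cast
    rw [Int.toNat_of_nonneg h1]
    have h2 := Int.emod_add_mul_ediv (α u v - 1) t
    exact ⟨-((α u v - 1) / t), by linarith⟩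
  have hrange : ∀ u v, G.Adj u v → 1 ≤ c s(u, v) ∧ c s(u, v) ≤ t := by
    intro u v huv
    rw [hcval]
    simp only [c0, if_pos huv]
    have h1 := Int.emod_nonneg (α u v - 1) (show (t : ℤ) ≠ 0 by omega)
    have h2 := Int.emod_lt_of_pos (α u v - 1) htp
    omega
  refine ⟨ht, c, ?_, ?_, ?_, ?_⟩
  · intro e he
    induction e using Sym2.ind with
    | _ u v => exact hrange u v he
  · intro e he f hf hef ⟨v, hve, hvf⟩ hcc
    obtain ⟨w, rfl⟩ := hve
    obtain ⟨x, rfl⟩ := hvf
    rw [SimpleGraph.mem_edgeSet] at he hf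
    have h1 : w = x := by
      apply h.inj v w x he hf
      have h2 := hmod v w he
      have h3 := hmod v x hf
      rw [hcc] at h2
      have : α v w - α v x = ((c s(v, x) : ℤ) - α v x) - ((c s(v, x) : ℤ) - α v w) := by ring
      rw [this]
      exact dvd_sub h3 h2
    exact hef (by rw [h1])
  · intro k hk1 hk2
    obtain ⟨u, v, huv, hd⟩ := h.surj k
    refine ⟨s(u, v), huv, ?_⟩
    have h1 := hrange u v huv
    have h2 := dvd_add (hmod u v huv) hd
    have h3 : (c s(u, v) : ℤ) - α u v + (α u v - k) = (c s(u, v) : ℤ) - k := by ring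
    rw [h3] at h2
    obtain ⟨q, hq⟩ := h2
    have hq0 : q = 0 := by
      have h4 : q < 1 := by
        by_contra h5
        nlinarith
      have h5 : -1 < q := by
        by_contra h5
        nlinarith
      omega
    rw [hq0] at hq
    omega
  · intro u
    refine ⟨((s u : ℤ) : ZMod t), ?_⟩
    let f : V → ZMod t := fun v => ((α u v : ℤ) : ZMod t)
    have hS : {x : ZMod t | ∃ e ∈ G.edgeSet, u ∈ e ∧ (c e : ZMod t) = x} =
        f '' (G.neighborSet u) := by
      ext x
      constructor
      · rintro ⟨e, he, hu, hx⟩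
        obtain ⟨w, rfl⟩ := hu
        refine ⟨w, he, ?_⟩
        rw [← hx]
        have := hmod u w he
        rw [← ZMod.intCast_zmod_eq_zero_iff_dvd] at this
        push_cast at this
        exact (sub_eq_zero.1 this).symm
      · rintro ⟨w, hw, rfl⟩
        refine ⟨s(u, w), hw, by simp, ?_⟩
        have := hmod u w hw
        rw [← ZMod.intCast_zmod_eq_zero_iff_dvd] at this
        push_cast at this
        exact sub_eq_zero.1 this
    rw [hS]
    apply Set.eq_of_subset_of_ncard_le
    · rintro _ ⟨w, hw, rfl⟩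
      obtain ⟨i, hi, hd⟩ := h.arc u w hw
      refine ⟨i, hi, ?_⟩
      rw [← ZMod.intCast_zmod_eq_zero_iff_dvd] at hd
      push_cast at hd
      exact sub_eq_zero.1 hd
    · have h1 : (f '' (G.neighborSet u)).ncard = (G.neighborSet u).ncard := by
        apply Set.InjOn.ncard_image
        intro v hv w hw hvw
        apply h.inj u v w hv hw
        rw [← ZMod.intCast_zmod_eq_zero_iff_dvd]
        push_cast
        exact sub_eq_zero.2 hvw
      rw [h1]
      have h2 : {x : ZMod t | ∃ i : ℕ, i < (G.neighborSet u).ncard ∧ x = ((s u : ℤ) : ZMod t) + (i : ZMod t)} =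
          ((Finset.range (G.neighborSet u).ncard).image
            (fun i : ℕ => ((s u : ℤ) : ZMod t) + (i : ZMod t)) : Finset (ZMod t)) := by
        ext x
        simp only [Set.mem_ofPred_eq, Finset.coe_image, Set.mem_image, Finset.coe_range, Set.mem_Iio]
        constructor
        · rintro ⟨i, hi, rfl⟩
          exact ⟨i, hi, rfl⟩
        · rintro ⟨i, hi, rfl⟩
          exact ⟨i, hi, rfl⟩
      rw [h2, Set.ncard_coe_finset]
      exact Finset.card_image_le.trans (by simp)
    · exact Set.toFinite _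

theorem mem_iff_good {V : Type} [Finite V] {G : SimpleGraph V} {t : ℕ} :
    t ∈ feasibleSet G ↔ 1 ≤ t ∧ ∃ s α, Good G t s α :=
  ⟨good_of_mem, fun ⟨ht, _, _, h⟩ => mem_of_good ht h⟩

end Pool.Agent.MP2596c2
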