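import Mathlib
import Pool.Agent.Lib.MP_2596c2_co.Defs
import Pool.Agent.Lib.MP_2596c2_co.Trans

/-!
The cluster lemma: from one cyclic colouring of a complete graph with three clusters of vertices
(one of them may be empty) we get a whole range of interval cyclic colourings.
-/

namespace Pool.Agent.MP2596c2

/-- Transport of membership along a bijection of vertex sets. -/
theorem mem_top_transport {V W : Type} [Finite V] [Finite W] (e : W ≃ V) {t : ℕ}
    (h : t ∈ feasibleSet (⊤ : SimpleGraph V)) : t ∈ feasibleSet (⊤ : SimpleGraph W) := by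
  obtain ⟨ht, s, α, hG⟩ := good_of_mem h
  refine mem_of_good ht (s := fun u => s (e u)) (α := fun u v => α (e u) (e v)) ⟨?_, ?_, ?_, ?_⟩
  · intro u v huv
    exact hG.symm _ _ (by simpa using huv)
  · intro u v w huv huw hd
    have := hG.inj (e u) (e v) (e w) (by simpa using huv) (by simpa using huw) hd
    exact e.injective this
  · intro u v huv
    obtain ⟨i, hi, hd⟩ := hG.arc (e u) (e v) (by simpa using huv)
    refine ⟨i, ?_, hd⟩
    have h1 : ((⊤ : SimpleGraph V).neighborSet (e u)).ncard =
        ((⊤ : SimpleGraph W).neighborSet u).ncard := by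
      have h2 : ((⊤ : SimpleGraph V).neighborSet (e u)) =
          e '' ((⊤ : SimpleGraph W).neighborSet u) := by
        ext v
        simp only [SimpleGraph.mem_neighborSet, SimpleGraph.top_adj, Set.mem_image]
        constructor
        · intro h
          refine ⟨e.symm v, ?_, by simp⟩
          intro h'
          apply h
          rw [h']
          simp
        · rintro ⟨w, hw, rfl⟩ h'
          exact hw (e.injective h')
      rw [h2, Set.ncard_image_of_injective _ e.injective]
    omega
  · intro k
    obtain ⟨u, v, huv, hd⟩ := hG.surj k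
    refine ⟨e.symm u, e.symm v, ?_, by simpa using hd⟩
    simpa using huv

/-- Offset of a colour in the arc of a cluster: the block `[q, q + j)` is moved to the front. -/
def front (q j x : ℕ) : ℕ := if x < q then j + x else if x < q + j then x - q else x

theorem front_inj (q j x y : ℕ) (h : front q j x = front q j y) : x = y := by
  unfold front at h
  split_ifs at h <;> omega

theorem front_lt (q j x m : ℕ) (hx : x < m) (hm : q + j ≤ m) : front q j x < m := by
  unfold front
  split_ifs <;> omega

theorem cluster_mem {V : Type} [Fintype V] {N : ℕ} (hV : Fintype.card V = N) (cl : V → ℕ)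
    (p0 p1 p2 g0 g1 g2 : ℕ) (b : V → V → ℕ)
    (hcl : ∀ u, cl u = 0 ∨ cl u = 1 ∨ cl u = 2)
    (symm : ∀ u v, u ≠ v → b u v = b v u)
    (inj : ∀ u v w, u ≠ v → u ≠ w → b u v = b u w → v = w)
    (h1 : ∀ u v, u ≠ v → cl u = 1 → b u v < p0 + g1 + p1)
    (h2 : ∀ u v, u ≠ v → cl u = 2 → p0 + g1 ≤ b u v ∧ b u v < p0 + g1 + p1 + g2 + p2)
    (h0 : ∀ u v, u ≠ v → cl u = 0 → b u v < p0 ∨
      (p0 + g1 + p1 + g2 ≤ b u v ∧ b u v < p0 + g1 + p1 + g2 + p2 + g0))
    (e0 : ∃ u, cl u = 0) (e1 : ∃ u, cl u = 1)
    (n0 : p2 + g0 + p0 + 1 = N) (n1 : p0 + g1 + p1 + 1 = N)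
    (n2 : ∀ u, cl u = 2 → p1 + g2 + p2 + 1 = N)
    (e2 : (∃ u, cl u = 2) ∨ (p1 = 0 ∧ g2 = 0 ∧ p2 = 0))
    (t : ℕ) (ht0 : 1 ≤ t) (ht1 : N ≤ t + 1) (ht2 : p0 + p1 + p2 ≤ t)
    (ht3 : t ≤ p0 + p1 + p2 + g0 + g1 + g2) : t ∈ feasibleSet (⊤ : SimpleGraph V) := by
  classical
  obtain ⟨j0, j1, j2, hj0, hj1, hj2, hj⟩ : ∃ j0 j1 j2 : ℕ, j0 ≤ g0 ∧ j1 ≤ g1 ∧ j2 ≤ g2 ∧
      j0 + j1 + j2 + t = p0 + p1 + p2 + g0 + g1 + g2 := by
    obtain ⟨D, hD⟩ : ∃ D, D + t = p0 + p1 + p2 + g0 + g1 + g2 := ⟨_, Nat.sub_add_cancel ht3⟩
    refine ⟨min g0 D, min g1 (D - min g0 D), D - min g0 D - min g1 (D - min g0 D), ?_, ?_, ?_, ?_⟩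
    all_goals omega
  -- the colours
  let mv : ℕ → ℤ := fun x =>
    if x < p0 then (x : ℤ)
    else if x < p0 + j1 then (x : ℤ) - p0 - j1
    else if x < p0 + g1 + p1 then (x : ℤ) - j1
    else if x < p0 + g1 + p1 + j2 then (x : ℤ) - p1 - j1 - j2
    else if x < p0 + g1 + p1 + g2 + p2 then (x : ℤ) - j1 - j2
    else if x < p0 + g1 + p1 + g2 + p2 + j0 then (x : ℤ) - p2 - j0 - j1 - j2
    else (x : ℤ) - j0 - j1 - j2
  let s : V → ℤ := fun u =>
    if cl u = 1 then -(j1 : ℤ)
    else if cl u = 2 then ((p0 : ℤ) + g1 - j1) - j2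
    else ((p0 : ℤ) + g1 + p1 + g2 - j1 - j2) - j0
  let β : V → V → ℕ := fun u v =>
    if cl u = 1 then front p0 j1 (b u v)
    else if cl u = 2 then front p1 j2 (b u v - (p0 + g1))
    else front p2 j0 (if b u v < p0 then b u v + p2 + g0 else b u v - (p0 + g1 + p1 + g2))
  have hβlt : ∀ u v, u ≠ v → β u v + 1 < N := by
    intro u v huv
    rcases hcl u with hu | hu | hu
    · have h3 := h0 u v huv hu
      have h4 : β u v = front p2 j0
          (if b u v < p0 then b u v + p2 + g0 else b u v - (p0 + g1 + p1 + g2)) := by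
        simp only [β, hu]
        simp
      rw [h4]
      have h5 : (if b u v < p0 then b u v + p2 + g0 else b u v - (p0 + g1 + p1 + g2)) < N - 1 := by
        split_ifs <;> omega
      have := front_lt p2 j0 _ (N - 1) h5 (by omega)
      omega
    · have h3 := h1 u v huv hu
      have h4 : β u v = front p0 j1 (b u v) := by
        simp only [β, hu]
        simp
      rw [h4]
      have := front_lt p0 j1 (b u v) (N - 1) (by omega) (by omega)
      omega
    · have h3 := h2 u v huv hu
      have := n2 u hu
      have h4 : β u v = front p1 j2 (b u v - (p0 + g1)) := by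
        simp only [β, hu]
        simp
      rw [h4]
      have := front_lt p1 j2 (b u v - (p0 + g1)) (N - 1) (by omega) (by omega)
      omega
  have hβα : ∀ u v, u ≠ v → mv (b u v) = s u + β u v ∨ mv (b u v) + t = s u + β u v := by
    intro u v huv
    rcases hcl u with hu | hu | hu
    · have h3 := h0 u v huv hu
      have h4 : β u v = front p2 j0
          (if b u v < p0 then b u v + p2 + g0 else b u v - (p0 + g1 + p1 + g2)) := by
        simp only [β, hu]
        simp
      have h5 : s u = ((p0 : ℤ) + g1 + p1 + g2 - j1 - j2) - j0 := by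
        simp only [s, hu]
        simp
      rw [h4, h5]
      by_cases h6 : b u v < p0
      · right
        rw [if_pos h6]
        simp only [front, mv]
        rw [if_pos h6, if_neg (show ¬ b u v + p2 + g0 < p2 by omega),
          if_neg (show ¬ b u v + p2 + g0 < p2 + j0 by omega)]
        push_cast
        omega
      · left
        rw [if_neg h6]
        simp only [front, mv]
        rw [if_neg h6, if_neg (show ¬ b u v < p0 + j1 by omega),
          if_neg (show ¬ b u v < p0 + g1 + p1 by omega),
          if_neg (show ¬ b u v < p0 + g1 + p1 + j2 by omega)]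
        split_ifs <;> omega
    · have h3 := h1 u v huv hu
      have h4 : β u v = front p0 j1 (b u v) := by
        simp only [β, hu]
        simp
      have h5 : s u = -(j1 : ℤ) := by
        simp only [s, hu]
        simp
      rw [h4, h5]
      left
      simp only [front, mv]
      split_ifs <;> omega
    · have h3 := h2 u v huv hu
      have := n2 u hu
      have h4 : β u v = front p1 j2 (b u v - (p0 + g1)) := by
        simp only [β, hu]
        simp
      have h5 : s u = ((p0 : ℤ) + g1 - j1) - j2 := by
        simp only [s, hu]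
        simp
      rw [h4, h5]
      left
      simp only [front, mv]
      rw [if_neg (show ¬ b u v < p0 by omega), if_neg (show ¬ b u v < p0 + j1 by omega)]
      split_ifs <;> omega
  have hβinj : ∀ u v w, u ≠ v → u ≠ w → β u v = β u w → v = w := by
    intro u v w huv huw h
    apply inj u v w huv huw
    rcases hcl u with hu | hu | hu
    · have h3 := h0 u v huv hu
      have h4 := h0 u w huw hu
      have h5 : front p2 j0
          (if b u v < p0 then b u v + p2 + g0 else b u v - (p0 + g1 + p1 + g2)) =
          front p2 j0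
          (if b u w < p0 then b u w + p2 + g0 else b u w - (p0 + g1 + p1 + g2)) := by
        have h7 : ∀ x, β u x = front p2 j0
            (if b u x < p0 then b u x + p2 + g0 else b u x - (p0 + g1 + p1 + g2)) := by
          intro x
          simp only [β, hu]
          simp
        rw [← h7, ← h7, h]
      have h6 := front_inj _ _ _ _ h5
      split_ifs at h6 <;> omega
    · have h3 := h1 u v huv hu
      have h4 := h1 u w huw hu
      have h5 : front p0 j1 (b u v) = front p0 j1 (b u w) := by
        simpa [β, hu] using h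
      exact front_inj _ _ _ _ h5
    · have h3 := h2 u v huv hu
      have h4 := h2 u w huw hu
      have h5 : front p1 j2 (b u v - (p0 + g1)) = front p1 j2 (b u w - (p0 + g1)) := by
        simpa [β, hu] using h
      have h6 := front_inj _ _ _ _ h5
      omega
  have hβsurj : ∀ u, ∀ i, i + 1 < N → ∃ v, u ≠ v ∧ β u v = i := by
    intro u i hi
    have hc : Fintype.card {v // u ≠ v} = N - 1 := by
      have := Fintype.card_subtype_compl (fun v => u = v)
      simp only [Fintype.card_subtype_eq'] at this
      rw [hV] at this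
      exact this
    let F : {v // u ≠ v} → Fin (N - 1) := fun v => ⟨β u v.1, by have := hβlt u v.1 v.2; omega⟩
    have hF : Function.Injective F := by
      intro v w hvw
      have := hβinj u v.1 w.1 v.2 w.2 (by simpa [F] using congrArg Fin.val hvw)
      exact Subtype.ext this
    have hF2 : Function.Surjective F :=
      ((Fintype.bijective_iff_injective_and_card F).2 ⟨hF, by rw [hc]; simp⟩).2
    obtain ⟨v, hv⟩ := hF2 ⟨i, by omega⟩
    exact ⟨v.1, v.2, by simpa [F] using congrArg Fin.val hv⟩
  have hdeg : ∀ u : V, ((⊤ : SimpleGraph V).neighborSet u).ncard = N - 1 := by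
    intro u
    have h3 : (⊤ : SimpleGraph V).neighborSet u = {u}ᶜ := by
      ext v
      simp [eq_comm]
    rw [h3, Set.ncard_compl, Nat.card_eq_fintype_card, hV, Set.ncard_singleton]
  have htp : (0 : ℤ) < t := by omega
  refine mem_of_good ht0 (s := s) (α := fun u v => mv (b u v)) ⟨?_, ?_, ?_, ?_⟩
  · intro u v huv
    change mv (b u v) = mv (b v u)
    rw [symm u v huv]
  · intro u v w huv huw hd
    change u ≠ v at huv
    change u ≠ w at huw
    apply hβinj u v w huv huw
    have h3 : (t : ℤ) ∣ (β u v : ℤ) - β u w := by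
      obtain ⟨q, hq⟩ := hd
      rcases hβα u v huv with h4 | h4 <;> rcases hβα u w huw with h5 | h5
      · exact ⟨q, by linarith⟩
      · exact ⟨q - 1, by linarith⟩
      · exact ⟨q + 1, by linarith⟩
      · exact ⟨q, by linarith⟩
    have h4 := hβlt u v huv
    have h5 := hβlt u w huw
    obtain ⟨q, hq⟩ := h3
    have hq0 : q = 0 := by
      have h6 : q < 1 := by
        by_contra h7
        nlinarith
      have h8 : -1 < q := by
        by_contra h7
        nlinarith
      omega
    rw [hq0] at hq
    omega
  · intro u v huv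
    change u ≠ v at huv
    refine ⟨β u v, ?_, ?_⟩
    · rw [hdeg]
      have := hβlt u v huv
      omega
    · rcases hβα u v huv with h4 | h4
      · exact ⟨0, by linarith⟩
      · exact ⟨-1, by linarith⟩
  · intro k
    have hr1 := Int.emod_nonneg k (show (t : ℤ) ≠ 0 by omega)
    have hr2 := Int.emod_lt_of_pos k htp
    have hr3 := Int.emod_add_mul_ediv k t
    obtain ⟨r, hr⟩ : ∃ r : ℕ, (r : ℤ) = k % t := ⟨(k % t).toNat, Int.toNat_of_nonneg hr1⟩
    have key : ∃ u : V, ∃ i : ℕ, i + 1 < N ∧ s u + i = r := by
      obtain ⟨u0, hu0⟩ := e0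
      obtain ⟨u1, hu1⟩ := e1
      by_cases hA : r + j1 < p0 + g1 + p1
      · refine ⟨u1, r + j1, by omega, ?_⟩
        simp only [s, hu1]
        push_cast
        simp
      · by_cases hB : r + j1 + j2 < p0 + g1 + p1 + g2 + p2
        · rcases e2 with ⟨u2, hu2⟩ | ⟨ha, hb, hc⟩
          · have := n2 u2 hu2
            refine ⟨u2, r + j1 + j2 - (p0 + g1), by omega, ?_⟩
            simp only [s, hu2]
            simp only [OfNat.ofNat_ne_one, if_false, if_true]
            push_cast [show p0 + g1 ≤ r + j1 + j2 by omega]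
            ring
          · omega
        · refine ⟨u0, r + j0 + j1 + j2 - (p0 + g1 + p1 + g2), by omega, ?_⟩
          simp only [s, hu0]
          simp only [zero_ne_one, if_false, OfNat.zero_ne_ofNat]
          push_cast [show p0 + g1 + p1 + g2 ≤ r + j0 + j1 + j2 by omega]
          ring
    obtain ⟨u, i, hi, hsi⟩ := key
    obtain ⟨v, huv, hv⟩ := hβsurj u i hi
    refine ⟨u, v, huv, ?_⟩
    rcases hβα u v huv with h4 | h4
    · refine ⟨-(k / t), ?_⟩
      rw [h4, hv]
      linarith
    · refine ⟨-(k / t) - 1, ?_⟩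
      have h5 : mv (b u v) = s u + β u v - t := by linarith
      rw [h5, hv]
      linarith

end Pool.Agent.MP2596c2
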