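import Mathlib
import Pool.Agent.Lib.MP_2596c2_co.Defs
import Pool.Agent.Lib.MP_2596c2_co.Cluster

/-!
Assembly of a cyclic colouring of a complete graph from 1-factorizations of three clusters and
colourings of the three blocks between them.
-/

namespace Pool.Agent.MP2596c2

/-- A 1-factorization of `K_M`, given by the index of the factor of each edge. -/
structure Fac (M : ℕ) (φ : Fin M → Fin M → ℕ) : Prop where
  symm : ∀ x y, x ≠ y → φ x y = φ y x
  lt : ∀ x y, x ≠ y → φ x y + 1 < M
  inj : ∀ x y z, x ≠ y → x ≠ z → φ x y = φ x z → y = z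

/-- A colouring, with `p` colours, of the complete bipartite graph between `Fin a` and `Fin b`
together with the factors `s, …, s + w - 1` of `Fin a`. -/
structure Blk (a b p : ℕ) (φ : Fin a → Fin a → ℕ) (s w : ℕ) (μ : Fin a → Fin a → ℕ)
    (ν : Fin a → Fin b → ℕ) : Prop where
  symm : ∀ x y, x ≠ y → s ≤ φ x y → φ x y < s + w → μ x y = μ y x
  mlt : ∀ x y, x ≠ y → s ≤ φ x y → φ x y < s + w → μ x y < p
  nlt : ∀ x b, ν x b < p
  minj : ∀ x y z, x ≠ y → x ≠ z → s ≤ φ x y → φ x y < s + w → s ≤ φ x z → φ x z < s + w →
    μ x y = μ x z → y = z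
  disj : ∀ x y b, x ≠ y → s ≤ φ x y → φ x y < s + w → μ x y ≠ ν x b
  ninj : ∀ x b c, ν x b = ν x c → b = c
  ninj' : ∀ x y b, ν x b = ν y b → x = y

theorem assemble {M0 M1 M2 : ℕ} {φ0 : Fin M0 → Fin M0 → ℕ} {φ1 : Fin M1 → Fin M1 → ℕ}
    {φ2 : Fin M2 → Fin M2 → ℕ} (F0 : Fac M0 φ0) (F1 : Fac M1 φ1) (F2 : Fac M2 φ2)
    {w0 w1 w2 p0 p1 p2 : ℕ} {μ0 μ2 : Fin M0 → Fin M0 → ℕ} {μ1 : Fin M1 → Fin M1 → ℕ}
    {ν0 : Fin M0 → Fin M1 → ℕ} {ν1 : Fin M1 → Fin M2 → ℕ} {ν2 : Fin M0 → Fin M2 → ℕ}
    (B0 : Blk M0 M1 p0 φ0 0 w0 μ0 ν0) (B1 : Blk M1 M2 p1 φ1 0 w1 μ1 ν1)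
    (B2 : Blk M0 M2 p2 φ0 w0 w2 μ2 ν2) {g0 g1 g2 : ℕ}
    (hg0 : w0 + w2 + g0 + 1 = M0) (hg1 : w1 + g1 + 1 = M1) (hg2 : g2 = M2 - 1)
    (n0 : p2 + g0 + p0 + 1 = M0 + M1 + M2) (n1 : p0 + g1 + p1 + 1 = M0 + M1 + M2)
    (n2 : 0 < M2 → p1 + g2 + p2 + 1 = M0 + M1 + M2)
    (e2 : 0 < M2 ∨ (p1 = 0 ∧ g2 = 0 ∧ p2 = 0))
    {t : ℕ} (ht0 : 1 ≤ t) (ht1 : M0 + M1 + M2 ≤ t + 1) (ht2 : p0 + p1 + p2 ≤ t)
    (ht3 : t ≤ p0 + p1 + p2 + g0 + g1 + g2) {N : ℕ} (hN : N = M0 + M1 + M2) :
    t ∈ feasibleSet (⊤ : SimpleGraph (Fin N)) := by
  let V := Fin M0 ⊕ (Fin M1 ⊕ Fin M2)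
  have hV : Fintype.card V = M0 + M1 + M2 := by
    simp only [V, Fintype.card_sum, Fintype.card_fin]
    omega
  let cl : V → ℕ := fun u => match u with
    | Sum.inl _ => 0
    | Sum.inr (Sum.inl _) => 1
    | Sum.inr (Sum.inr _) => 2
  let b : V → V → ℕ := fun u v => match u, v with
    | Sum.inl x, Sum.inl y =>
      if φ0 x y < w0 then μ0 x y
      else if φ0 x y < w0 + w2 then (p0 + g1 + p1 + g2) + μ2 x y
      else (p0 + g1 + p1 + g2 + p2) + (φ0 x y - (w0 + w2))
    | Sum.inl x, Sum.inr (Sum.inl y) => ν0 x y
    | Sum.inl x, Sum.inr (Sum.inr z) => (p0 + g1 + p1 + g2) + ν2 x z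
    | Sum.inr (Sum.inl y), Sum.inl x => ν0 x y
    | Sum.inr (Sum.inl y), Sum.inr (Sum.inl y') =>
      if φ1 y y' < w1 then (p0 + g1) + μ1 y y' else p0 + (φ1 y y' - w1)
    | Sum.inr (Sum.inl y), Sum.inr (Sum.inr z) => (p0 + g1) + ν1 y z
    | Sum.inr (Sum.inr z), Sum.inl x => (p0 + g1 + p1 + g2) + ν2 x z
    | Sum.inr (Sum.inr z), Sum.inr (Sum.inl y) => (p0 + g1) + ν1 y z
    | Sum.inr (Sum.inr z), Sum.inr (Sum.inr z') => (p0 + g1 + p1) + φ2 z z'
  have key : t ∈ feasibleSet (⊤ : SimpleGraph V) := by
    refine cluster_mem hV cl p0 p1 p2 g0 g1 g2 b ?_ ?_ ?_ ?_ ?_ ?_ ?_ ?_ n0 n1 ?_ ?_ t ht0 ht1 ht2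
      ht3
    · intro u
      rcases u with x | y | z
      · left; rfl
      · right; left; rfl
      · right; right; rfl
    · intro u v huv
      rcases u with x | y | z <;> rcases v with x' | y' | z'
      · have hne : x ≠ x' := fun h => huv (by rw [h])
        have h1 := F0.symm x x' hne
        have h2 := B0.symm x x' hne (Nat.zero_le _)
        have h3 := B2.symm x x' hne
        change (if φ0 x x' < w0 then μ0 x x'
          else if φ0 x x' < w0 + w2 then (p0 + g1 + p1 + g2) + μ2 x x'
          else (p0 + g1 + p1 + g2 + p2) + (φ0 x x' - (w0 + w2))) =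
          (if φ0 x' x < w0 then μ0 x' x
          else if φ0 x' x < w0 + w2 then (p0 + g1 + p1 + g2) + μ2 x' x
          else (p0 + g1 + p1 + g2 + p2) + (φ0 x' x - (w0 + w2)))
        rw [← h1]
        by_cases ha : φ0 x x' < w0
        · rw [if_pos ha, if_pos ha]
          exact h2 (by omega)
        · rw [if_neg ha, if_neg ha]
          by_cases hb : φ0 x x' < w0 + w2
          · rw [if_pos hb, if_pos hb, h3 (by omega) hb]
          · rw [if_neg hb, if_neg hb]
      · rfl
      · rfl
      · rfl
      · have hne : y ≠ y' := fun h => huv (by rw [h])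
        have h1 := F1.symm y y' hne
        have h2 := B1.symm y y' hne (Nat.zero_le _)
        change (if φ1 y y' < w1 then (p0 + g1) + μ1 y y' else p0 + (φ1 y y' - w1)) =
          (if φ1 y' y < w1 then (p0 + g1) + μ1 y' y else p0 + (φ1 y' y - w1))
        rw [← h1]
        by_cases ha : φ1 y y' < w1
        · rw [if_pos ha, if_pos ha, h2 (by omega)]
        · rw [if_neg ha, if_neg ha]
      · rfl
      · rfl
      · rfl
      · have hne : z ≠ z' := fun h => huv (by rw [h])
        have h1 := F2.symm z z' hne
        change (p0 + g1 + p1) + φ2 z z' = (p0 + g1 + p1) + φ2 z' z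
        rw [h1]
    · intro u v w huv huw h
      rcases u with x | y | z
      · have key0 : ∀ x', x ≠ x' → (φ0 x x' < w0 ∧ b (Sum.inl x) (Sum.inl x') = μ0 x x' ∧
            μ0 x x' < p0) ∨
            (w0 ≤ φ0 x x' ∧ φ0 x x' < w0 + w2 ∧
              b (Sum.inl x) (Sum.inl x') = (p0 + g1 + p1 + g2) + μ2 x x' ∧ μ2 x x' < p2) ∨
            (w0 + w2 ≤ φ0 x x' ∧
              b (Sum.inl x) (Sum.inl x') = (p0 + g1 + p1 + g2 + p2) + (φ0 x x' - (w0 + w2))) := by
          intro x' hne
          have h2 := B0.mlt x x' hne (Nat.zero_le _)
          have h3 := B2.mlt x x' hne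
          have h4 : b (Sum.inl x) (Sum.inl x') = (if φ0 x x' < w0 then μ0 x x'
            else if φ0 x x' < w0 + w2 then (p0 + g1 + p1 + g2) + μ2 x x'
            else (p0 + g1 + p1 + g2 + p2) + (φ0 x x' - (w0 + w2))) := rfl
          by_cases ha : φ0 x x' < w0
          · left
            rw [if_pos ha] at h4
            exact ⟨ha, h4, h2 (by omega)⟩
          · rw [if_neg ha] at h4
            by_cases hb : φ0 x x' < w0 + w2
            · rw [if_pos hb] at h4
              right; left
              exact ⟨by omega, hb, h4, h3 (by omega) hb⟩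
            · rw [if_neg hb] at h4
              right; right
              exact ⟨by omega, h4⟩
        have key1 : ∀ y', b (Sum.inl x) (Sum.inr (Sum.inl y')) = ν0 x y' := fun _ => rfl
        have key2 : ∀ z', b (Sum.inl x) (Sum.inr (Sum.inr z')) = (p0 + g1 + p1 + g2) + ν2 x z' :=
          fun _ => rfl
        rcases v with x' | y' | z' <;> rcases w with x'' | y'' | z''
        · have hne : x ≠ x' := fun h => huv (by rw [h])
          have hne' : x ≠ x'' := fun h => huw (by rw [h])
          have hA := key0 x' hne
          have hB := key0 x'' hne'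
          have hC : x' = x'' := by
            rcases hA with ⟨a1, a2, a3⟩ | ⟨a1, a2, a3, a4⟩ | ⟨a1, a2⟩ <;>
            rcases hB with ⟨b1, b2, b3⟩ | ⟨b1, b2, b3, b4⟩ | ⟨b1, b2⟩
            · exact B0.minj x x' x'' hne hne' (by omega) (by omega) (by omega) (by omega)
                (by omega)
            · omega
            · omega
            · omega
            · exact B2.minj x x' x'' hne hne' a1 a2 b1 b2 (by omega)
            · omega
            · omega
            · omega
            · exact F0.inj x x' x'' hne hne' (by omega)
          rw [hC]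
        · exfalso
          have hne : x ≠ x' := fun h => huv (by rw [h])
          have hA := key0 x' hne
          have hB := key1 y''
          have hD := B0.nlt x y''
          rcases hA with ⟨a1, a2, a3⟩ | ⟨a1, a2, a3, a4⟩ | ⟨a1, a2⟩
          · exact B0.disj x x' y'' hne (by omega) (by omega) (by omega)
          · omega
          · omega
        · exfalso
          have hne : x ≠ x' := fun h => huv (by rw [h])
          have hA := key0 x' hne
          have hB := key2 z''
          have hD := B2.nlt x z''
          rcases hA with ⟨a1, a2, a3⟩ | ⟨a1, a2, a3, a4⟩ | ⟨a1, a2⟩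
          · omega
          · exact B2.disj x x' z'' hne (by omega) (by omega) (by omega)
          · omega
        · exfalso
          have hne : x ≠ x'' := fun h => huw (by rw [h])
          have hA := key0 x'' hne
          have hB := key1 y'
          have hD := B0.nlt x y'
          rcases hA with ⟨a1, a2, a3⟩ | ⟨a1, a2, a3, a4⟩ | ⟨a1, a2⟩
          · exact B0.disj x x'' y' hne (by omega) (by omega) (by omega)
          · omega
          · omega
        · have hA := key1 y'
          have hB := key1 y''
          rw [B0.ninj x y' y'' (by omega)]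
        · exfalso
          have hA := key1 y'
          have hB := key2 z''
          have hD := B0.nlt x y'
          omega
        · exfalso
          have hne : x ≠ x'' := fun h => huw (by rw [h])
          have hA := key0 x'' hne
          have hB := key2 z'
          have hD := B2.nlt x z'
          rcases hA with ⟨a1, a2, a3⟩ | ⟨a1, a2, a3, a4⟩ | ⟨a1, a2⟩
          · omega
          · exact B2.disj x x'' z' hne (by omega) (by omega) (by omega)
          · omega
        · exfalso
          have hA := key1 y''
          have hB := key2 z'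
          have hD := B0.nlt x y''
          omega
        · have hA := key2 z'
          have hB := key2 z''
          rw [B2.ninj x z' z'' (by omega)]
      · have key0 : ∀ x', b (Sum.inr (Sum.inl y)) (Sum.inl x') = ν0 x' y := fun _ => rfl
        have key1 : ∀ y', y ≠ y' → (φ1 y y' < w1 ∧
            b (Sum.inr (Sum.inl y)) (Sum.inr (Sum.inl y')) = (p0 + g1) + μ1 y y') ∨
            (w1 ≤ φ1 y y' ∧ φ1 y y' - w1 < g1 ∧
              b (Sum.inr (Sum.inl y)) (Sum.inr (Sum.inl y')) = p0 + (φ1 y y' - w1)) := by
          intro y' hne
          have h2 := F1.lt y y' hne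
          have h4 : b (Sum.inr (Sum.inl y)) (Sum.inr (Sum.inl y')) =
            (if φ1 y y' < w1 then (p0 + g1) + μ1 y y' else p0 + (φ1 y y' - w1)) := rfl
          by_cases ha : φ1 y y' < w1
          · left
            rw [if_pos ha] at h4
            exact ⟨ha, h4⟩
          · right
            rw [if_neg ha] at h4
            exact ⟨by omega, by omega, h4⟩
        have key2 : ∀ z', b (Sum.inr (Sum.inl y)) (Sum.inr (Sum.inr z')) = (p0 + g1) + ν1 y z' :=
          fun _ => rfl
        rcases v with x' | y' | z' <;> rcases w with x'' | y'' | z''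
        · have hA := key0 x'
          have hB := key0 x''
          rw [B0.ninj' x' x'' y (by omega)]
        · exfalso
          have hne : y ≠ y'' := fun h => huw (by rw [h])
          have hA := key1 y'' hne
          have hB := key0 x'
          have hD := B0.nlt x' y
          rcases hA with ⟨a1, a2⟩ | ⟨a1, a2, a3⟩ <;> omega
        · exfalso
          have hA := key0 x'
          have hB := key2 z''
          have hD := B0.nlt x' y
          omega
        · exfalso
          have hne : y ≠ y' := fun h => huv (by rw [h])
          have hA := key1 y' hne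
          have hB := key0 x''
          have hD := B0.nlt x'' y
          rcases hA with ⟨a1, a2⟩ | ⟨a1, a2, a3⟩ <;> omega
        · have hne : y ≠ y' := fun h => huv (by rw [h])
          have hne' : y ≠ y'' := fun h => huw (by rw [h])
          have hA := key1 y' hne
          have hB := key1 y'' hne'
          have hC : y' = y'' := by
            rcases hA with ⟨a1, a2⟩ | ⟨a1, a2, a3⟩ <;> rcases hB with ⟨b1, b2⟩ | ⟨b1, b2, b3⟩
            · exact B1.minj y y' y'' hne hne' (by omega) (by omega) (by omega) (by omega)
                (by omega)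
            · omega
            · omega
            · exact F1.inj y y' y'' hne hne' (by omega)
          rw [hC]
        · exfalso
          have hne : y ≠ y' := fun h => huv (by rw [h])
          have hA := key1 y' hne
          have hB := key2 z''
          rcases hA with ⟨a1, a2⟩ | ⟨a1, a2, a3⟩
          · exact B1.disj y y' z'' hne (by omega) (by omega) (by omega)
          · omega
        · exfalso
          have hA := key0 x''
          have hB := key2 z'
          have hD := B0.nlt x'' y
          omega
        · exfalso
          have hne : y ≠ y'' := fun h => huw (by rw [h])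
          have hA := key1 y'' hne
          have hB := key2 z'
          rcases hA with ⟨a1, a2⟩ | ⟨a1, a2, a3⟩
          · exact B1.disj y y'' z' hne (by omega) (by omega) (by omega)
          · omega
        · have hA := key2 z'
          have hB := key2 z''
          rw [B1.ninj y z' z'' (by omega)]
      · have key0 : ∀ x', b (Sum.inr (Sum.inr z)) (Sum.inl x') =
            (p0 + g1 + p1 + g2) + ν2 x' z := fun _ => rfl
        have key1 : ∀ y', b (Sum.inr (Sum.inr z)) (Sum.inr (Sum.inl y')) = (p0 + g1) + ν1 y' z :=
          fun _ => rfl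
        have key2 : ∀ z', b (Sum.inr (Sum.inr z)) (Sum.inr (Sum.inr z')) =
            (p0 + g1 + p1) + φ2 z z' := fun _ => rfl
        rcases v with x' | y' | z' <;> rcases w with x'' | y'' | z''
        · have hA := key0 x'
          have hB := key0 x''
          rw [B2.ninj' x' x'' z (by omega)]
        · exfalso
          have hA := key0 x'
          have hB := key1 y''
          have hD := B1.nlt y'' z
          omega
        · exfalso
          have hne : z ≠ z'' := fun h => huw (by rw [h])
          have hA := key0 x'
          have hB := key2 z''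
          have hD := F2.lt z z'' hne
          omega
        · exfalso
          have hA := key0 x''
          have hB := key1 y'
          have hD := B1.nlt y' z
          omega
        · have hA := key1 y'
          have hB := key1 y''
          rw [B1.ninj' y' y'' z (by omega)]
        · exfalso
          have hA := key1 y'
          have hB := key2 z''
          have hD := B1.nlt y' z
          omega
        · exfalso
          have hne : z ≠ z' := fun h => huv (by rw [h])
          have hA := key0 x''
          have hB := key2 z'
          have hD := F2.lt z z' hne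
          omega
        · exfalso
          have hA := key1 y''
          have hB := key2 z'
          have hD := B1.nlt y'' z
          omega
        · have hne : z ≠ z' := fun h => huv (by rw [h])
          have hne' : z ≠ z'' := fun h => huw (by rw [h])
          have hA := key2 z'
          have hB := key2 z''
          rw [F2.inj z z' z'' hne hne' (by omega)]
    · intro u v huv hu
      rcases u with x | y | z
      · exact absurd (show (0 : ℕ) = 1 from hu) (by omega)
      · rcases v with x' | y' | z'
        · have hD := B0.nlt x' y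
          change ν0 x' y < p0 + g1 + p1
          omega
        · have hne : y ≠ y' := fun h => huv (by rw [h])
          have h1 := F1.lt y y' hne
          have h2 := B1.mlt y y' hne (Nat.zero_le _)
          change (if φ1 y y' < w1 then (p0 + g1) + μ1 y y' else p0 + (φ1 y y' - w1)) <
            p0 + g1 + p1
          by_cases ha : φ1 y y' < w1
          · rw [if_pos ha]
            have := h2 (by omega)
            omega
          · rw [if_neg ha]
            omega
        · have hD := B1.nlt y z'
          change (p0 + g1) + ν1 y z' < p0 + g1 + p1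
          omega
      · exact absurd (show (2 : ℕ) = 1 from hu) (by omega)
    · intro u v huv hu
      rcases u with x | y | z
      · exact absurd (show (0 : ℕ) = 2 from hu) (by omega)
      · exact absurd (show (1 : ℕ) = 2 from hu) (by omega)
      · rcases v with x' | y' | z'
        · have hD := B2.nlt x' z
          change p0 + g1 ≤ (p0 + g1 + p1 + g2) + ν2 x' z ∧
            (p0 + g1 + p1 + g2) + ν2 x' z < p0 + g1 + p1 + g2 + p2
          omega
        · have hD := B1.nlt y' z
          change p0 + g1 ≤ (p0 + g1) + ν1 y' z ∧ (p0 + g1) + ν1 y' z < p0 + g1 + p1 + g2 + p2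
          omega
        · have hne : z ≠ z' := fun h => huv (by rw [h])
          have h1 := F2.lt z z' hne
          change p0 + g1 ≤ (p0 + g1 + p1) + φ2 z z' ∧
            (p0 + g1 + p1) + φ2 z z' < p0 + g1 + p1 + g2 + p2
          omega
    · intro u v huv hu
      rcases u with x | y | z
      · rcases v with x' | y' | z'
        · have hne : x ≠ x' := fun h => huv (by rw [h])
          have h1 := F0.lt x x' hne
          have h2 := B0.mlt x x' hne (Nat.zero_le _)
          have h3 := B2.mlt x x' hne
          change (if φ0 x x' < w0 then μ0 x x'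
            else if φ0 x x' < w0 + w2 then (p0 + g1 + p1 + g2) + μ2 x x'
            else (p0 + g1 + p1 + g2 + p2) + (φ0 x x' - (w0 + w2))) < p0 ∨
            (p0 + g1 + p1 + g2 ≤ (if φ0 x x' < w0 then μ0 x x'
            else if φ0 x x' < w0 + w2 then (p0 + g1 + p1 + g2) + μ2 x x'
            else (p0 + g1 + p1 + g2 + p2) + (φ0 x x' - (w0 + w2))) ∧
            (if φ0 x x' < w0 then μ0 x x'
            else if φ0 x x' < w0 + w2 then (p0 + g1 + p1 + g2) + μ2 x x'
            else (p0 + g1 + p1 + g2 + p2) + (φ0 x x' - (w0 + w2))) <
              p0 + g1 + p1 + g2 + p2 + g0)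
          by_cases ha : φ0 x x' < w0
          · simp only [if_pos ha]
            left
            exact h2 (by omega)
          · simp only [if_neg ha]
            right
            by_cases hb : φ0 x x' < w0 + w2
            · simp only [if_pos hb]
              have := h3 (by omega) hb
              omega
            · simp only [if_neg hb]
              omega
        · left
          exact B0.nlt x y'
        · right
          have hD := B2.nlt x z'
          change p0 + g1 + p1 + g2 ≤ (p0 + g1 + p1 + g2) + ν2 x z' ∧
            (p0 + g1 + p1 + g2) + ν2 x z' < p0 + g1 + p1 + g2 + p2 + g0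
          omega
      · exact absurd (show (1 : ℕ) = 0 from hu) (by omega)
      · exact absurd (show (2 : ℕ) = 0 from hu) (by omega)
    · exact ⟨Sum.inl ⟨0, by omega⟩, rfl⟩
    · exact ⟨Sum.inr (Sum.inl ⟨0, by omega⟩), rfl⟩
    · intro u hu
      rcases u with x | y | z
      · exact absurd (show (0 : ℕ) = 2 from hu) (by omega)
      · exact absurd (show (1 : ℕ) = 2 from hu) (by omega)
      · exact n2 (by have := z.2; omega)
    · rcases e2 with h | h
      · left
        exact ⟨Sum.inr (Sum.inr ⟨0, h⟩), rfl⟩
      · right
        exact h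
  refine mem_top_transport (V := V) (W := Fin N) (Fintype.equivOfCardEq ?_) key
  rw [hV, Fintype.card_fin]
  exact hN

end Pool.Agent.MP2596c2
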