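import Mathlib
import Pool.Agent.Lib.MP_2596c2_co.Assemble

/-!
Explicit 1-factorizations of `K_{2m+2}` (round robin) and the mixed blocks: two 1-factors of
`K_{2m+2}` together with `K_{2m+2,2m}` coloured with `2m+2` colours.
-/

namespace Pool.Agent.MP2596c2

/-- Addition modulo `L` of two numbers below `L`. -/
def addM (L a b : ℕ) : ℕ := if a + b < L then a + b else a + b - L

/-- The index of the factor of the edge `ab` in the round robin 1-factorization; the point `L` is
the point at infinity. -/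
def rr (L a b : ℕ) : ℕ := if a = L then addM L b b else if b = L then addM L a a else addM L a b

theorem fac_rr (m : ℕ) : Fac (2 * m + 2) (fun x y => rr (2 * m + 1) x.val y.val) := by
  refine ⟨?_, ?_, ?_⟩
  · intro x y hxy
    have h : x.val ≠ y.val := fun h => hxy (Fin.ext h)
    have hx := x.2
    have hy := y.2
    simp only [rr, addM]
    split_ifs <;> omega
  · intro x y hxy
    have h : x.val ≠ y.val := fun h => hxy (Fin.ext h)
    have hx := x.2
    have hy := y.2
    simp only [rr, addM]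
    split_ifs <;> omega
  · intro x y z hxy hxz h
    have h1 : x.val ≠ y.val := fun h => hxy (Fin.ext h)
    have h2 : x.val ≠ z.val := fun h => hxz (Fin.ext h)
    have hx := x.2
    have hy := y.2
    have hz := z.2
    apply Fin.ext
    simp only [rr, addM] at h
    split_ifs at h <;> omega

theorem exists_latin (a : ℕ) (φ : Fin a → Fin a → ℕ) (s : ℕ) :
    ∃ μ : Fin a → Fin a → ℕ, ∃ ν : Fin a → Fin a → ℕ, Blk a a a φ s 0 μ ν := by
  refine ⟨fun _ _ => 0, fun x y => addM a x.val y.val, ⟨?_, ?_, ?_, ?_, ?_, ?_, ?_⟩⟩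
  · intro x y _ h1 h2
    rfl
  · intro x y _ h1 h2
    omega
  · intro x y
    have hx := x.2
    have hy := y.2
    simp only [addM]
    split_ifs <;> omega
  · intro x y z _ _ h1 h2
    omega
  · intro x y b _ h1 h2
    omega
  · intro x b c h
    have hx := x.2
    have hb := b.2
    have hc := c.2
    apply Fin.ext
    simp only [addM] at h
    split_ifs at h <;> omega
  · intro x y b h
    have hx := x.2
    have hy := y.2
    have hb := b.2
    apply Fin.ext
    simp only [addM] at h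
    split_ifs at h <;> omega

/-- The block between a cluster and the empty cluster. -/
theorem exists_empty (a : ℕ) (φ : Fin a → Fin a → ℕ) (s : ℕ) :
    ∃ μ : Fin a → Fin a → ℕ, ∃ ν : Fin a → Fin 0 → ℕ, Blk a 0 0 φ s 0 μ ν := by
  refine ⟨fun _ _ => 0, fun _ _ => 0, ⟨?_, ?_, ?_, ?_, ?_, ?_, ?_⟩⟩
  · intro x y _ h1 h2
    rfl
  · intro x y _ h1 h2
    omega
  · intro x y
    exact y.elim0
  · intro x y z _ _ h1 h2
    omega
  · intro x y b
    exact b.elim0
  · intro x b
    exact b.elim0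
  · intro x y b
    exact b.elim0

theorem blk_of_label {M k : ℕ} (hk : k + 2 = M) (hk1 : 1 ≤ k) (φ : Fin M → Fin M → ℕ) (s : ℕ)
    (l : Fin M → ℕ) (hlt : ∀ x, l x < M) (hinj : ∀ x y, l x = l y → x = y)
    (hadj : ∀ x y, x ≠ y → s ≤ φ x y → φ x y < s + 2 → (l x + 1 = l y ∨ l y + 1 = l x ∨
      (l x = 0 ∧ l y + 1 = M) ∨ (l x + 1 = M ∧ l y = 0))) :
    ∃ μ : Fin M → Fin M → ℕ, ∃ ν : Fin M → Fin k → ℕ, Blk M k M φ s 2 μ ν := by
  refine ⟨fun x y => if (l x = 0 ∧ l y + 1 = M) ∨ (l y = 0 ∧ l x + 1 = M) then M - 1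
    else min (l x) (l y), fun x b => addM M (l x) (b.val + 1), ⟨?_, ?_, ?_, ?_, ?_, ?_, ?_⟩⟩
  · intro x y _ _ _
    by_cases h : (l x = 0 ∧ l y + 1 = M) ∨ (l y = 0 ∧ l x + 1 = M)
    · rw [if_pos h, if_pos h.symm]
    · rw [if_neg h, if_neg (fun h' => h h'.symm), min_comm]
  · intro x y _ _ _
    have := hlt x
    have := hlt y
    split_ifs <;> omega
  · intro x b
    have := hlt x
    have := b.2
    simp only [addM]
    split_ifs <;> omega
  · intro x y z hxy hxz h1 h2 h3 h4 h
    apply hinj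
    have hx := hlt x
    have hy := hlt y
    have hz := hlt z
    have ha := hadj x y hxy h1 h2
    have hb := hadj x z hxz h3 h4
    split_ifs at h <;> omega
  · intro x y b hxy h1 h2
    have hx := hlt x
    have hy := hlt y
    have hb := b.2
    have ha := hadj x y hxy h1 h2
    simp only [addM]
    split_ifs <;> omega
  · intro x b c h
    have hx := hlt x
    have hb := b.2
    have hc := c.2
    apply Fin.ext
    simp only [addM] at h
    split_ifs at h <;> omega
  · intro x y b h
    have hx := hlt x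
    have hy := hlt y
    have hb := b.2
    apply hinj
    simp only [addM] at h
    split_ifs at h <;> omega

/-- Labels making the factors `0` and `1` of the round robin factorization one cycle. -/
def lab (m a : ℕ) : ℕ :=
  if a = 2 * m + 1 then 0 else if a = 0 then 1 else if a ≤ m then 2 * a else 2 * (2 * m + 1 - a) + 1

theorem lab_lt {m a : ℕ} (ha : a < 2 * m + 2) : lab m a < 2 * m + 2 := by
  unfold lab
  split_ifs <;> omega

theorem lab_inj {m a b : ℕ} (ha : a < 2 * m + 2) (hb : b < 2 * m + 2) (h : lab m a = lab m b) :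
    a = b := by
  unfold lab at h
  split_ifs at h <;> omega

theorem lab_adj {m a b : ℕ} (hm : 1 ≤ m) (ha : a < 2 * m + 2) (hb : b < 2 * m + 2) (hab : a ≠ b)
    (h : rr (2 * m + 1) a b < 2) : lab m a + 1 = lab m b ∨ lab m b + 1 = lab m a ∨
      (lab m a = 0 ∧ lab m b + 1 = 2 * m + 2) ∨ (lab m a + 1 = 2 * m + 2 ∧ lab m b = 0) := by
  unfold lab
  simp only [rr, addM] at h
  split_ifs at h ⊢ <;> omega

theorem exists_blk0 (m : ℕ) (hm : 1 ≤ m) :
    ∃ μ : Fin (2 * m + 2) → Fin (2 * m + 2) → ℕ, ∃ ν : Fin (2 * m + 2) → Fin (2 * m) → ℕ,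
      Blk (2 * m + 2) (2 * m) (2 * m + 2) (fun x y => rr (2 * m + 1) x.val y.val) 0 2 μ ν := by
  refine blk_of_label (k := 2 * m) (by omega) (by omega) _ 0 (fun x => lab m x.val)
    (fun x => lab_lt x.2) (fun x y h => Fin.ext (lab_inj x.2 y.2 h)) ?_
  intro x y hxy _ h
  exact lab_adj hm x.2 y.2 (fun h => hxy (Fin.ext h)) (by omega)

/-- Shift by one of the residues. -/
def shift (m a : ℕ) : ℕ := if a = 2 * m + 1 then a else if a = 0 then 2 * m else a - 1

theorem shift_lt {m a : ℕ} (ha : a < 2 * m + 2) : shift m a < 2 * m + 2 := by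
  unfold shift
  split_ifs <;> omega

theorem shift_inj {m a b : ℕ} (h : shift m a = shift m b) (ha : a < 2 * m + 2)
    (hb : b < 2 * m + 2) : a = b := by
  unfold shift at h
  split_ifs at h <;> omega

theorem shift_rr {m a b : ℕ} (hm : 2 ≤ m) (ha : a < 2 * m + 2) (hb : b < 2 * m + 2) (hab : a ≠ b)
    (h1 : 2 ≤ rr (2 * m + 1) a b) (h2 : rr (2 * m + 1) a b < 4) :
    rr (2 * m + 1) (shift m a) (shift m b) < 2 := by
  unfold shift
  simp only [rr, addM] at h1 h2 ⊢
  split_ifs at h1 h2 ⊢ <;> omega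

theorem exists_blk2 (m : ℕ) (hm : 2 ≤ m) :
    ∃ μ : Fin (2 * m + 2) → Fin (2 * m + 2) → ℕ, ∃ ν : Fin (2 * m + 2) → Fin (2 * m) → ℕ,
      Blk (2 * m + 2) (2 * m) (2 * m + 2) (fun x y => rr (2 * m + 1) x.val y.val) 2 2 μ ν := by
  refine blk_of_label (k := 2 * m) (by omega) (by omega) _ 2 (fun x => lab m (shift m x.val))
    (fun x => lab_lt (shift_lt x.2))
    (fun x y h => Fin.ext (shift_inj (lab_inj (shift_lt x.2) (shift_lt y.2) h) x.2 y.2)) ?_
  intro x y hxy h1 h2
  have hne : x.val ≠ y.val := fun h => hxy (Fin.ext h)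
  exact lab_adj (by omega) (shift_lt x.2) (shift_lt y.2)
    (fun h => hne (shift_inj h x.2 y.2)) (shift_rr hm x.2 y.2 hne h1 (by omega))

end Pool.Agent.MP2596c2
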