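import Mathlib

/-!
The combinatorial core of the theorem that an interval cyclic `(2N-3)`-colouring of `K_N` forces
`3 ∣ N`: closed chains of four windows.
-/

namespace Pool.Agent.MP2596c2

/-- The data of the core argument. -/
structure Core (N : ℤ) (F G : ℤ → ℤ) : Prop where
  hN : 1 ≤ N
  mono : ∀ i j, i ≤ j → F i ≤ F j
  per : ∀ k, F (k + N) = F k + N
  tau : ∀ k r, F k ≤ r → r ≤ F (k + 1) → F r ≤ k + N ∧ k + N ≤ F (r + 1)
  pos : ∀ k, k + 1 ≤ F k
  gper : ∀ k, G (k + N) = G k + 3
  hI : ∀ (k r : ℤ) (h : ℕ), F k ≤ r → r ≤ F (k + 1) → 2 * (h : ℤ) ≤ r - k →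
    (h : ℤ) ≤ ∑ i ∈ Finset.range h, (G (r - h + 1 + i) - G (k + 1 + i))

/-- `(k, r)` is on the path. -/
def OnP (F : ℤ → ℤ) (k r : ℤ) : Prop := F k ≤ r ∧ r ≤ F (k + 1)

/-- Closed chain of four windows with overlap `h`. -/
def Ch (N : ℤ) (F : ℤ → ℤ) (h a b c d : ℤ) : Prop :=
  OnP F a (b + h) ∧ OnP F b (c + h) ∧ OnP F c (d + h) ∧ OnP F d (a + N + h)

/-- Sum of `G` over `n` consecutive integers after `k`. -/
def SG (G : ℤ → ℤ) (n : ℕ) (k : ℤ) : ℤ := ∑ i ∈ Finset.range n, G (k + 1 + i)

theorem SG_succ (G : ℤ → ℤ) (n : ℕ) (k : ℤ) : SG G (n + 1) k = SG G n k + G (k + 1 + n) := by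
  simp only [SG, Finset.sum_range_succ]

theorem SG_shift (G : ℤ → ℤ) (n : ℕ) (k : ℤ) :
    SG G n (k + 1) = SG G n k + G (k + 1 + n) - G (k + 1) := by
  induction n with
  | zero => simp [SG]
  | succ n ih =>
    rw [SG_succ, SG_succ, ih]
    have h1 : k + 1 + 1 + (n : ℤ) = k + 1 + ((n + 1 : ℕ) : ℤ) := by push_cast; ring
    rw [h1]
    ring

theorem SG_swap (G : ℤ → ℤ) (n m : ℕ) (k : ℤ) :
    SG G n (k + m) - SG G n k = SG G m (k + n) - SG G m k := by
  induction n with
  | zero => simp [SG]
  | succ n ih =>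
    rw [SG_succ, SG_succ]
    have h1 : k + ((n + 1 : ℕ) : ℤ) = k + n + 1 := by push_cast; ring
    rw [h1, SG_shift]
    have h2 : k + (m : ℤ) + 1 + n = k + n + 1 + m := by ring
    have h3 : k + (n : ℤ) + 1 = k + 1 + n := by ring
    rw [h2, h3]
    have h4 : k + 1 + (n : ℤ) + m = k + n + 1 + m := by ring
    rw [h4] at *
    linarith

namespace Core

variable {N : ℤ} {F G : ℤ → ℤ}

theorem tau1 (C : Core N F G) {k r : ℤ} (h : OnP F k r) : OnP F r (k + N) :=
  C.tau k r h.1 h.2

theorem unshift (C : Core N F G) {k r : ℤ} (h : OnP F (k + N) (r + N)) : OnP F k r := by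
  have h1 := C.per k
  have h2 := C.per (k + 1)
  obtain ⟨h3, h4⟩ := h
  have h5 : k + N + 1 = k + 1 + N := by ring
  rw [h5] at h4
  exact ⟨by linarith, by linarith⟩

theorem shift (C : Core N F G) {k r : ℤ} (h : OnP F k r) : OnP F (k + N) (r + N) := by
  have h1 := C.per k
  have h2 := C.per (k + 1)
  obtain ⟨h3, h4⟩ := h
  have h5 : k + N + 1 = k + 1 + N := by ring
  refine ⟨by linarith, ?_⟩
  rw [h5]
  linarith

theorem tau2 (C : Core N F G) {k r : ℤ} (h : OnP F r (k + N)) : OnP F k r :=
  C.unshift (C.tau1 h)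

theorem comp (C : Core N F G) {k r k' r' : ℤ} (h : OnP F k r) (h' : OnP F k' r') (hk : k < k') :
    r ≤ r' :=
  h.2.trans ((C.mono _ _ (by omega)).trans h'.1)

theorem rot (C : Core N F G) {h a b c d : ℤ} (H : Ch N F h a b c d) : Ch N F h b c d (a + N) := by
  obtain ⟨h1, h2, h3, h4⟩ := H
  refine ⟨h2, h3, h4, ?_⟩
  have := C.shift h1
  have h5 : b + N + h = b + h + N := by ring
  rwa [h5]

theorem D (C : Core N F G) (h J : ℕ) (k : ℤ) (hP : OnP F k (k + J + h)) :
    ((min h J : ℕ) : ℤ) ≤ SG G h (k + J) - SG G h k := by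
  rcases le_total h J with hle | hle
  · rw [min_eq_left hle]
    have h1 := C.hI k (k + J + h) h hP.1 hP.2 (by
      have : (h : ℤ) ≤ J := by exact_mod_cast hle
      linarith)
    have h2 : ∑ i ∈ Finset.range h, (G (k + J + h - h + 1 + i) - G (k + 1 + i)) =
        SG G h (k + J) - SG G h k := by
      simp only [SG, Finset.sum_sub_distrib]
      congr 1
      apply Finset.sum_congr rfl
      intro i _
      congr 1
      ring
    rw [← h2]
    exact h1
  · rw [min_eq_right hle, SG_swap]
    have h1 := C.hI k (k + J + h) J hP.1 hP.2 (by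
      have : (J : ℤ) ≤ h := by exact_mod_cast hle
      linarith)
    have h2 : ∑ i ∈ Finset.range J, (G (k + J + h - J + 1 + i) - G (k + 1 + i)) =
        SG G J (k + h) - SG G J k := by
      simp only [SG, Finset.sum_sub_distrib]
      congr 1
      apply Finset.sum_congr rfl
      intro i _
      congr 1
      ring
    rw [← h2]
    exact h1

theorem SG_per (C : Core N F G) (n : ℕ) (k : ℤ) : SG G n (k + N) = SG G n k + 3 * n := by
  induction n with
  | zero => simp [SG]
  | succ n ih =>
    rw [SG_succ, SG_succ, ih]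
    have h1 : k + N + 1 + (n : ℤ) = k + 1 + n + N := by ring
    rw [h1, C.gper]
    push_cast
    ring

theorem D' (C : Core N F G) (h : ℕ) (a b : ℤ) (hab : a ≤ b) (hP : OnP F a (b + h)) :
    min (h : ℤ) (b - a) ≤ SG G h b - SG G h a := by
  obtain ⟨J, hJ⟩ := Int.eq_ofNat_of_zero_le (sub_nonneg.2 hab)
  have h1 : b = a + J := by linarith
  subst h1
  have := C.D h J a hP
  push_cast at this
  have h2 : a + (J : ℤ) - a = J := by ring
  rw [h2]
  exact this

/-- The Erdős–Gallai inequality summed over a closed chain. -/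
theorem chain_le (C : Core N F G) (h : ℕ) {a b c d : ℤ} (H : Ch N F h a b c d)
    (h1 : a ≤ b) (h2 : b ≤ c) (h3 : c ≤ d) (h4 : d ≤ a + N) :
    min (h : ℤ) (b - a) + min (h : ℤ) (c - b) + min (h : ℤ) (d - c) + min (h : ℤ) (a + N - d) ≤
      3 * h := by
  obtain ⟨p1, p2, p3, p4⟩ := H
  have e1 := C.D' h a b h1 p1
  have e2 := C.D' h b c h2 p2
  have e3 := C.D' h c d h3 p3
  have e4 := C.D' h d (a + N) h4 p4
  have e5 := C.SG_per h a
  linarith

/-- `c ≥ a + h`. -/
theorem far (C : Core N F G) {h a b c d : ℤ} (hh : 1 ≤ h) (H : Ch N F h a b c d) : a + h ≤ c := by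
  obtain ⟨p1, p2, p3, p4⟩ := H
  have h5 : a + N + h = a + h + N := by ring
  rw [h5] at p4
  have p5 := C.tau2 p4
  by_contra hcon
  have := C.comp p3 p5 (by omega)
  omega

theorem opp (C : Core N F G) {h a b c d : ℤ} (H : Ch N F h a b c d) (hc : c < b + h) :
    d + h ≤ a + N := by
  obtain ⟨p1, p2, p3, p4⟩ := H
  exact C.comp p3 (C.tau1 p1) hc

theorem max_step (C : Core N F G) {h a b c : ℤ} (p1 : OnP F a (b + h)) (p2 : OnP F b (c + h)) :
    OnP F (max b a) (max c b + h) := by
  rcases lt_trichotomy a b with hab | hab | hab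
  · have := C.comp p1 p2 hab
    rw [max_eq_left hab.le, max_eq_left (by omega)]
    exact p2
  · subst hab
    rw [max_self]
    rcases le_total a c with h1 | h1
    · rw [max_eq_left h1]; exact p2
    · rw [max_eq_right h1]; exact p1
  · have := C.comp p2 p1 hab
    rw [max_eq_right hab.le, max_eq_right (by omega)]
    exact p1

/-- Every closed chain gives a closed chain that is nondecreasing. -/
theorem exists_sorted (C : Core N F G) {h a b c d : ℤ} (hh : 1 ≤ h) (H : Ch N F h a b c d) :
    ∃ a' b' c' d', Ch N F h a' b' c' d' ∧ a' ≤ b' ∧ b' ≤ c' ∧ c' ≤ d' ∧ d' ≤ a' + N := by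
  have f1 := C.far hh H
  have f2 := C.far hh (C.rot H)
  have f3 := C.far hh (C.rot (C.rot H))
  have f4 := C.far hh (C.rot (C.rot (C.rot H)))
  obtain ⟨p1, p2, p3, p4⟩ := H
  -- the shifted last point
  have p0 : OnP F (d - N) (a + h) := by
    apply C.unshift
    have e1 : d - N + N = d := by ring
    have e2 : a + h + N = a + N + h := by ring
    rw [e1, e2]
    exact p4
  refine ⟨max a (d - N), max b a, max c b, max d c, ⟨C.max_step p0 p1, C.max_step p1 p2,
    C.max_step p2 p3, ?_⟩, ?_, ?_, ?_, ?_⟩
  · have := C.max_step p3 p4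
    have e : max a (d - N) + N = max (a + N) d := by
      rw [max_add_add_right a (d - N) N |>.symm]
      congr 1
      ring
    rw [e]
    exact this
  · apply max_le
    · exact le_max_right _ _
    · exact le_trans (by omega) (le_max_left _ _)
  · apply max_le
    · exact le_max_right _ _
    · exact le_trans (by omega) (le_max_left _ _)
  · apply max_le
    · exact le_max_right _ _
    · exact le_trans (by omega) (le_max_left _ _)
  · have e : max a (d - N) + N = max (a + N) d := by
      rw [max_add_add_right a (d - N) N |>.symm]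
      congr 1
      ring
    rw [e]
    apply max_le
    · exact le_max_right _ _
    · exact le_trans (by omega) (le_max_left _ _)

/-- Discrete intermediate value. -/
theorem sel (F : ℤ → ℤ) (a y : ℤ) : ∀ b, a ≤ b → F a ≤ y → y ≤ F (b + 1) →
    ∃ z, a ≤ z ∧ z ≤ b ∧ OnP F z y := by
  intro b hab
  induction b, hab using Int.leInduction with
  | base => intro h1 h2; exact ⟨a, le_refl _, le_refl _, h1, h2⟩
  | succ b hab ih =>
    intro h1 h2
    by_cases h3 : y ≤ F (b + 1)
    · obtain ⟨z, hz1, hz2, hz3⟩ := ih h1 h3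
      exact ⟨z, hz1, by omega, hz3⟩
    · exact ⟨b + 1, by omega, le_refl _, by omega, h2⟩

theorem exists_chain (C : Core N F G) : ∃ h : ℕ, 1 ≤ h ∧ ∃ a b c d, Ch N F h a b c d := by
  classical
  -- the predicate
  let A : ℕ → Prop := fun h => ∃ k, F (F (F (F k - h) - h) - h) - h ≤ k + N
  have hFle : ∀ k, F k + 1 ≤ k + N := by
    intro k
    have h1 := (C.tau k (F k) (le_refl _) (C.mono _ _ (by omega))).1
    have h2 := C.pos (F k)
    linarith
  have hA0 : ¬ A 0 := by
    rintro ⟨k, hk⟩
    simp only [Nat.cast_zero, sub_zero] at hk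
    have h1 := (C.tau k (F k) (le_refl _) (C.mono _ _ (by omega))).2
    have h2 := C.pos (F k)
    have h3 := C.mono _ _ h2
    have h4 := C.pos (F (F (F k)))
    linarith
  have hAN : A N.toNat := by
    refine ⟨0, ?_⟩
    have hN := C.hN
    have hc : ((N.toNat : ℕ) : ℤ) = N := Int.toNat_of_nonneg (by omega)
    rw [hc]
    have h1 := hFle 0
    have h2 := hFle (F 0 - N)
    have h3 := hFle (F (F 0 - N) - N)
    have h4 := hFle (F (F (F 0 - N) - N) - N)
    linarith
  have hex : ∃ h, A h := ⟨_, hAN⟩
  have hA := Nat.find_spec hex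
  have hmin := fun m => @Nat.find_min _ _ hex m
  set h := Nat.find hex with hh
  have hpos : 1 ≤ h := by
    rcases Nat.eq_zero_or_pos h with h0 | h0
    · rw [h0] at hA; exact absurd hA hA0
    · exact h0
  refine ⟨h, hpos, ?_⟩
  obtain ⟨k, hk⟩ := hA
  have hprev : ¬ A (h - 1) := hmin (h - 1) (by omega)
  have hprev' : k + 1 + N < F (F (F (F (k + 1) - (h - 1)) - (h - 1)) - (h - 1)) - (h - 1) := by
    by_contra hcon
    apply hprev
    refine ⟨k + 1, ?_⟩
    have : ((h - 1 : ℕ) : ℤ) = (h : ℤ) - 1 := by
      push_cast [Nat.cast_sub hpos]; ring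
    rw [this]
    omega
  -- lower and upper ends
  set a1 := F k - h with ha1
  set a2 := F a1 - h with ha2
  set a3 := F a2 - h with ha3
  set b1 := F (k + 1) - h with hb1
  set b2 := F (b1 + 1) - h with hb2
  set b3 := F (b2 + 1) - h with hb3
  have e1 : F (k + 1) - ((h : ℤ) - 1) = b1 + 1 := by rw [hb1]; ring
  have e2 : F (b1 + 1) - ((h : ℤ) - 1) = b2 + 1 := by rw [hb2]; ring
  have e3 : F (b2 + 1) - ((h : ℤ) - 1) = b3 + 1 := by rw [hb3]; ring
  rw [e1, e2, e3] at hprev'
  have l1 : a1 ≤ b1 := by have := C.mono k (k + 1) (by omega); omega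
  have l2 : a2 ≤ b2 := by have := C.mono a1 (b1 + 1) (by omega); omega
  have l3 : a3 ≤ b3 := by have := C.mono a2 (b2 + 1) (by omega); omega
  obtain ⟨d, hd1, hd2, hd3⟩ := sel F a3 (k + N + h) b3 l3 (by omega) (by omega)
  obtain ⟨c, hc1, hc2, hc3⟩ := sel F a2 (d + h) b2 l2 (by omega) (by omega)
  obtain ⟨b, hb1', hb2', hb3'⟩ := sel F a1 (c + h) b1 l1 (by omega) (by omega)
  exact ⟨k, b, c, d, ⟨by omega, by omega⟩, hb3', hc3, hd3⟩

/-- Type A: `b = a`. -/
theorem typeA (C : Core N F G) (h : ℕ) (hh : 1 ≤ h) {a c d : ℤ} (H : Ch N F h a a c d)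
    (h2 : a + h ≤ c) (h3 : c + h ≤ d) (h4 : d + h ≤ a + N) : N = 3 * h := by
  by_contra hN
  have hN' : 3 * (h : ℤ) + 1 ≤ N := by omega
  have hhz : (1 : ℤ) ≤ h := by exact_mod_cast hh
  obtain ⟨p1, p2, p3, p4⟩ := H
  have q1 := C.tau1 p1
  have q4 : OnP F (a + h) d := by
    apply C.tau2
    have e : a + h + N = a + N + h := by ring
    rw [e]; exact p4
  have f1 := p1.1
  have f2 := p2.2
  have f3 := q1.2
  have f4 := q4.1
  have f5 := p4.2
  have m1 := C.mono (a + 1) (a + h) (by omega)
  have m2 := C.mono (a + 1) (a + h + 1) (by omega)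
  set y := max (F (a + 1)) (a + 2 * h + 1) with hy
  have hy1 : F (a + 1) ≤ y := le_max_left _ _
  have hy2 : a + 2 * h + 1 ≤ y := le_max_right _ _
  have hy3 : y = F (a + 1) ∨ y = a + 2 * h + 1 := by
    rcases le_total (F (a + 1)) (a + 2 * h + 1) with h5 | h5
    · right; exact max_eq_right h5
    · left; exact max_eq_left h5
  have hy4 : y ≤ F (a + h + 1) := by omega
  obtain ⟨p, hp1, hp2, hp3⟩ := sel F (a + 1) y (a + h) (by omega) hy1 hy4
  have hlast : OnP F (a + N - h) (a + N + h) := by
    constructor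
    · have := C.mono (a + N - h) (a + N) (by omega)
      have := C.per a
      omega
    · have := C.mono (d + 1) (a + N - h + 1) (by omega)
      omega
  have hmid : OnP F (y - h) (a + N) := by
    apply C.tau1
    constructor
    · omega
    · rcases hy3 with h5 | h5 <;> omega
  have hch : Ch N F h a p (y - h) (a + N - h) := by
    refine ⟨⟨by omega, by omega⟩, ?_, ?_, hlast⟩
    · have e : y - h + h = y := by ring
      rw [e]; exact hp3
    · have e : a + N - h + h = a + N := by ring
      rw [e]; exact hmid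
  have hyN : y + h ≤ a + N := by rcases hy3 with h5 | h5 <;> omega
  have := C.chain_le h hch (by omega) (by omega) (by omega) (by omega)
  rw [min_eq_right (show p - a ≤ (h : ℤ) by omega),
    min_eq_left (show (h : ℤ) ≤ a + N - h - (y - h) by omega),
    min_eq_left (show (h : ℤ) ≤ a + N - (a + N - h) by omega)] at this
  rcases le_total (h : ℤ) (y - h - p) with h5 | h5
  · rw [min_eq_left h5] at this
    omega
  · rw [min_eq_right h5] at this
    omega

/-- Type B: `a < b < c = a + h`. -/
theorem typeB (C : Core N F G) (h : ℕ) (hh : 1 ≤ h)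
    (hmin : ∀ h' : ℕ, 1 ≤ h' → h' < h → ¬ ∃ a b c d, Ch N F h' a b c d) :
    ∀ (n : ℕ) (a b d : ℤ), a + h = b + n → a < b → b < a + h → Ch N F h a b (a + h) d →
      a + 2 * h ≤ d → d + h ≤ a + N → N = 3 * h := by
  intro n
  induction n with
  | zero => intro a b d h1 h2 h3; simp at h1; omega
  | succ n ih =>
    intro a b d h1 h2 h3 H h4 h5
    have H' := H
    obtain ⟨p1, p2, p3, p4⟩ := H
    have q4 : OnP F (a + h) d := by
      apply C.tau2
      have e : a + h + N = a + N + h := by ring
      rw [e]; exact p4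
    have q1 := C.tau1 p1
    have hhz : (1 : ℤ) ≤ h := by exact_mod_cast hh
    have e2 : a + (h : ℤ) + h = a + 2 * h := by ring
    rw [e2] at p2
    -- the value of F at a + h + 1
    set y := F (a + h + 1) with hy
    have hy1 : d + h ≤ y := p3.2
    have hy2 : y ≤ a + N := by
      have := C.mono (a + h + 1) (b + h) (by omega)
      exact this.trans q1.1
    have hq : OnP F (y - h) (a + N + h) := by
      have : OnP F (a + h) (y - h) := ⟨by have := q4.1; omega, by omega⟩
      have := C.tau1 this
      have e : a + (h : ℤ) + N = a + N + h := by ring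
      rwa [e] at this
    by_cases hB1 : a + 2 * h + 1 ≤ F (b + 1)
    · -- strict chain
      exfalso
      have m1 := C.mono (b + 1) (a + h) (by omega)
      have f4 := q4.1
      have hch : Ch N F h a b (a + h + 1) (y - h) := by
        refine ⟨p1, ⟨?_, ?_⟩, ?_, hq⟩
        · have := p2.1; omega
        · omega
        · have e : y - h + h = y := by ring
          rw [e]
          exact ⟨le_refl _, C.mono _ _ (by omega)⟩
      have := C.chain_le h hch (by omega) (by omega) (by omega) (by omega)
      rw [min_eq_right (show b - a ≤ (h : ℤ) by omega),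
        min_eq_right (show a + h + 1 - b ≤ (h : ℤ) by omega),
        min_eq_left (show (h : ℤ) ≤ y - h - (a + h + 1) by omega),
        min_eq_left (show (h : ℤ) ≤ a + N - (y - h) by omega)] at this
      omega
    · have hF : F (b + 1) = a + 2 * h := by have := p2.2; omega
      by_cases hB2 : b + h + 1 ≤ F (a + 1)
      · -- neutral move
        have hch : Ch N F h a (b + 1) (a + h) d := by
          refine ⟨⟨?_, ?_⟩, ⟨?_, ?_⟩, p3, p4⟩
          · have := p1.1; omega
          · omega
          · omega
          · have := C.mono (b + 1) (b + 1 + 1) (by omega)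
            omega
        by_cases hlast : b + 1 = a + h
        · -- type A
          rw [hlast] at hch
          have hr := C.rot hch
          exact C.typeA h hh hr (by omega) (by omega) (by omega)
        · exact ih a (b + 1) d (by push_cast at h1; omega) (by omega) (by omega) hch h4 h5
      · -- chain for h - 1
        exfalso
        have h2' : 2 ≤ h := by omega
        have hc : ((h - 1 : ℕ) : ℤ) = (h : ℤ) - 1 := by
          push_cast [Nat.cast_sub hh]; ring
        apply hmin (h - 1) (by omega) (by omega)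
        refine ⟨a + 1, b + 1, a + h + 1, y - h + 1, ?_⟩
        rw [hc]
        have f1 := p1.2
        refine ⟨⟨by omega, ?_⟩, ⟨by omega, ?_⟩, ⟨by omega, ?_⟩, ⟨?_, ?_⟩⟩
        · have := C.mono (a + 1) (a + 1 + 1) (by omega); omega
        · have := C.mono (b + 1) (b + 1 + 1) (by omega); omega
        · have := C.mono (a + h + 1) (a + h + 1 + 1) (by omega); omega
        · have h6 : OnP F (a + h) y := ⟨by have := q4.1; omega, le_refl _⟩
          have h7 := (C.tau1 h6).1
          have h8 := C.mono (y - h + 1) y (by omega)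
          omega
        · have h6 := hq.2
          have h8 := C.mono (y - h + 1) (y - h + 1 + 1) (by omega)
          omega

theorem classify (C : Core N F G) (h : ℕ) (hh : 1 ≤ h)
    (hmin : ∀ h' : ℕ, 1 ≤ h' → h' < h → ¬ ∃ a b c d, Ch N F h' a b c d)
    {a b c d : ℤ} (H : Ch N F h a b c d)
    (h1 : a ≤ b) (h2 : b ≤ c) (h3 : c ≤ d) (h4 : d ≤ a + N)
    (h5 : b - a < h) (h6 : h ≤ d - c) (h7 : h ≤ a + N - d)
    (h8 : (b - a) + min (h : ℤ) (c - b) ≤ h) : N = 3 * h := by
  have hhz : (1 : ℤ) ≤ h := by exact_mod_cast hh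
  have f1 := C.far hhz H
  rcases le_total (h : ℤ) (c - b) with h9 | h9
  · rw [min_eq_left h9] at h8
    have hab : b = a := by omega
    subst hab
    exact C.typeA h hh H (by omega) (by omega) (by omega)
  · rw [min_eq_right h9] at h8
    have hc : c = a + h := by omega
    subst hc
    rcases eq_or_lt_of_le h1 with h10 | h10
    · subst h10
      exact C.typeA h hh H (by omega) (by omega) (by omega)
    · exact C.typeB h hh hmin (a + h - b).toNat a b d (by omega) h10 (by omega) H (by omega) (by omega)

/-- The core theorem. -/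
theorem three_dvd (C : Core N F G) : 3 ∣ N := by
  classical
  obtain ⟨h0, h01, h02⟩ := C.exists_chain
  have hex : ∃ h : ℕ, 1 ≤ h ∧ ∃ a b c d, Ch N F h a b c d := ⟨h0, h01, h02⟩
  obtain ⟨hh, a0, b0, c0, d0, H0⟩ := Nat.find_spec hex
  have hmin' := fun m => @Nat.find_min _ _ hex m
  set h := Nat.find hex with hdef
  have hmin : ∀ h' : ℕ, 1 ≤ h' → h' < h → ¬ ∃ a b c d, Ch N F h' a b c d := by
    intro h' h1' h2' h3'
    exact hmin' h' h2' ⟨h1', h3'⟩
  have hhz : (1 : ℤ) ≤ h := by exact_mod_cast hh
  obtain ⟨a, b, c, d, H, h1, h2, h3, h4⟩ := C.exists_sorted hhz H0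
  have hle := C.chain_le h H h1 h2 h3 h4
  have H1 := C.rot H
  have H2 := C.rot H1
  have H3 := C.rot H2
  have f1 := C.far hhz H
  have f2 := C.far hhz H1
  have f3 := C.far hhz H2
  have f4 := C.far hhz H3
  have g1 := C.opp H
  have g2 := C.opp H1
  have g3 := C.opp H2
  have g4 := C.opp H3
  suffices hN : N = 3 * h by exact ⟨h, hN⟩
  by_cases c1 : b - a < h
  · by_cases c2 : c - b < h
    · -- J1, J2 < h
      apply C.classify h hh hmin H h1 h2 h3 h4 c1 (by omega) (by omega)
      rw [min_eq_right c1.le, min_eq_left (show (h : ℤ) ≤ d - c by omega),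
        min_eq_left (show (h : ℤ) ≤ a + N - d by omega)] at hle
      omega
    · by_cases c4 : a + N - d < h
      · -- J4, J1 < h : rotate three times
        apply C.classify h hh hmin H3 (by omega) (by omega) (by omega) (by omega) (by omega)
          (by omega) (by omega)
        rw [min_eq_right c1.le, min_eq_left (show (h : ℤ) ≤ d - c by omega),
          min_eq_right c4.le, min_eq_left (show (h : ℤ) ≤ c - b by omega)] at hle
        rw [min_eq_right (by omega)]
        omega
      · apply C.classify h hh hmin H h1 h2 h3 h4 c1 (by omega) (by omega)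
        rw [min_eq_right c1.le, min_eq_left (show (h : ℤ) ≤ d - c by omega),
          min_eq_left (show (h : ℤ) ≤ a + N - d by omega)] at hle
        omega
  · by_cases c2 : c - b < h
    · by_cases c3 : d - c < h
      · apply C.classify h hh hmin H1 (by omega) (by omega) (by omega) (by omega) c2
          (by omega) (by omega)
        rw [min_eq_left (show (h : ℤ) ≤ b - a by omega), min_eq_right c2.le,
          min_eq_left (show (h : ℤ) ≤ a + N - d by omega)] at hle
        omega
      · apply C.classify h hh hmin H1 (by omega) (by omega) (by omega) (by omega) c2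
          (by omega) (by omega)
        rw [min_eq_left (show (h : ℤ) ≤ b - a by omega), min_eq_right c2.le,
          min_eq_left (show (h : ℤ) ≤ a + N - d by omega)] at hle
        omega
    · by_cases c3 : d - c < h
      · apply C.classify h hh hmin H2 (by omega) (by omega) (by omega) (by omega) c3
          (by omega) (by omega)
        rw [min_eq_left (show (h : ℤ) ≤ b - a by omega), min_eq_right c3.le,
          min_eq_left (show (h : ℤ) ≤ c - b by omega)] at hle
        omega
      · by_cases c4 : a + N - d < h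
        · apply C.classify h hh hmin H3 (by omega) (by omega) (by omega) (by omega) (by omega)
            (by omega) (by omega)
          rw [min_eq_left (show (h : ℤ) ≤ b - a by omega), min_eq_right c4.le,
            min_eq_left (show (h : ℤ) ≤ c - b by omega),
            min_eq_left (show (h : ℤ) ≤ d - c by omega)] at hle
          rw [min_eq_left (by omega)]
          omega
        · exfalso
          rw [min_eq_left (show (h : ℤ) ≤ b - a by omega),
            min_eq_left (show (h : ℤ) ≤ c - b by omega),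
            min_eq_left (show (h : ℤ) ≤ d - c by omega),
            min_eq_left (show (h : ℤ) ≤ a + N - d by omega)] at hle
          omega

end Core

end Pool.Agent.MP2596c2
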