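import Mathlib
import Pool.Agent.Lib.MP_2596c2_co.Trans

/-!
The feasible set of the hypercube is gap-free.
-/

namespace Pool.Agent.MP2596c2

variable {n : ℕ}

/-- Flip one coordinate. -/
def flip (x : Fin n → Bool) (i : Fin n) : Fin n → Bool := Function.update x i (!x i)

theorem flip_same (x : Fin n → Bool) (i : Fin n) : flip x i i = !x i := by simp [flip]

theorem flip_ne (x : Fin n → Bool) {i j : Fin n} (h : j ≠ i) : flip x i j = x j := by
  simp [flip, h]

theorem flip_flip (x : Fin n → Bool) (i : Fin n) : flip (flip x i) i = x := by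
  funext j
  by_cases h : j = i
  · subst h; rw [flip_same, flip_same, Bool.not_not]
  · rw [flip_ne _ h, flip_ne _ h]

theorem flip_comm (x : Fin n → Bool) (i j : Fin n) : flip (flip x i) j = flip (flip x j) i := by
  by_cases hij : i = j
  · rw [hij]
  funext k
  by_cases h : k = i
  · subst h
    rw [flip_ne _ hij, flip_same, flip_same, flip_ne _ hij]
  · by_cases h' : k = j
    · subst h'
      rw [flip_same, flip_ne _ h, flip_ne _ h, flip_same]
    · rw [flip_ne _ h', flip_ne _ h, flip_ne _ h, flip_ne _ h']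

theorem flip_injective (x : Fin n → Bool) : Function.Injective (flip x) := by
  intro i j h
  by_contra hij
  have h1 := congrFun h i
  rw [flip_same, flip_ne _ hij] at h1
  cases hx : x i <;> simp [hx] at h1

theorem adj_iff (x y : Fin n → Bool) : (hypercube n).Adj x y ↔ ∃ i, y = flip x i := by
  constructor
  · intro h
    change {i | x i ≠ y i}.ncard = 1 at h
    rw [Set.ncard_eq_one] at h
    obtain ⟨i, hi⟩ := h
    refine ⟨i, ?_⟩
    funext j
    by_cases hj : j = i
    · subst hj
      have : j ∈ {i | x i ≠ y i} := by rw [hi]; rfl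
      change x j ≠ y j at this
      rw [flip_same]
      cases hx : x j <;> cases hy : y j <;> simp_all
    · have : j ∉ {i | x i ≠ y i} := by rw [hi]; exact hj
      change ¬ (x j ≠ y j) at this
      rw [flip_ne _ hj]
      exact (not_ne_iff.1 this).symm
  · rintro ⟨i, rfl⟩
    change {j | x j ≠ flip x i j}.ncard = 1
    rw [Set.ncard_eq_one]
    refine ⟨i, ?_⟩
    ext j
    constructor
    · intro h
      by_contra hj
      exact h (flip_ne x hj).symm
    · rintro rfl
      change x j ≠ flip x j j
      rw [flip_same]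
      cases x j <;> simp

theorem neighborSet_eq (x : Fin n → Bool) : (hypercube n).neighborSet x = Set.range (flip x) := by
  ext y
  rw [SimpleGraph.mem_neighborSet, adj_iff]
  constructor
  · rintro ⟨i, rfl⟩; exact ⟨i, rfl⟩
  · rintro ⟨i, rfl⟩; exact ⟨i, rfl⟩

theorem ncard_neighborSet (x : Fin n → Bool) : ((hypercube n).neighborSet x).ncard = n := by
  rw [neighborSet_eq, ← Set.image_univ, Set.ncard_image_of_injective _ (flip_injective x),
    Set.ncard_univ, Nat.card_eq_fintype_card, Fintype.card_fin]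

/-- Interval cyclic colourings of the cube: `A x i` is the colour of the edge in direction `i` at
`x`. -/
structure GoodQ (n t : ℕ) (s : (Fin n → Bool) → ℤ) (A : (Fin n → Bool) → Fin n → ℤ) : Prop where
  symm : ∀ x i, A (flip x i) i = A x i
  inj : ∀ x i j, (t : ℤ) ∣ A x i - A x j → i = j
  arc : ∀ x i, ∃ k : ℕ, k < n ∧ (t : ℤ) ∣ A x i - (s x + k)
  surj : ∀ k : ℤ, ∃ x i, (t : ℤ) ∣ A x i - k

theorem goodQ_of_good {t : ℕ} {s α} (h : Good (hypercube n) t s α) :
    GoodQ n t s (fun x i => α x (flip x i)) where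
  symm x i := by
    have h1 : (hypercube n).Adj x (flip x i) := (adj_iff _ _).2 ⟨i, rfl⟩
    change α (flip x i) (flip (flip x i) i) = α x (flip x i)
    rw [flip_flip, h.symm _ _ h1]
  inj x i j hd := by
    have h1 : (hypercube n).Adj x (flip x i) := (adj_iff _ _).2 ⟨i, rfl⟩
    have h2 : (hypercube n).Adj x (flip x j) := (adj_iff _ _).2 ⟨j, rfl⟩
    exact flip_injective x (h.inj x _ _ h1 h2 hd)
  arc x i := by
    have h1 : (hypercube n).Adj x (flip x i) := (adj_iff _ _).2 ⟨i, rfl⟩
    have := h.arc x _ h1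
    rwa [ncard_neighborSet] at this
  surj k := by
    obtain ⟨u, v, huv, hd⟩ := h.surj k
    obtain ⟨i, rfl⟩ := (adj_iff _ _).1 huv
    exact ⟨u, i, hd⟩

theorem good_of_goodQ {t : ℕ} {s A} (h : GoodQ n t s A) :
    Good (hypercube n) t s (fun x y => ∑ i, if x i ≠ y i then A x i else 0) := by
  have key : ∀ x i, (∑ j, if x j ≠ flip x i j then A x j else 0) = A x i := by
    intro x i
    rw [Finset.sum_eq_single i]
    · rw [if_pos]
      rw [flip_same]
      cases x i <;> simp
    · intro j _ hj
      rw [if_neg]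
      rw [flip_ne _ hj]
      simp
    · simp
  refine ⟨?_, ?_, ?_, ?_⟩
  · intro u v huv
    obtain ⟨i, rfl⟩ := (adj_iff _ _).1 huv
    change (∑ j, if u j ≠ flip u i j then A u j else 0) = ∑ j, if flip u i j ≠ u j then A (flip u i) j else 0
    have h1 := key (flip u i) i
    rw [flip_flip] at h1
    rw [key, h1, h.symm]
  · intro u v w huv huw hd
    obtain ⟨i, rfl⟩ := (adj_iff _ _).1 huv
    obtain ⟨j, rfl⟩ := (adj_iff _ _).1 huw
    rw [key, key] at hd
    rw [h.inj u i j hd]
  · intro u v huv
    obtain ⟨i, rfl⟩ := (adj_iff _ _).1 huv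
    obtain ⟨k, hk, hd⟩ := h.arc u i
    refine ⟨k, ?_, ?_⟩
    · rw [ncard_neighborSet]; exact hk
    · rw [key]; exact hd
  · intro k
    obtain ⟨x, i, hd⟩ := h.surj k
    refine ⟨x, flip x i, (adj_iff _ _).2 ⟨i, rfl⟩, ?_⟩
    rw [key]; exact hd

theorem mem_iff_goodQ {t : ℕ} : t ∈ feasibleSet (hypercube n) ↔ 1 ≤ t ∧ ∃ s A, GoodQ n t s A := by
  rw [mem_iff_good]
  constructor
  · rintro ⟨ht, s, α, h⟩
    exact ⟨ht, _, _, goodQ_of_good h⟩
  · rintro ⟨ht, s, A, h⟩
    exact ⟨ht, _, _, good_of_goodQ h⟩

/-- Interval colourings of the cube with integer colours. -/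
structure IntQ (n : ℕ) (σ : (Fin n → Bool) → ℤ) (C : (Fin n → Bool) → Fin n → ℤ) : Prop where
  symm : ∀ x i, C (flip x i) i = C x i
  inj : ∀ x i j, C x i = C x j → i = j
  lo : ∀ x i, σ x ≤ C x i
  hi : ∀ x i, C x i < σ x + n

theorem IntQ.exists_color {σ C} (h : IntQ n σ C) (x : Fin n → Bool) (k : ℤ) (h1 : σ x ≤ k)
    (h2 : k < σ x + n) : ∃ i, C x i = k := by
  have hcard : (Finset.univ.image (C x)).card = n := by
    rw [Finset.card_image_of_injective _ (fun i j => h.inj x i j)]
    simp
  have hsub : Finset.univ.image (C x) ⊆ Finset.Ico (σ x) (σ x + n) := by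
    intro y hy
    simp only [Finset.mem_image, Finset.mem_univ, true_and] at hy
    obtain ⟨i, rfl⟩ := hy
    rw [Finset.mem_Ico]
    exact ⟨h.lo x i, h.hi x i⟩
  have heq := Finset.eq_of_subset_of_card_le hsub (by rw [hcard]; simp)
  have : k ∈ Finset.univ.image (C x) := by
    rw [heq, Finset.mem_Ico]
    exact ⟨h1, h2⟩
  simpa using this

/-- The colours used are exactly those in `[lo, hi]`. -/
def Image (C : (Fin n → Bool) → Fin n → ℤ) (lo hi : ℤ) : Prop :=
  ∀ k, (∃ x i, C x i = k) ↔ lo ≤ k ∧ k ≤ hi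

theorem recolor {σ C} (h : IntQ n σ C) {lo hi : ℤ} (him : Image C lo hi)
    (hn : lo + n ≤ hi) : ∃ σ' C', IntQ n σ' C' ∧ Image C' lo (hi - 1) := by
  have htop : ∀ x i, C x i = hi → σ x + n - 1 = hi := by
    intro x i hxi
    have h1 := h.lo x i
    have h2 := h.hi x i
    obtain ⟨j, hj⟩ := h.exists_color x (σ x + n - 1) (by omega) (by omega)
    have := (him (σ x + n - 1)).1 ⟨x, j, hj⟩
    omega
  refine ⟨fun x => if σ x + n - 1 = hi then σ x - 1 else σ x,
    fun x i => if C x i = hi then hi - n else C x i, ⟨?_, ?_, ?_, ?_⟩, ?_⟩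
  · intro x i
    simp only [h.symm]
  · intro x i j hij
    by_cases h1 : C x i = hi
    · by_cases h2 : C x j = hi
      · exact h.inj x i j (h1.trans h2.symm)
      · rw [if_pos h1, if_neg h2] at hij
        have := htop x i h1
        have := h.lo x j
        omega
    · by_cases h2 : C x j = hi
      · rw [if_neg h1, if_pos h2] at hij
        have := htop x j h2
        have := h.lo x i
        omega
      · rw [if_neg h1, if_neg h2] at hij
        exact h.inj x i j hij
  · intro x i
    have h1 := h.lo x i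
    have h3 := htop x i
    split_ifs <;> omega
  · intro x i
    have h1 := h.hi x i
    have h2 := h.lo x i
    have h3 := htop x i
    have h4 := (him (C x i)).1 ⟨x, i, rfl⟩
    split_ifs <;> omega
  · intro k
    constructor
    · rintro ⟨x, i, hxi⟩
      have h4 := (him (C x i)).1 ⟨x, i, rfl⟩
      have h5 := i.pos
      simp only at hxi
      split_ifs at hxi <;> omega
    · rintro ⟨h1, h2⟩
      obtain ⟨x, i, hxi⟩ := (him k).2 ⟨h1, by omega⟩
      refine ⟨x, i, ?_⟩
      simp only
      rw [if_neg (by omega)]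
      exact hxi

theorem shrink (t : ℕ) (hnt : n ≤ t) : ∀ (m : ℕ) (σ) (C) (lo hi : ℤ), IntQ n σ C → Image C lo hi →
    lo + t + m = hi + 1 → ∃ σ' C', IntQ n σ' C' ∧ Image C' lo (lo + t - 1) := by
  intro m
  induction m with
  | zero =>
    intro σ C lo hi h him hm
    refine ⟨σ, C, h, ?_⟩
    have : lo + t - 1 = hi := by omega
    rw [this]
    exact him
  | succ m ih =>
    intro σ C lo hi h him hm
    obtain ⟨σ', C', h', him'⟩ := recolor h him (by omega)
    exact ih σ' C' lo (hi - 1) h' him' (by push_cast at hm ⊢; omega)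

theorem goodQ_of_intQ {t : ℕ} (hnt : n ≤ t) (ht : 1 ≤ t) {σ C} (h : IntQ n σ C) {lo : ℤ}
    (him : Image C lo (lo + t - 1)) : GoodQ n t σ C where
  symm := h.symm
  inj x i j hd := by
    apply h.inj x i j
    have h1 := h.lo x i
    have h2 := h.hi x i
    have h3 := h.lo x j
    have h4 := h.hi x j
    obtain ⟨k, hk⟩ := hd
    have hk0 : k = 0 := by
      have h5 : k < 1 := by
        by_contra h6
        nlinarith
      have h6 : -1 < k := by
        by_contra h6
        nlinarith
      omega
    rw [hk0] at hk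
    omega
  arc x i := by
    have h1 := h.lo x i
    have h2 := h.hi x i
    refine ⟨(C x i - σ x).toNat, by omega, ?_⟩
    rw [Int.toNat_of_nonneg (by omega)]
    simp
  surj k := by
    have h1 := Int.emod_nonneg (k - lo) (show (t : ℤ) ≠ 0 by omega)
    have h2 := Int.emod_lt_of_pos (k - lo) (show (0 : ℤ) < t by omega)
    obtain ⟨x, i, hxi⟩ := (him (lo + (k - lo) % t)).2 ⟨by omega, by omega⟩
    refine ⟨x, i, ?_⟩
    rw [hxi]
    have h3 := Int.emod_add_mul_ediv (k - lo) t
    exact ⟨-((k - lo) / t), by linarith⟩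

theorem mem_of_intQ {t : ℕ} (hnt : n ≤ t) (ht : 1 ≤ t) {σ C} (h : IntQ n σ C) {lo hi : ℤ}
    (him : Image C lo hi) (hle : lo + t ≤ hi + 1) : t ∈ feasibleSet (hypercube n) := by
  obtain ⟨σ', C', h', him'⟩ := shrink t hnt (hi + 1 - lo - t).toNat σ C lo hi h him (by omega)
  exact mem_iff_goodQ.2 ⟨ht, _, _, goodQ_of_intQ hnt ht h' him'⟩

/-- A property of vertices preserved by flips is constant. -/
theorem const_of_flip (P : (Fin n → Bool) → Prop) (h : ∀ x i, P x → P (flip x i)) (x y) (hx : P x) :
    P y := by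
  classical
  have key : ∀ S : Finset (Fin n), P (fun i => if i ∈ S then y i else x i) := by
    intro S
    induction S using Finset.induction with
    | empty => simpa using hx
    | insert a S ha ih =>
      by_cases hxy : x a = y a
      · convert ih using 1
        funext i
        by_cases hi : i = a
        · subst hi; simp [ha, hxy]
        · simp [hi]
      · convert h _ a ih using 1
        funext i
        by_cases hi : i = a
        · subst hi
          rw [flip_same]
          simp only [Finset.mem_insert_self, if_true, ha, if_false]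
          cases hx : x i <;> cases hy : y i <;> simp_all
        · rw [flip_ne _ hi]
          simp [hi]
  simpa using key Finset.univ

/-- The set of colours of an interval colouring of the cube is an interval. -/
theorem IntQ.convex {σ C} (h : IntQ n σ C) {x i y j} (k : ℤ) (h1 : C x i ≤ k) (h2 : k ≤ C y j) :
    ∃ z l, C z l = k := by
  by_contra hcon
  push Not at hcon
  have hout : ∀ z, k < σ z ∨ σ z + n ≤ k := by
    intro z
    by_contra hz
    push Not at hz
    obtain ⟨l, hl⟩ := h.exists_color z k hz.1 hz.2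
    exact hcon z l hl
  have hx : σ x + n ≤ k := by
    rcases hout x with h3 | h3
    · have := h.lo x i; omega
    · exact h3
  have hy := const_of_flip (fun z => σ z + n ≤ k) (by
    intro z l hz
    rcases hout (flip z l) with h3 | h3
    · have h4 := h.hi z l
      have h5 := h.lo (flip z l) l
      rw [h.symm] at h5
      omega
    · exact h3) x y hx
  have := h.hi y j
  omega

/-- Keep only the coordinates below `m`. -/
def trunc (x : Fin n → Bool) (m : ℕ) : Fin n → Bool := fun j => if j.val < m then x j else false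

theorem trunc_succ_true (x : Fin n → Bool) (m : ℕ) (h : m < n) (hx : x ⟨m, h⟩ = true) :
    trunc x (m + 1) = flip (trunc x m) ⟨m, h⟩ := by
  funext j
  by_cases hj : j = ⟨m, h⟩
  · subst hj
    rw [flip_same]
    simp [trunc, hx]
  · rw [flip_ne _ hj]
    have : j.val ≠ m := fun h' => hj (Fin.ext h')
    simp only [trunc]
    by_cases h1 : j.val < m
    · rw [if_pos h1, if_pos (by omega)]
    · rw [if_neg h1, if_neg (by omega)]

theorem trunc_succ_false (x : Fin n → Bool) (m : ℕ) (h : ∀ h : m < n, x ⟨m, h⟩ = false) :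
    trunc x (m + 1) = trunc x m := by
  funext j
  simp only [trunc]
  by_cases hj : j.val = m
  · rw [if_pos (by omega), if_neg (by omega)]
    have := h (by omega)
    have h2 : j = ⟨m, by omega⟩ := Fin.ext hj
    rw [h2]; exact this
  · by_cases h1 : j.val < m
    · rw [if_pos h1, if_pos (by omega)]
    · rw [if_neg h1, if_neg (by omega)]

theorem trunc_flip (x : Fin n → Bool) (m : ℕ) (i : Fin n) (h : i.val < m) :
    trunc (flip x i) m = flip (trunc x m) i := by
  funext j
  by_cases hj : j = i
  · subst hj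
    rw [flip_same]
    simp [trunc, h, flip_same]
  · rw [flip_ne _ hj]
    simp only [trunc]
    rw [flip_ne _ hj]

theorem trunc_flip' (x : Fin n → Bool) (m : ℕ) (i : Fin n) (h : m ≤ i.val) :
    trunc (flip x i) m = trunc x m := by
  funext j
  simp only [trunc]
  by_cases hj : j.val < m
  · rw [if_pos hj, if_pos hj, flip_ne]
    intro h'
    subst h'
    omega
  · rw [if_neg hj, if_neg hj]

theorem trunc_all (x : Fin n → Bool) : trunc x n = x := by
  funext j
  simp [trunc, j.isLt]

/-- Partial sums defining the potential. -/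
def pot (δ : (Fin n → Bool) → Fin n → ℤ) (x : Fin n → Bool) : ℕ → ℤ
  | 0 => 0
  | m + 1 => pot δ x m + if h : m < n then (if x ⟨m, h⟩ = true then δ (trunc x m) ⟨m, h⟩ else 0) else 0

theorem pot_flip (δ : (Fin n → Bool) → Fin n → ℤ)
    (hsq : ∀ x i j, δ x i + δ (flip x i) j = δ x j + δ (flip x j) i)
    (x : Fin n → Bool) (i : Fin n) (hx : x i = false) :
    ∀ m, pot δ (flip x i) m - pot δ x m = if i.val < m then δ (trunc x m) i else 0 := by
  intro m
  induction m with
  | zero => simp [pot]
  | succ m ih =>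
    simp only [pot]
    by_cases hm : m < n
    · rw [dif_pos hm, dif_pos hm]
      rcases lt_trichotomy m i.val with h | h | h
      · rw [if_neg (by omega)] at ih
        rw [if_neg (show ¬ i.val < m + 1 by omega)]
        have h1 : flip x i ⟨m, hm⟩ = x ⟨m, hm⟩ := flip_ne _ (by
          intro h'; rw [← h'] at h; simp at h)
        rw [h1, trunc_flip' x m i (by omega)]
        linarith
      · rw [if_neg (by omega)] at ih
        rw [if_pos (show i.val < m + 1 by omega)]
        have hi : (⟨m, hm⟩ : Fin n) = i := Fin.ext h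
        rw [hi, flip_same, hx, trunc_flip' x m i (by omega)]
        have h2 : trunc x (m + 1) = trunc x m := trunc_succ_false x m (fun h' => by
          have : (⟨m, h'⟩ : Fin n) = i := Fin.ext h
          rw [this]; exact hx)
        rw [h2]
        simp
        linarith
      · rw [if_pos h] at ih
        rw [if_pos (show i.val < m + 1 by omega)]
        have h1 : flip x i ⟨m, hm⟩ = x ⟨m, hm⟩ := flip_ne _ (by
          intro h'; rw [← h'] at h; simp at h)
        rw [h1, trunc_flip x m i h]
        by_cases hxm : x ⟨m, hm⟩ = true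
        · rw [if_pos hxm, if_pos hxm, trunc_succ_true x m hm hxm]
          have := hsq (trunc x m) i ⟨m, hm⟩
          linarith
        · rw [if_neg hxm, if_neg hxm, trunc_succ_false x m (fun h' => by
            simpa using hxm)]
          linarith
    · rw [dif_neg hm, dif_neg hm]
      have h3 := i.isLt
      rw [if_pos (by omega)] at ih
      rw [if_pos (by omega), trunc_succ_false x m (fun h' => absurd h' hm)]
      linarith

theorem exists_potential (δ : (Fin n → Bool) → Fin n → ℤ)
    (hanti : ∀ x i, δ (flip x i) i = - δ x i)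
    (hsq : ∀ x i j, δ x i + δ (flip x i) j = δ x j + δ (flip x j) i) :
    ∃ σ : (Fin n → Bool) → ℤ, ∀ x i, σ (flip x i) = σ x + δ x i := by
  refine ⟨fun x => pot δ x n, ?_⟩
  have key : ∀ x i, x i = false → pot δ (flip x i) n = pot δ x n + δ x i := by
    intro x i hx
    have := pot_flip δ hsq x i hx n
    rw [if_pos i.isLt, trunc_all] at this
    linarith
  intro x i
  cases hx : x i with
  | false => exact key x i hx
  | true =>
    have h1 : flip x i i = false := by rw [flip_same, hx]; rfl
    have h2 := key (flip x i) i h1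
    rw [flip_flip, hanti] at h2
    change pot δ (flip x i) n = pot δ x n + δ x i
    linarith

theorem lift {t : ℕ} {s A} (h : GoodQ n t s A) (ht : 4 * n < t + 4) :
    ∃ σ C, IntQ n σ C ∧ ∀ k : ℤ, ∃ x i, (t : ℤ) ∣ C x i - k := by
  choose a ha1 ha2 using h.arc
  let δ : (Fin n → Bool) → Fin n → ℤ := fun x i => (a x i : ℤ) - a (flip x i) i
  have hδ : ∀ x i, (t : ℤ) ∣ s (flip x i) - (s x + δ x i) := by
    intro x i
    have h1 := ha2 x i
    have h2 := ha2 (flip x i) i
    rw [h.symm] at h2
    have h3 := dvd_sub h1 h2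
    have : s (flip x i) - (s x + δ x i) = (A x i - (s x + a x i)) - (A x i - (s (flip x i) + a (flip x i) i)) := by
      simp only [δ]; ring
    rw [this]; exact h3
  have hanti : ∀ x i, δ (flip x i) i = - δ x i := by
    intro x i
    simp only [δ, flip_flip]
    ring
  have hbd : ∀ x i, δ x i ≤ n - 1 ∧ -(n - 1 : ℤ) ≤ δ x i := by
    intro x i
    have h1 := ha1 x i
    have h2 := ha1 (flip x i) i
    simp only [δ]
    omega
  have hsq : ∀ x i j, δ x i + δ (flip x i) j = δ x j + δ (flip x j) i := by
    intro x i j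
    have h1 := hδ x i
    have h2 := hδ (flip x i) j
    have h3 := hδ x j
    have h4 := hδ (flip x j) i
    rw [flip_comm x j i] at h4
    have h5 := dvd_sub (dvd_add h1 h2) (dvd_add h3 h4)
    have h6 : (s (flip x i) - (s x + δ x i) + (s (flip (flip x i) j) - (s (flip x i) + δ (flip x i) j))) -
      (s (flip x j) - (s x + δ x j) + (s (flip (flip x i) j) - (s (flip x j) + δ (flip x j) i))) =
      (δ x j + δ (flip x j) i) - (δ x i + δ (flip x i) j) := by ring
    rw [h6] at h5
    obtain ⟨k, hk⟩ := h5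
    have b1 := hbd x i
    have b2 := hbd (flip x i) j
    have b3 := hbd x j
    have b4 := hbd (flip x j) i
    have htt : (4 * n : ℤ) < t + 4 := by exact_mod_cast ht
    have hk0 : k = 0 := by
      have h5 : k < 1 := by
        by_contra h6
        nlinarith
      have h6 : -1 < k := by
        by_contra h6
        nlinarith
      omega
    rw [hk0] at hk
    omega
  obtain ⟨σ, hσ⟩ := exists_potential δ hanti hsq
  let x0 : Fin n → Bool := fun _ => false
  have hmod : ∀ x, (t : ℤ) ∣ s x - (σ x + (s x0 - σ x0)) := by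
    intro x
    refine const_of_flip (fun x => (t : ℤ) ∣ s x - (σ x + (s x0 - σ x0))) ?_ x0 x ?_
    · intro x i hx
      have h1 := dvd_add (hδ x i) hx
      rw [hσ]
      have : s (flip x i) - (s x + δ x i) + (s x - (σ x + (s x0 - σ x0))) =
        s (flip x i) - (σ x + δ x i + (s x0 - σ x0)) := by ring
      rw [this] at h1
      exact h1
    · simp
  refine ⟨fun x => σ x + (s x0 - σ x0), fun x i => σ x + (s x0 - σ x0) + a x i, ⟨?_, ?_, ?_, ?_⟩, ?_⟩
  · intro x i
    simp only [hσ, δ]
    ring
  · intro x i j hij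
    apply h.inj x i j
    have h1 := ha2 x i
    have h2 := ha2 x j
    have h3 := dvd_sub h1 h2
    have : A x i - (s x + a x i) - (A x j - (s x + a x j)) = A x i - A x j := by
      have : (a x i : ℤ) = a x j := by linarith
      rw [this]; ring
    rwa [this] at h3
  · intro x i
    omega
  · intro x i
    have := ha1 x i
    omega
  · intro k
    obtain ⟨x, i, hd⟩ := h.surj k
    refine ⟨x, i, ?_⟩
    have h1 := ha2 x i
    have h2 := hmod x
    have h3 := dvd_sub hd (dvd_add h1 h2)
    have : A x i - k - (A x i - (s x + a x i) + (s x - (σ x + (s x0 - σ x0)))) =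
      σ x + (s x0 - σ x0) + a x i - k := by ring
    rw [this] at h3
    exact h3

theorem exists_image {σ C} (h : IntQ n σ C) (x0 : Fin n → Bool) (i0 : Fin n) :
    ∃ lo hi, Image C lo hi := by
  classical
  let T : Finset ℤ := Finset.univ.image (fun p : (Fin n → Bool) × Fin n => C p.1 p.2)
  have hT : ∀ k, k ∈ T ↔ ∃ x i, C x i = k := by
    intro k
    simp only [T, Finset.mem_image, Finset.mem_univ, true_and, Prod.exists]
  have hne : T.Nonempty := ⟨C x0 i0, (hT _).2 ⟨x0, i0, rfl⟩⟩
  refine ⟨T.min' hne, T.max' hne, ?_⟩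
  intro k
  constructor
  · intro hk
    exact ⟨T.min'_le k ((hT k).2 hk), T.le_max' k ((hT k).2 hk)⟩
  · rintro ⟨h1, h2⟩
    obtain ⟨x, i, hx⟩ := (hT _).1 (T.min'_mem hne)
    obtain ⟨y, j, hy⟩ := (hT _).1 (T.max'_mem hne)
    exact h.convex k (by rw [hx]; exact h1) (by rw [hy]; exact h2)

/-- An interval colouring whose colours hit every residue modulo `t` uses at least `t` colours. -/
theorem image_of_surj {t : ℕ} {σ C} (h : IntQ n σ C)
    (hs : ∀ k : ℤ, ∃ x i, (t : ℤ) ∣ C x i - k) : ∃ lo hi, Image C lo hi ∧ lo + t ≤ hi + 1 := by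
  obtain ⟨x0, i0, _⟩ := hs 0
  obtain ⟨lo, hi, him⟩ := exists_image h x0 i0
  refine ⟨lo, hi, him, ?_⟩
  by_contra hcon
  push Not at hcon
  obtain ⟨x, i, hd⟩ := hs (hi + 1)
  have h1 := (him (C x i)).1 ⟨x, i, rfl⟩
  obtain ⟨q, hq⟩ := hd
  have hq1 : q < 0 := by
    by_contra h3
    nlinarith
  have hq2 : -1 < q := by
    by_contra h3
    nlinarith
  omega

/-- Large feasible values can be lowered. -/
theorem mem_of_large {t b : ℕ} (hb1 : 1 ≤ b) (hnb : n ≤ b) (hbt : b ≤ t) (ht : 4 * n < t + 4)
    (h : t ∈ feasibleSet (hypercube n)) : b ∈ feasibleSet (hypercube n) := by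
  obtain ⟨ht1, s, A, hA⟩ := mem_iff_goodQ.1 h
  obtain ⟨σ, C, hC, hs⟩ := lift hA ht
  obtain ⟨lo, hi, him, hle⟩ := image_of_surj hC hs
  exact mem_of_intQ hnb hb1 hC him (by omega)

/-- Every feasible value is at least `n`. -/
theorem le_of_mem {t : ℕ} (h : t ∈ feasibleSet (hypercube n)) : n ≤ t := by
  classical
  obtain ⟨ht1, s, A, hA⟩ := mem_iff_goodQ.1 h
  have : NeZero t := ⟨by omega⟩
  let f : Fin n → ZMod t := fun i => ((A (fun _ => false) i : ℤ) : ZMod t)
  have hf : Function.Injective f := by
    intro i j hij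
    apply hA.inj (fun _ => false) i j
    rw [← ZMod.intCast_zmod_eq_zero_iff_dvd]
    push_cast
    exact sub_eq_zero.2 hij
  have := Fintype.card_le_of_injective f hf
  rwa [Fintype.card_fin, ZMod.card] at this

/-- The explicit interval colouring of the cube with `n(n+1)/2` colours. -/
def exC (x : Fin n → Bool) (i : Fin n) : ℤ :=
  (i.val : ℤ) + ∑ j : Fin n, if j < i then (j.val : ℤ) * (x j).toNat else
    if i < j then ((j.val : ℤ) + 1) * (x j).toNat else 0

/-- Starting points for `exC`. -/
def exσ (x : Fin n → Bool) : ℤ := ∑ j : Fin n, (j.val : ℤ) * (x j).toNat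

/-- Number of ones after position `i`. -/
def exS (x : Fin n → Bool) (i : Fin n) : ℤ := ∑ j : Fin n, if i < j then ((x j).toNat : ℤ) else 0

theorem exC_eq (x : Fin n → Bool) (i : Fin n) :
    exC x i = exσ x + ((i.val : ℤ) - (i.val : ℤ) * (x i).toNat) + exS x i := by
  have h : ∑ j : Fin n, (if j < i then (j.val : ℤ) * (x j).toNat else
      if i < j then ((j.val : ℤ) + 1) * (x j).toNat else 0) =
      ∑ j : Fin n, ((j.val : ℤ) * (x j).toNat + (if i < j then ((x j).toNat : ℤ) else 0) -
        (if j = i then (i.val : ℤ) * (x i).toNat else 0)) := by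
    apply Finset.sum_congr rfl
    intro j _
    rcases lt_trichotomy j i with h | h | h
    · rw [if_pos h, if_neg (not_lt.2 h.le), if_neg h.ne]; ring
    · subst h
      simp
    · rw [if_neg (not_lt.2 h.le), if_pos h, if_pos h, if_neg h.ne']; ring
  rw [exC, h, Finset.sum_sub_distrib, Finset.sum_add_distrib, Finset.sum_ite_eq', exσ, exS]
  simp
  ring

theorem exS_nonneg (x : Fin n → Bool) (i : Fin n) : 0 ≤ exS x i := by
  apply Finset.sum_nonneg
  intro j _
  split_ifs <;> positivity

theorem exS_le (x : Fin n → Bool) (i : Fin n) : exS x i ≤ n - 1 - i.val := by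
  have h1 : exS x i ≤ ∑ j : Fin n, if i < j then (1 : ℤ) else 0 := by
    apply Finset.sum_le_sum
    intro j _
    split_ifs
    · cases x j <;> simp
    · exact le_refl _
  have h2 : (∑ j : Fin n, if i < j then (1 : ℤ) else 0) = n - 1 - i.val := by
    rw [← Finset.sum_filter]
    simp only [Finset.sum_const, nsmul_eq_mul, mul_one]
    have : (Finset.univ.filter (fun j => i < j)) = Finset.Ioi i := by
      ext j; simp
    rw [this, Fin.card_Ioi]
    have := i.isLt
    omega
  rw [h2] at h1
  exact h1

theorem exS_lt (x : Fin n → Bool) {i j : Fin n} (hij : i < j) :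
    exS x j + (x j).toNat ≤ exS x i ∧ exS x i ≤ exS x j + (x j).toNat + (j.val - i.val - 1) := by
  have h1 : exS x i = exS x j + (x j).toNat + ∑ l : Fin n, if i < l ∧ l < j then ((x l).toNat : ℤ) else 0 := by
    have : ((x j).toNat : ℤ) = ∑ l : Fin n, if l = j then ((x l).toNat : ℤ) else 0 := by
      rw [Finset.sum_ite_eq']; simp
    rw [this, exS, exS, ← Finset.sum_add_distrib, ← Finset.sum_add_distrib]
    apply Finset.sum_congr rfl
    intro l _
    rcases lt_trichotomy l j with h | h | h
    · rw [if_neg (not_lt.2 h.le), if_neg h.ne]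
      by_cases h' : i < l
      · rw [if_pos h', if_pos ⟨h', h⟩]; ring
      · rw [if_neg h', if_neg (fun h2 => h' h2.1)]; ring
    · subst h
      simp [hij]
    · rw [if_pos (hij.trans h), if_pos h, if_neg h.ne', if_neg (fun h2 => absurd h2.2 (not_lt.2 h.le))]
      ring
  have h2 : (0 : ℤ) ≤ ∑ l : Fin n, if i < l ∧ l < j then ((x l).toNat : ℤ) else 0 := by
    apply Finset.sum_nonneg
    intro j _
    split_ifs <;> positivity
  have h3 : (∑ l : Fin n, if i < l ∧ l < j then ((x l).toNat : ℤ) else 0) ≤ j.val - i.val - 1 := by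
    calc (∑ l : Fin n, if i < l ∧ l < j then ((x l).toNat : ℤ) else 0)
        ≤ ∑ l : Fin n, if i < l ∧ l < j then (1 : ℤ) else 0 := by
          apply Finset.sum_le_sum
          intro l _
          split_ifs
          · cases x l <;> simp
          · exact le_refl _
      _ = j.val - i.val - 1 := by
          rw [← Finset.sum_filter]
          simp only [Finset.sum_const, nsmul_eq_mul, mul_one]
          have : (Finset.univ.filter (fun l => i < l ∧ l < j)) = Finset.Ioo i j := by
            ext l; simp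
          rw [this, Fin.card_Ioo]
          have h4 : i.val < j.val := hij
          omega
  rw [h1]
  constructor <;> linarith

theorem exC_ne (x : Fin n → Bool) {i j : Fin n} (hij : i < j) : exC x i ≠ exC x j := by
  intro h
  rw [exC_eq, exC_eq] at h
  obtain ⟨h1, h2⟩ := exS_lt x hij
  have h4 : i.val < j.val := hij
  cases hi : x i <;> cases hj : x j <;> simp [hi, hj] at h h1 h2 <;> omega

theorem exIntQ : IntQ n exσ exC where
  symm x i := by
    simp only [exC]
    congr 1
    apply Finset.sum_congr rfl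
    intro j _
    by_cases hj : j = i
    · subst hj; simp
    · rw [flip_ne _ hj]
  inj x i j h := by
    rcases lt_trichotomy i j with h1 | h1 | h1
    · exact absurd h (exC_ne x h1)
    · exact h1
    · exact absurd h.symm (exC_ne x h1)
  lo x i := by
    rw [exC_eq]
    have := exS_nonneg x i
    cases x i <;> simp <;> omega
  hi x i := by
    rw [exC_eq]
    have := exS_le x i
    have := i.isLt
    cases x i <;> simp <;> omega

theorem mem_of_small {b : ℕ} (hb1 : 1 ≤ b) (hnb : n ≤ b) (hb : 2 * b ≤ n * (n + 1)) :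
    b ∈ feasibleSet (hypercube n) := by
  have hn : 0 < n := by
    rcases Nat.eq_zero_or_pos n with h | h
    · subst h; omega
    · exact h
  obtain ⟨lo, hi, him⟩ := exists_image (exIntQ (n := n)) (fun _ => false) ⟨0, hn⟩
  apply mem_of_intQ hnb hb1 exIntQ him
  obtain ⟨i, hi1⟩ := exIntQ.exists_color (fun _ : Fin n => false) 0 (by simp [exσ]) (by
    simp [exσ]; omega)
  obtain ⟨j, hj1⟩ := exIntQ.exists_color (fun _ : Fin n => true) (exσ (fun _ : Fin n => true) + n - 1)
    (by omega) (by omega)
  have h1 := ((him 0).1 ⟨_, i, hi1⟩).1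
  have h2 := ((him _).1 ⟨_, j, hj1⟩).2
  have h3 : 2 * exσ (fun _ : Fin n => true) = n * (n - 1) := by
    have h4 : exσ (fun _ : Fin n => true) = ((∑ j ∈ Finset.range n, j : ℕ) : ℤ) := by
      simp only [exσ, Bool.toNat_true, Nat.cast_one, mul_one]
      rw [Fin.sum_univ_eq_sum_range (fun j => (j : ℤ)) n]
      push_cast
      rfl
    rw [h4]
    have h5 := Finset.sum_range_id_mul_two n
    have h6 : ((∑ j ∈ Finset.range n, j : ℕ) : ℤ) * 2 = n * (n - 1) := by
      have : ((n - 1 : ℕ) : ℤ) = n - 1 := by omega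
      rw [← this]
      exact_mod_cast h5
    linarith
  have h7 : (2 * b : ℤ) ≤ n * (n + 1) := by exact_mod_cast hb
  nlinarith

/-- Table of colours for `Q_3` with 7 colours. -/
def tab3 : List (List ℕ) :=
  [[2, 1, 0], [2, 3, 4], [2, 1, 0], [2, 3, 4], [5, 6, 0], [5, 3, 4], [5, 6, 0], [5, 3, 4]]

/-- Starts for `Q_3` with 7 colours. -/
def st3 : List ℕ := [0, 2, 0, 2, 5, 3, 5, 3]

/-- Binary code of a vertex of `Q_3`. -/
def enc3 (x : Fin 3 → Bool) : ℕ := (x 0).toNat + 2 * (x 1).toNat + 4 * (x 2).toNat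

/-- Table of colours for `Q_4` with 11 colours. -/
def tab4 : List (List ℕ) :=
  [[1, 0, 3, 2], [1, 0, 3, 2], [8, 0, 9, 10], [8, 0, 9, 10], [4, 6, 3, 5], [4, 6, 3, 5],
   [7, 6, 9, 8], [7, 6, 9, 8], [3, 1, 4, 2], [3, 1, 4, 2], [0, 1, 9, 10], [0, 1, 9, 10],
   [6, 7, 4, 5], [6, 7, 4, 5], [10, 7, 9, 8], [10, 7, 9, 8]]

/-- Starts for `Q_4` with 11 colours. -/
def st4 : List ℕ := [0, 0, 8, 8, 3, 3, 6, 6, 1, 1, 9, 9, 4, 4, 7, 7]

/-- Binary code of a vertex of `Q_4`. -/
def enc4 (x : Fin 4 → Bool) : ℕ :=
  (x 0).toNat + 2 * (x 1).toNat + 4 * (x 2).toNat + 8 * (x 3).toNat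

theorem mem_three : 7 ∈ feasibleSet (hypercube 3) := by
  rw [mem_iff_goodQ]
  refine ⟨by norm_num, fun x => (st3.getD (enc3 x) 0 : ℤ),
    fun x i => ((tab3.getD (enc3 x) []).getD i.val 0 : ℤ), ⟨?_, ?_, ?_, ?_⟩⟩
  · decide +kernel
  · decide +kernel
  · intro x i
    have h : ∀ (x : Fin 3 → Bool) (i : Fin 3), ∃ k : Fin 3,
      ((7 : ℕ) : ℤ) ∣ ((tab3.getD (enc3 x) []).getD i.val 0 : ℤ) - ((st3.getD (enc3 x) 0 : ℤ) + (k.val : ℕ)) := by
      decide +kernel
    obtain ⟨k, hk⟩ := h x i
    exact ⟨k.val, k.isLt, hk⟩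
  · intro k
    have h : ∀ r : Fin 7, ∃ (x : Fin 3 → Bool) (i : Fin 3),
      (tab3.getD (enc3 x) []).getD i.val 0 = r.val := by
      decide +kernel
    obtain ⟨x, i, hx⟩ := h ⟨(k % 7).toNat, by omega⟩
    refine ⟨x, i, ?_⟩
    rw [hx]
    push_cast
    omega

theorem mem_four : 11 ∈ feasibleSet (hypercube 4) := by
  rw [mem_iff_goodQ]
  refine ⟨by norm_num, fun x => (st4.getD (enc4 x) 0 : ℤ),
    fun x i => ((tab4.getD (enc4 x) []).getD i.val 0 : ℤ), ⟨?_, ?_, ?_, ?_⟩⟩
  · decide +kernel
  · decide +kernel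
  · intro x i
    have h : ∀ (x : Fin 4 → Bool) (i : Fin 4), ∃ k : Fin 4,
      ((11 : ℕ) : ℤ) ∣ ((tab4.getD (enc4 x) []).getD i.val 0 : ℤ) - ((st4.getD (enc4 x) 0 : ℤ) + (k.val : ℕ)) := by
      decide +kernel
    obtain ⟨k, hk⟩ := h x i
    exact ⟨k.val, k.isLt, hk⟩
  · intro k
    have h : ∀ r : Fin 11, ∃ (x : Fin 4 → Bool) (i : Fin 4),
      (tab4.getD (enc4 x) []).getD i.val 0 = r.val := by
      decide +kernel
    obtain ⟨x, i, hx⟩ := h ⟨(k % 11).toNat, by omega⟩
    refine ⟨x, i, ?_⟩
    rw [hx]
    push_cast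
    omega

/-- The feasible set of every hypercube is gap-free. -/
theorem gapFree_hypercube (n : ℕ) : GapFree (feasibleSet (hypercube n)) := by
  intro a b c hab hbc ha hc
  have ha1 := ha.1
  have hna := le_of_mem ha
  by_cases h1 : 2 * b ≤ n * (n + 1)
  · exact mem_of_small (by omega) (by omega) h1
  · by_cases h2 : 4 * n < c + 4
    · exact mem_of_large (by omega) (by omega) hbc.le h2 hc
    · push Not at h1 h2
      have h3 : n = 3 ∨ n = 4 := by
        have h4 : n * n + 11 ≤ 7 * n := by nlinarith
        have h5 : n < 5 := by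
          by_contra h6
          push Not at h6
          nlinarith
        interval_cases n <;> omega
      rcases h3 with rfl | rfl
      · have : b = 7 := by omega
        rw [this]; exact mem_three
      · have : b = 11 := by omega
        rw [this]; exact mem_four

end Pool.Agent.MP2596c2
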