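import Mathlib
import Pool.Agent.Lib.MP_2596c2_co.Defs
import Pool.Agent.Lib.MP_2596c2_co.Trans

/-!
An explicit interval cyclic `11`-colouring of `K_8`.
-/

namespace Pool.Agent.MP2596c2

/-- The colours. -/
def k8 : Fin 8 → Fin 8 → ℕ :=
  ![![0, 0, 3, 1, 2, 4, 6, 5],
    ![0, 0, 4, 2, 1, 6, 5, 3],
    ![3, 4, 0, 0, 10, 5, 2, 1],
    ![1, 2, 0, 0, 9, 8, 3, 10],
    ![2, 1, 10, 9, 0, 3, 8, 0],
    ![4, 6, 5, 8, 3, 0, 7, 2],
    ![6, 5, 2, 3, 8, 7, 0, 4],
    ![5, 3, 1, 10, 0, 2, 4, 0]]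

/-- The starts of the arcs. -/
def k8s : Fin 8 → ℕ := ![0, 0, 10, 8, 8, 2, 2, 10]

theorem mem_eleven : 11 ∈ feasibleSet (⊤ : SimpleGraph (Fin 8)) := by
  refine mem_of_good (by omega) (s := fun u => (k8s u : ℤ)) (α := fun u v => (k8 u v : ℤ))
    ⟨?_, ?_, ?_, ?_⟩
  · intro u v _
    have : ∀ u v, k8 u v = k8 v u := by decide +kernel
    change (k8 u v : ℤ) = (k8 v u : ℤ)
    rw [this]
  · intro u v w huv huw hd
    change u ≠ v at huv
    change u ≠ w at huw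
    have h1 : ∀ u v w, u ≠ v → u ≠ w → k8 u v = k8 u w → v = w := by decide +kernel
    have h2 : ∀ u v, k8 u v < 11 := by decide +kernel
    apply h1 u v w huv huw
    have h3 := h2 u v
    have h4 := h2 u w
    omega
  · intro u v huv
    change u ≠ v at huv
    have h1 : ∀ u v, u ≠ v → ∃ i < 7, k8 u v = k8s u + i ∨ k8 u v + 11 = k8s u + i := by
      decide +kernel
    obtain ⟨i, hi, h⟩ := h1 u v huv
    refine ⟨i, ?_, ?_⟩
    · have h3 : (⊤ : SimpleGraph (Fin 8)).neighborSet u = {u}ᶜ := by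
        ext v
        simp [eq_comm]
      rw [h3, Set.ncard_compl, Nat.card_eq_fintype_card, Fintype.card_fin, Set.ncard_singleton]
      omega
    · omega
  · intro k
    have h1 : ∀ r : Fin 11, ∃ u v, u ≠ v ∧ k8 u v = r.val := by decide +kernel
    obtain ⟨u, v, huv, h⟩ := h1 ⟨(k % 11).toNat, by omega⟩
    refine ⟨u, v, huv, ?_⟩
    have h2 : k8 u v = (k % 11).toNat := h
    simp only [h2]
    push_cast
    omega

end Pool.Agent.MP2596c2
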