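import Mathlib
import Pool.Agent.Lib.MP_2596c2_co.Trans

/-!
The feasible set of the complete bipartite graph is gap-free.
-/

namespace Pool.Agent.MP2596c2

/-- Description of an interval cyclic `t`-colouring of `K_{m,n}`: arcs start at `s u`, `r v`, the
edge `uv` has position `a u v` in the arc of `u` and position `b u v` in the arc of `v`. -/
structure GoodK (m n t : ℕ) (s : Fin m → ℤ) (r : Fin n → ℤ) (a b : Fin m → Fin n → ℕ) : Prop where
  ha : ∀ u v, a u v < n
  hb : ∀ u v, b u v < m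
  hab : ∀ u v, (t : ℤ) ∣ (s u + a u v) - (r v + b u v)
  inja : ∀ u v v', a u v = a u v' → v = v'
  injb : ∀ v u u', b u v = b u' v → u = u'
  surj : ∀ k : ℤ, ∃ u v, (t : ℤ) ∣ s u + a u v - k

theorem ncard_left {m n : ℕ} (u : Fin m) :
    ((completeBipartiteGraph (Fin m) (Fin n)).neighborSet (Sum.inl u)).ncard = n := by
  have : (completeBipartiteGraph (Fin m) (Fin n)).neighborSet (Sum.inl u) = Set.range Sum.inr := by
    ext x
    cases x <;> simp
  rw [this, ← Set.image_univ, Set.ncard_image_of_injective _ Sum.inr_injective, Set.ncard_univ]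
  simp

theorem ncard_right {m n : ℕ} (v : Fin n) :
    ((completeBipartiteGraph (Fin m) (Fin n)).neighborSet (Sum.inr v)).ncard = m := by
  have : (completeBipartiteGraph (Fin m) (Fin n)).neighborSet (Sum.inr v) = Set.range Sum.inl := by
    ext x
    cases x <;> simp
  rw [this, ← Set.image_univ, Set.ncard_image_of_injective _ Sum.inl_injective, Set.ncard_univ]
  simp

theorem goodK_of_good {m n t : ℕ} {s α}
    (h : Good (completeBipartiteGraph (Fin m) (Fin n)) t s α) :
    ∃ s r a b, GoodK m n t s r a b := by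
  have h1 : ∀ u : Fin m, ∀ v : Fin n, ∃ i : ℕ, i < n ∧
      (t : ℤ) ∣ α (Sum.inl u) (Sum.inr v) - (s (Sum.inl u) + i) := by
    intro u v
    have := h.arc (Sum.inl u) (Sum.inr v) (by simp)
    rwa [ncard_left] at this
  have h2 : ∀ u : Fin m, ∀ v : Fin n, ∃ j : ℕ, j < m ∧
      (t : ℤ) ∣ α (Sum.inl u) (Sum.inr v) - (s (Sum.inr v) + j) := by
    intro u v
    have := h.arc (Sum.inr v) (Sum.inl u) (by simp)
    rw [ncard_right] at this
    rwa [h.symm (Sum.inl u) (Sum.inr v) (by simp)]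
  choose a ha1 ha2 using h1
  choose b hb1 hb2 using h2
  refine ⟨fun u => s (Sum.inl u), fun v => s (Sum.inr v), a, b, ha1, hb1, ?_, ?_, ?_, ?_⟩
  · intro u v
    have := dvd_sub (hb2 u v) (ha2 u v)
    have h3 : α (Sum.inl u) (Sum.inr v) - (s (Sum.inr v) + b u v) -
      (α (Sum.inl u) (Sum.inr v) - (s (Sum.inl u) + a u v)) =
      s (Sum.inl u) + a u v - (s (Sum.inr v) + b u v) := by ring
    rwa [h3] at this
  · intro u v v' hvv
    have h3 := dvd_sub (ha2 u v) (ha2 u v')
    have h4 : α (Sum.inl u) (Sum.inr v) - (s (Sum.inl u) + a u v) -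
      (α (Sum.inl u) (Sum.inr v') - (s (Sum.inl u) + a u v')) =
      α (Sum.inl u) (Sum.inr v) - α (Sum.inl u) (Sum.inr v') := by rw [hvv]; ring
    rw [h4] at h3
    exact Sum.inr_injective (h.inj (Sum.inl u) _ _ (by simp) (by simp) h3)
  · intro v u u' huu
    have h3 := dvd_sub (hb2 u v) (hb2 u' v)
    have h4 : α (Sum.inl u) (Sum.inr v) - (s (Sum.inr v) + b u v) -
      (α (Sum.inl u') (Sum.inr v) - (s (Sum.inr v) + b u' v)) =
      α (Sum.inl u) (Sum.inr v) - α (Sum.inl u') (Sum.inr v) := by rw [huu]; ring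
    rw [h4, h.symm (Sum.inl u) (Sum.inr v) (by simp), h.symm (Sum.inl u') (Sum.inr v) (by simp)] at h3
    exact Sum.inl_injective (h.inj (Sum.inr v) _ _ (by simp) (by simp) h3)
  · intro k
    obtain ⟨x, y, hxy, hd⟩ := h.surj k
    have key : ∀ (u : Fin m) (v : Fin n), (t : ℤ) ∣ α (Sum.inl u) (Sum.inr v) - k →
        (t : ℤ) ∣ s (Sum.inl u) + a u v - k := by
      intro u v hd
      have := dvd_sub hd (ha2 u v)
      have h3 : α (Sum.inl u) (Sum.inr v) - k - (α (Sum.inl u) (Sum.inr v) - (s (Sum.inl u) + a u v)) =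
        s (Sum.inl u) + a u v - k := by ring
      rwa [h3] at this
    cases x with
    | inl u =>
      cases y with
      | inl u' => simp at hxy
      | inr v => exact ⟨u, v, key u v hd⟩
    | inr v =>
      cases y with
      | inl u =>
        rw [h.symm _ _ hxy] at hd
        exact ⟨u, v, key u v hd⟩
      | inr v' => simp at hxy

namespace GoodK

variable {m n t : ℕ} {s : Fin m → ℤ} {r : Fin n → ℤ} {a b : Fin m → Fin n → ℕ}

/-- Going from an arc of the first side to the last arc of the second side that meets it. -/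
theorem stepY (h : GoodK m n t s r a b) (u : Fin m) (x : ℤ) (hx : (t : ℤ) ∣ x - s u)
    (v0 : Fin n) : ∃ (v : Fin n) (y : ℤ), (t : ℤ) ∣ y - r v ∧ y = x + a u v - b u v ∧
      ∀ v', x + a u v' - b u v' ≤ y := by
  obtain ⟨v, _, hv⟩ := Finset.exists_max_image Finset.univ (fun v => x + (a u v : ℤ) - b u v)
    ⟨v0, Finset.mem_univ _⟩
  refine ⟨v, x + a u v - b u v, ?_, rfl, fun v' => hv v' (Finset.mem_univ _)⟩
  have h1 := dvd_add hx (h.hab u v)
  have h2 : x - s u + (s u + a u v - (r v + b u v)) = x + a u v - b u v - r v := by ring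
  rwa [h2] at h1

theorem stepX (h : GoodK m n t s r a b) (v : Fin n) (y : ℤ) (hy : (t : ℤ) ∣ y - r v)
    (u0 : Fin m) : ∃ (u : Fin m) (x : ℤ), (t : ℤ) ∣ x - s u ∧ x = y - a u v + b u v ∧
      ∀ u', y - a u' v + b u' v ≤ x := by
  obtain ⟨u, _, hu⟩ := Finset.exists_max_image Finset.univ (fun u => y - (a u v : ℤ) + b u v)
    ⟨u0, Finset.mem_univ _⟩
  refine ⟨u, y - a u v + b u v, ?_, rfl, fun u' => hu u' (Finset.mem_univ _)⟩
  have h1 := dvd_sub hy (h.hab u v)
  have h2 : y - r v - (s u + a u v - (r v + b u v)) = y - a u v + b u v - s u := by ring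
  rwa [h2] at h1

end GoodK

/-- Number of elements `≤ z` of the periodic set generated by the `s u` (up to a constant). -/
def cnt {m : ℕ} (t : ℕ) (s : Fin m → ℤ) (z : ℤ) : ℤ := ∑ u, (z - s u) / t

/-- Counting lemma: if there are injective labels `b u ∈ ℕ` such that those `u` with label at least
`c` have a lift in `(x, x']`, then the count increases by at least `m - c`. -/
theorem cnt_ineq {m : ℕ} {t : ℕ} (ht : 0 < t) (s : Fin m → ℤ) (x x' : ℤ) (hxx : x ≤ x')
    (b : Fin m → ℕ) (hb : Function.Injective b) (c : ℕ)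
    (hlift : ∀ u, c ≤ b u → ∃ w, x < w ∧ w ≤ x' ∧ (t : ℤ) ∣ w - s u) :
    (m : ℤ) - c ≤ cnt t s x' - cnt t s x := by
  have htz : (0 : ℤ) < t := by exact_mod_cast ht
  have h1 : ∀ u, (if c ≤ b u then (1 : ℤ) else 0) ≤ (x' - s u) / t - (x - s u) / t := by
    intro u
    have hmono : (x - s u) / t ≤ (x' - s u) / t := Int.ediv_le_ediv htz (by omega)
    split_ifs with hc
    · obtain ⟨w, hw1, hw2, q, hq⟩ := hlift u hc
      have h2 : (x - s u) / t < q := Int.ediv_lt_of_lt_mul htz (by rw [mul_comm]; omega)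
      have h3 : q ≤ (x' - s u) / t := Int.le_ediv_of_mul_le htz (by rw [mul_comm]; omega)
      omega
    · omega
  have h2 : ∑ u, (if c ≤ b u then (1 : ℤ) else 0) ≤ cnt t s x' - cnt t s x := by
    rw [cnt, cnt, ← Finset.sum_sub_distrib]
    exact Finset.sum_le_sum (fun u _ => h1 u)
  have h3 : (m : ℤ) - c ≤ ∑ u, (if c ≤ b u then (1 : ℤ) else 0) := by
    have h4 : ∑ u : Fin m, (if c ≤ b u then (1 : ℤ) else 0) + ∑ u, (if b u < c then (1 : ℤ) else 0) = m := by
      rw [← Finset.sum_add_distrib]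
      have : ∀ u : Fin m, (if c ≤ b u then (1 : ℤ) else 0) + (if b u < c then (1 : ℤ) else 0) = 1 := by
        intro u
        split_ifs <;> omega
      simp [this]
    have h5 : ∑ u : Fin m, (if b u < c then (1 : ℤ) else 0) ≤ c := by
      rw [← Finset.sum_filter]
      simp only [Finset.sum_const, nsmul_eq_mul, mul_one]
      have : (Finset.univ.filter (fun u => b u < c)).card ≤ (Finset.range c).card := by
        apply Finset.card_le_card_of_injOn b
        · intro u hu
          simp at hu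
          simpa using hu
        · exact hb.injOn
      rw [Finset.card_range] at this
      exact_mod_cast this
    linarith
  linarith

theorem cnt_le {m : ℕ} {t : ℕ} (ht : 0 < t) (s : Fin m → ℤ) (z : ℤ) :
    t * cnt t s z ≤ m * z - ∑ u, s u := by
  rw [cnt, Finset.mul_sum]
  have h1 : (m : ℤ) * z - ∑ u, s u = ∑ u : Fin m, (z - s u) := by
    rw [Finset.sum_sub_distrib]
    simp
  rw [h1]
  apply Finset.sum_le_sum
  intro u _
  exact Int.mul_ediv_self_le (by omega)

theorem GoodK.le {m n t : ℕ} {s : Fin m → ℤ} {r : Fin n → ℤ} {a b : Fin m → Fin n → ℕ}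
    (h : GoodK m n t s r a b) (ht1 : 1 ≤ t) : t ≤ m + n := by
  by_contra hcon
  push Not at hcon
  obtain ⟨u0, v0, _⟩ := h.surj 0
  have htz : (0 : ℤ) < t := by omega
  choose fv fy hf1 hf2 hf3 using fun (p : {p : Fin m × ℤ // (t : ℤ) ∣ p.2 - s p.1}) =>
    h.stepY p.1.1 p.1.2 p.2 v0
  choose gu gx hg1 hg2 hg3 using fun (p : {p : Fin n × ℤ // (t : ℤ) ∣ p.2 - r p.1}) =>
    h.stepX p.1.1 p.1.2 p.2 u0
  let Y : {p : Fin m × ℤ // (t : ℤ) ∣ p.2 - s p.1} → {p : Fin n × ℤ // (t : ℤ) ∣ p.2 - r p.1} :=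
    fun p => ⟨(fv p, fy p), hf1 p⟩
  let X : {p : Fin n × ℤ // (t : ℤ) ∣ p.2 - r p.1} → {p : Fin m × ℤ // (t : ℤ) ∣ p.2 - s p.1} :=
    fun p => ⟨(gu p, gx p), hg1 p⟩
  let P : ℕ → {p : Fin m × ℤ // (t : ℤ) ∣ p.2 - s p.1} := fun k =>
    Nat.rec ⟨(u0, s u0), by simp⟩ (fun _ p => X (Y p)) k
  have hP : ∀ k, P (k + 1) = X (Y (P k)) := fun k => rfl
  -- basic facts about one step
  have e1 : ∀ p, (Y p).1.2 = p.1.2 + a p.1.1 (Y p).1.1 - b p.1.1 (Y p).1.1 := fun p => hf2 p
  have e2 : ∀ q, (X q).1.2 = q.1.2 - a (X q).1.1 q.1.1 + b (X q).1.1 q.1.1 := fun q => hg2 q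
  have m1 : ∀ p v', p.1.2 + a p.1.1 v' - b p.1.1 v' ≤ (Y p).1.2 := fun p => hf3 p
  have m2 : ∀ q u', q.1.2 - a u' q.1.1 + b u' q.1.1 ≤ (X q).1.2 := fun q => hg3 q
  have i0 : ∀ p, p.1.2 ≤ (X (Y p)).1.2 := by
    intro p
    have := m2 (Y p) p.1.1
    have := e1 p
    omega
  have j0 : ∀ q, q.1.2 ≤ (Y (X q)).1.2 := by
    intro q
    have := m1 (X q) q.1.1
    have := e2 q
    omega
  have ineq1 : ∀ p, (m : ℤ) - n + (Y p).1.2 - p.1.2 ≤ cnt t s (X (Y p)).1.2 - cnt t s p.1.2 := by
    intro p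
    have hc : 0 ≤ (n : ℤ) + p.1.2 - (Y p).1.2 := by
      have := e1 p
      have := h.ha p.1.1 (Y p).1.1
      omega
    have := cnt_ineq (by omega : 0 < t) s p.1.2 (X (Y p)).1.2 (i0 p) (fun u => b u (Y p).1.1)
      (fun u u' huu => h.injb _ _ _ huu) ((n : ℤ) + p.1.2 - (Y p).1.2).toNat (by
        intro u hu
        refine ⟨(Y p).1.2 - a u (Y p).1.1 + b u (Y p).1.1, ?_, m2 (Y p) u, ?_⟩
        · have := h.ha u (Y p).1.1
          have : (n : ℤ) + p.1.2 - (Y p).1.2 ≤ b u (Y p).1.1 := by omega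
          omega
        · have h1 := dvd_sub (Y p).2 (h.hab u (Y p).1.1)
          have h2 : (Y p).1.2 - r (Y p).1.1 - (s u + a u (Y p).1.1 - (r (Y p).1.1 + b u (Y p).1.1)) =
            (Y p).1.2 - a u (Y p).1.1 + b u (Y p).1.1 - s u := by ring
          rwa [h2] at h1)
    rw [Int.toNat_of_nonneg hc] at this
    linarith
  have ineq2 : ∀ q, (n : ℤ) - m + (X q).1.2 - q.1.2 ≤ cnt t r (Y (X q)).1.2 - cnt t r q.1.2 := by
    intro q
    have hc : 0 ≤ (m : ℤ) + q.1.2 - (X q).1.2 := by
      have := e2 q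
      have := h.hb (X q).1.1 q.1.1
      omega
    have := cnt_ineq (by omega : 0 < t) r q.1.2 (Y (X q)).1.2 (j0 q) (fun v => a (X q).1.1 v)
      (fun v v' hvv => h.inja _ _ _ hvv) ((m : ℤ) + q.1.2 - (X q).1.2).toNat (by
        intro v hv
        refine ⟨(X q).1.2 + a (X q).1.1 v - b (X q).1.1 v, ?_, m1 (X q) v, ?_⟩
        · have := h.hb (X q).1.1 v
          have : (m : ℤ) + q.1.2 - (X q).1.2 ≤ a (X q).1.1 v := by omega
          omega
        · have h1 := dvd_add (X q).2 (h.hab (X q).1.1 v)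
          have h2 : (X q).1.2 - s (X q).1.1 + (s (X q).1.1 + a (X q).1.1 v - (r v + b (X q).1.1 v)) =
            (X q).1.2 + a (X q).1.1 v - b (X q).1.1 v - r v := by ring
          rwa [h2] at h1)
    rw [Int.toNat_of_nonneg hc] at this
    linarith
  -- potential
  let Ψ : ℕ → ℤ := fun k => cnt t s (P k).1.2 + cnt t r (Y (P k)).1.2 - (P k).1.2
  have hΨ : ∀ k, Ψ 0 ≤ Ψ k := by
    intro k
    induction k with
    | zero => exact le_refl _
    | succ k ih =>
      have h1 := ineq1 (P k)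
      have h2 := ineq2 (Y (P k))
      have : Ψ k ≤ Ψ (k + 1) := by
        simp only [Ψ, hP]
        linarith
      linarith
  have hbound : ∃ B : ℤ, ∀ k, (P k).1.2 ≤ B := by
    refine ⟨max 0 (n * n - ∑ u, s u - ∑ v, r v - t * Ψ 0), fun k => ?_⟩
    have h1 := cnt_le (by omega : 0 < t) s (P k).1.2
    have h2 := cnt_le (by omega : 0 < t) r (Y (P k)).1.2
    have h3 := hΨ k
    have h4 : (Y (P k)).1.2 ≤ (P k).1.2 + n := by
      have := e1 (P k)
      have := h.ha (P k).1.1 (Y (P k)).1.1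
      omega
    have h5 : (t : ℤ) * Ψ 0 ≤ t * Ψ k := mul_le_mul_of_nonneg_left h3 htz.le
    have h6 : (t : ℤ) * Ψ k = t * cnt t s (P k).1.2 + t * cnt t r (Y (P k)).1.2 - t * (P k).1.2 := by
      simp only [Ψ]; ring
    have h7 : (n : ℤ) * (Y (P k)).1.2 ≤ n * ((P k).1.2 + n) :=
      mul_le_mul_of_nonneg_left h4 (by omega)
    have h8 : (m + n + 1 : ℤ) ≤ t := by omega
    rw [le_max_iff]
    by_cases hneg : (P k).1.2 ≤ 0
    · left; exact hneg
    · right
      push Not at hneg
      have h9 : (m + n + 1 : ℤ) * (P k).1.2 ≤ t * (P k).1.2 :=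
        mul_le_mul_of_nonneg_right h8 hneg.le
      nlinarith
  obtain ⟨B, hB⟩ := hbound
  have hfix : ∃ k, (P (k + 1)).1.2 = (P k).1.2 := by
    by_contra hno
    push Not at hno
    have hgrow : ∀ k : ℕ, (P 0).1.2 + k ≤ (P k).1.2 := by
      intro k
      induction k with
      | zero => simp
      | succ k ih =>
        have h1 := i0 (P k)
        have h2 := hno k
        rw [← hP] at h1
        push_cast
        omega
    have h1 := hgrow (B - (P 0).1.2 + 1).toNat
    have h2 := hB (B - (P 0).1.2 + 1).toNat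
    omega
  obtain ⟨k, hk⟩ := hfix
  rw [hP] at hk
  set p := P k with hp
  set q := Y p with hq
  -- every arc of the first side lies in `[y - n + 1, x + n - 1]`
  have c1 : (t : ℤ) ≤ p.1.2 - q.1.2 + 2 * n - 1 := by
    obtain ⟨u1, v1, hd⟩ := h.surj (p.1.2 + n)
    have h1 := m2 q u1
    rw [hk] at h1
    have h2 := h.ha u1 q.1.1
    have h3 := h.ha u1 v1
    have h4 := dvd_sub q.2 (h.hab u1 q.1.1)
    have h5 := dvd_add h4 hd
    have h6 : q.1.2 - r q.1.1 - (s u1 + a u1 q.1.1 - (r q.1.1 + b u1 q.1.1)) +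
      (s u1 + a u1 v1 - (p.1.2 + n)) = -(p.1.2 + n - (q.1.2 - a u1 q.1.1 + b u1 q.1.1 + a u1 v1)) := by ring
    rw [h6, dvd_neg] at h5
    have h7 := Int.le_of_dvd (by omega) h5
    omega
  have c2 : (t : ℤ) ≤ q.1.2 - p.1.2 + 2 * m - 1 := by
    obtain ⟨u1, v1, hd⟩ := h.surj (q.1.2 + m)
    have h1 := m1 p v1
    rw [← hq] at h1
    have h2 := h.hb p.1.1 v1
    have h3 := h.hb u1 v1
    have h4 := dvd_add p.2 (h.hab p.1.1 v1)
    have h5 := dvd_sub (dvd_add h4 hd) (h.hab u1 v1)
    have h6 : p.1.2 - s p.1.1 + (s p.1.1 + a p.1.1 v1 - (r v1 + b p.1.1 v1)) +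
      (s u1 + a u1 v1 - (q.1.2 + m)) - (s u1 + a u1 v1 - (r v1 + b u1 v1)) =
      -(q.1.2 + m - (p.1.2 + a p.1.1 v1 - b p.1.1 v1 + b u1 v1)) := by ring
    rw [h6, dvd_neg] at h5
    have h7 := Int.le_of_dvd (by omega) h5
    omega
  omega

theorem dvd_small {t : ℕ} {z : ℤ} (h : (t : ℤ) ∣ z) (h1 : -(t : ℤ) < z) (h2 : z < t) : z = 0 := by
  obtain ⟨k, hk⟩ := h
  have h3 : k < 1 := by
    by_contra h4
    nlinarith
  have h4 : -1 < k := by
    by_contra h5
    nlinarith
  have : k = 0 := by omega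
  rw [hk, this]
  simp

theorem kmn_mem {m n t : ℕ} (hm : 1 ≤ m) (hn : 1 ≤ n) (h1 : m ≤ t) (h2 : n ≤ t)
    (h3 : t + 1 ≤ m + n) : t ∈ feasibleSet (completeBipartiteGraph (Fin m) (Fin n)) := by
  let f : Fin m ⊕ Fin n → ℤ := fun x => Sum.elim (fun u : Fin m => (u.val : ℤ)) (fun v : Fin n => (v.val : ℤ)) x
  apply mem_of_good (by omega) (s := f) (α := fun x y => f x + f y)
  refine ⟨?_, ?_, ?_, ?_⟩
  · intro x y _
    ring
  · intro x y z hxy hxz hd
    have hd' : (t : ℤ) ∣ f y - f z := by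
      have : f x + f y - (f x + f z) = f y - f z := by ring
      rwa [this] at hd
    cases x with
    | inl u =>
      cases y with
      | inl y => simp at hxy
      | inr y =>
        cases z with
        | inl z => simp at hxz
        | inr z =>
          simp only [f, Sum.elim_inr] at hd'
          have := y.isLt
          have := z.isLt
          have := dvd_small hd' (by omega) (by omega)
          congr 1
          apply Fin.ext
          omega
    | inr u =>
      cases y with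
      | inr y => simp at hxy
      | inl y =>
        cases z with
        | inr z => simp at hxz
        | inl z =>
          simp only [f, Sum.elim_inl] at hd'
          have := y.isLt
          have := z.isLt
          have := dvd_small hd' (by omega) (by omega)
          congr 1
          apply Fin.ext
          omega
  · intro x y hxy
    cases x with
    | inl u =>
      cases y with
      | inl y => simp at hxy
      | inr y =>
        refine ⟨y.val, ?_, ?_⟩
        · rw [ncard_left]; exact y.isLt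
        · simp [f]
    | inr u =>
      cases y with
      | inr y => simp at hxy
      | inl y =>
        refine ⟨y.val, ?_, ?_⟩
        · rw [ncard_right]; exact y.isLt
        · simp [f]
  · intro k
    have e1 := Int.emod_nonneg k (show (t : ℤ) ≠ 0 by omega)
    have e2 := Int.emod_lt_of_pos k (show (0 : ℤ) < t by omega)
    by_cases hk : k % t < m
    · refine ⟨Sum.inl ⟨(k % t).toNat, by omega⟩, Sum.inr ⟨0, hn⟩, by simp, ?_⟩
      simp only [f, Sum.elim_inl, Sum.elim_inr]
      rw [Int.toNat_of_nonneg e1]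
      push_cast
      have := Int.emod_add_mul_ediv k t
      exact ⟨-(k / t), by linarith⟩
    · refine ⟨Sum.inl ⟨m - 1, by omega⟩, Sum.inr ⟨(k % t - (m - 1)).toNat, by omega⟩, by simp, ?_⟩
      simp only [f, Sum.elim_inl, Sum.elim_inr]
      rw [Int.toNat_of_nonneg (by omega)]
      have h4 : ((m - 1 : ℕ) : ℤ) = m - 1 := by omega
      rw [h4]
      have := Int.emod_add_mul_ediv k t
      exact ⟨-(k / t), by linarith⟩

/-- In any graph, a vertex of degree `d` forces `d ≤ t`. -/
theorem degree_le_of_good {V : Type} [Finite V] {G : SimpleGraph V} {t : ℕ} (ht : 1 ≤ t) {s α}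
    (h : Good G t s α) (u : V) : (G.neighborSet u).ncard ≤ t := by
  classical
  have : NeZero t := ⟨by omega⟩
  let f : V → ZMod t := fun v => ((α u v : ℤ) : ZMod t)
  have h1 : (f '' (G.neighborSet u)).ncard = (G.neighborSet u).ncard := by
    apply Set.InjOn.ncard_image
    intro v hv w hw hvw
    apply h.inj u v w hv hw
    rw [← ZMod.intCast_zmod_eq_zero_iff_dvd]
    push_cast
    exact sub_eq_zero.2 hvw
  rw [← h1]
  calc (f '' (G.neighborSet u)).ncard ≤ (Set.univ : Set (ZMod t)).ncard :=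
        Set.ncard_le_ncard (Set.subset_univ _) (Set.toFinite _)
    _ = t := by rw [Set.ncard_univ, Nat.card_eq_fintype_card, ZMod.card]

/-- The feasible set of every complete bipartite graph is gap-free. -/
theorem gapFree_completeBipartite (m n : ℕ) (hm : 1 ≤ m) (hn : 1 ≤ n) :
    GapFree (feasibleSet (completeBipartiteGraph (Fin m) (Fin n))) := by
  intro x y z hxy hyz hx hz
  obtain ⟨hx1, s, α, hg⟩ := good_of_mem hx
  have h1 := degree_le_of_good hx1 hg (Sum.inl ⟨0, hm⟩)
  have h2 := degree_le_of_good hx1 hg (Sum.inr ⟨0, hn⟩)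
  rw [ncard_left] at h1
  rw [ncard_right] at h2
  obtain ⟨hz1, s', α', hg'⟩ := good_of_mem hz
  obtain ⟨s2, r2, a2, b2, hk⟩ := goodK_of_good hg'
  have h3 := hk.le hz1
  exact kmn_mem hm hn (by omega) (by omega) (by omega)

end Pool.Agent.MP2596c2
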