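import Mathlib
import Pool.Agent.Lib.MP_2596c2_co.Assemble
import Pool.Agent.Lib.MP_2596c2_co.Factor

/-!
Ranges of `t` in the feasible set of `K_{2n}`.
-/

namespace Pool.Agent.MP2596c2

theorem exists_fac {M : ℕ} (hM : 2 ∣ M) : ∃ φ : Fin M → Fin M → ℕ, Fac M φ := by
  obtain ⟨k, rfl⟩ := hM
  cases k with
  | zero =>
    refine ⟨fun _ _ => 0, ⟨?_, ?_, ?_⟩⟩
    · intro x; exact absurd x.2 (by omega)
    · intro x; exact absurd x.2 (by omega)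
    · intro x; exact absurd x.2 (by omega)
  | succ k => exact ⟨_, fac_rr k⟩

/-- Two clusters of size `n`, `n` even. -/
theorem range_even {n : ℕ} (hn : 1 ≤ n) (h2 : 2 ∣ n) {t : ℕ} (h1 : 2 * n ≤ t + 1)
    (h3 : t + 2 ≤ 3 * n) : t ∈ feasibleSet (⊤ : SimpleGraph (Fin (2 * n))) := by
  obtain ⟨φ, F⟩ := exists_fac h2
  obtain ⟨φ', F'⟩ := exists_fac (M := 0) (by omega)
  obtain ⟨μ0, ν0, B0⟩ := exists_latin n φ 0
  obtain ⟨μ1, ν1, B1⟩ := exists_empty n φ 0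
  exact assemble F F F' B0 B1 B1 (g0 := n - 1) (g1 := n - 1) (g2 := 0) (by omega) (by omega) rfl
    (by omega) (by omega) (by omega) (by omega) (by omega) (by omega) (by omega) (by omega)
    (by omega)

/-- Two clusters of sizes `n + 1` and `n - 1`, `n` odd. -/
theorem range_odd {n : ℕ} (hn : 3 ≤ n) (h2 : ¬ 2 ∣ n) {t : ℕ} (h1 : 2 * n ≤ t + 1)
    (h3 : t + 3 ≤ 3 * n) : t ∈ feasibleSet (⊤ : SimpleGraph (Fin (2 * n))) := by
  obtain ⟨m, hm, rfl⟩ : ∃ m, 1 ≤ m ∧ n = 2 * m + 1 := ⟨n / 2, by omega, by omega⟩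
  have F := fac_rr m
  obtain ⟨φ1, F1⟩ := exists_fac (M := 2 * m) ⟨m, rfl⟩
  obtain ⟨φ', F'⟩ := exists_fac (M := 0) (by omega)
  obtain ⟨μ0, ν0, B0⟩ := exists_blk0 m hm
  obtain ⟨μ1, ν1, B1⟩ := exists_empty (2 * m) φ1 0
  obtain ⟨μ2, ν2, B2⟩ := exists_empty (2 * m + 2) (fun x y => rr (2 * m + 1) x.val y.val) 2
  exact assemble F F1 F' B0 B1 B2 (g0 := 2 * m - 1) (g1 := 2 * m - 1) (g2 := 0) (by omega)
    (by omega) rfl (by omega) (by omega) (by omega) (by omega) (by omega) (by omega) (by omega)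
    (by omega) (by omega)

/-- Three clusters of size `2 k`, `n = 3 k`. -/
theorem range_three {n : ℕ} (hn : 1 ≤ n) (h3 : 3 ∣ n) {t : ℕ} (h1 : 2 * n ≤ t)
    (h2 : t + 3 ≤ 4 * n) : t ∈ feasibleSet (⊤ : SimpleGraph (Fin (2 * n))) := by
  obtain ⟨k, rfl⟩ := h3
  obtain ⟨φ, F⟩ := exists_fac (M := 2 * k) ⟨k, rfl⟩
  obtain ⟨μ0, ν0, B0⟩ := exists_latin (2 * k) φ 0
  exact assemble F F F B0 B0 B0 (g0 := 2 * k - 1) (g1 := 2 * k - 1) (g2 := 2 * k - 1) (by omega)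
    (by omega) rfl (by omega) (by omega) (by omega) (by omega) (by omega) (by omega) (by omega)
    (by omega) (by omega)

/-- Three clusters of sizes `e + 2`, `e`, `e`, `n = 3 m + 1`, `e = 2 m`. -/
theorem range_one {n : ℕ} (hn : 7 ≤ n) (h3 : n % 3 = 1) {t : ℕ} (h1 : 2 * n + 2 ≤ t)
    (h2 : t + 5 ≤ 4 * n) : t ∈ feasibleSet (⊤ : SimpleGraph (Fin (2 * n))) := by
  obtain ⟨m, hm, rfl⟩ : ∃ m, 2 ≤ m ∧ n = 3 * m + 1 := ⟨n / 3, by omega, by omega⟩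
  have F := fac_rr m
  obtain ⟨φ1, F1⟩ := exists_fac (M := 2 * m) ⟨m, rfl⟩
  obtain ⟨μ0, ν0, B0⟩ := exists_blk0 m (by omega)
  obtain ⟨μ1, ν1, B1⟩ := exists_latin (2 * m) φ1 0
  obtain ⟨μ2, ν2, B2⟩ := exists_blk2 m hm
  exact assemble F F1 F1 B0 B1 B2 (g0 := 2 * m - 3) (g1 := 2 * m - 1) (g2 := 2 * m - 1)
    (by omega) (by omega) rfl (by omega) (by omega) (by omega) (by omega) (by omega) (by omega)
    (by omega) (by omega) (by omega)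

/-- Three clusters of sizes `e + 2`, `e + 2`, `e`, `n = 3 m + 2`, `e = 2 m`. -/
theorem range_two {n : ℕ} (hn : 5 ≤ n) (h3 : n % 3 = 2) {t : ℕ} (h1 : 2 * n + 2 ≤ t)
    (h2 : t + 5 ≤ 4 * n) : t ∈ feasibleSet (⊤ : SimpleGraph (Fin (2 * n))) := by
  obtain ⟨m, hm, rfl⟩ : ∃ m, 1 ≤ m ∧ n = 3 * m + 2 := ⟨n / 3, by omega, by omega⟩
  have F := fac_rr m
  obtain ⟨φ1, F1⟩ := exists_fac (M := 2 * m) ⟨m, rfl⟩
  obtain ⟨μ0, ν0, B0⟩ := exists_latin (2 * m + 2) (fun x y => rr (2 * m + 1) x.val y.val) 0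
  obtain ⟨μ1, ν1, B1⟩ := exists_blk0 m hm
  exact assemble F F F1 B0 B1 B1 (g0 := 2 * m - 1) (g1 := 2 * m - 1) (g2 := 2 * m - 1)
    (by omega) (by omega) rfl (by omega) (by omega) (by omega) (by omega) (by omega) (by omega)
    (by omega) (by omega) (by omega)

end Pool.Agent.MP2596c2
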