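import Mathlib
import Pool.Agent.Lib.MP_2596c2_co.Trans
import Pool.Agent.Lib.MP_2596c2_co.Kmn

/-!
Upper bound `t ≤ 2N - 3` for the feasible set of the complete graph `K_N`.
-/

namespace Pool.Agent.MP2596c2

/-- Description of an interval cyclic `t`-colouring of `K_N`: arcs start at `s u` and the
edge `uv` has position `a u v` in the arc of `u`. -/
structure GoodC (N t : ℕ) (s : Fin N → ℤ) (a : Fin N → Fin N → ℕ) : Prop where
  ha : ∀ u v, u ≠ v → a u v + 1 < N
  hab : ∀ u v, u ≠ v → (t : ℤ) ∣ (s u + a u v) - (s v + a v u)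
  inj : ∀ u v w, u ≠ v → u ≠ w → a u v = a u w → v = w
  surj : ∀ k : ℤ, ∃ u v, u ≠ v ∧ (t : ℤ) ∣ s u + a u v - k

theorem ncard_top {N : ℕ} (u : Fin N) :
    ((⊤ : SimpleGraph (Fin N)).neighborSet u).ncard = N - 1 := by
  have : (⊤ : SimpleGraph (Fin N)).neighborSet u = ((Finset.univ.erase u : Finset (Fin N)) : Set (Fin N)) := by
    ext x
    simp [eq_comm]
  rw [this, Set.ncard_coe_finset, Finset.card_erase_of_mem (Finset.mem_univ _)]
  simp

theorem goodC_of_good {N t : ℕ} {s α} (h : Good (⊤ : SimpleGraph (Fin N)) t s α) :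
    ∃ a, GoodC N t s a := by
  have h1 : ∀ u v : Fin N, ∃ i : ℕ, u ≠ v → (i + 1 < N ∧ (t : ℤ) ∣ α u v - (s u + i)) := by
    intro u v
    by_cases huv : u = v
    · exact ⟨0, fun h' => absurd huv h'⟩
    · obtain ⟨i, hi, hd⟩ := h.arc u v (by simpa using huv)
      rw [ncard_top] at hi
      exact ⟨i, fun _ => ⟨by omega, hd⟩⟩
  choose a ha using h1
  refine ⟨a, ⟨fun u v huv => (ha u v huv).1, ?_, ?_, ?_⟩⟩
  · intro u v huv
    have h2 := dvd_sub (ha v u huv.symm).2 (ha u v huv).2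
    rw [h.symm v u (by simpa using huv.symm)] at h2
    have h3 : α u v - (s v + a v u) - (α u v - (s u + a u v)) = s u + a u v - (s v + a v u) := by ring
    rwa [h3] at h2
  · intro u v w huv huw haa
    have h2 := dvd_sub (ha u v huv).2 (ha u w huw).2
    have h3 : α u v - (s u + a u v) - (α u w - (s u + a u w)) = α u v - α u w := by rw [haa]; ring
    rw [h3] at h2
    exact h.inj u v w (by simpa using huv) (by simpa using huw) h2
  · intro k
    obtain ⟨u, v, huv, hd⟩ := h.surj k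
    have huv' : u ≠ v := by simpa using huv
    refine ⟨u, v, huv', ?_⟩
    have h2 := dvd_sub hd (ha u v huv').2
    have h3 : α u v - k - (α u v - (s u + a u v)) = s u + a u v - k := by ring
    rwa [h3] at h2

/-- One step of the orbit. -/
theorem GoodC.step {N t : ℕ} {s : Fin N → ℤ} {a : Fin N → Fin N → ℕ} (h : GoodC N t s a)
    (hcon : 2 * N < t + 3) (u : Fin N) (x : ℤ) (hx : (t : ℤ) ∣ x - s u) :
    ∃ (v : Fin N) (y : ℤ), (t : ℤ) ∣ y - s v ∧ x < y ∧ y + 2 ≤ x + N ∧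
      (∀ w, u ≠ w → x + a u w - a w u ≤ y) ∧ ∃ w, u ≠ w ∧ v = w ∧ y = x + a u w - a w u := by
  classical
  have hN : ∃ w, u ≠ w := by
    obtain ⟨u1, v1, huv, _⟩ := h.surj 0
    by_cases h1 : u = u1
    · exact ⟨v1, by rw [h1]; exact huv⟩
    · exact ⟨u1, h1⟩
  obtain ⟨w0, hw0⟩ := hN
  obtain ⟨v, hv1, hv⟩ := Finset.exists_max_image (Finset.univ.erase u)
    (fun v => x + (a u v : ℤ) - a v u) ⟨w0, by simp [hw0.symm]⟩
  have huv : u ≠ v := fun h' => by simp [h'] at hv1
  have hv' : ∀ w, u ≠ w → x + (a u w : ℤ) - a w u ≤ x + a u v - a v u := fun w hw =>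
    hv w (by simp [hw.symm])
  refine ⟨v, x + a u v - a v u, ?_, ?_, ?_, hv', v, huv, rfl, rfl⟩
  · have h1 := dvd_add hx (h.hab u v huv)
    have h2 : x - s u + (s u + a u v - (s v + a v u)) = x + a u v - a v u - s v := by ring
    rwa [h2] at h1
  · by_contra hle
    push Not at hle
    -- all arcs lie in `[x - N + 2, x + N - 2]`
    obtain ⟨u1, v1, huv1, hd⟩ := h.surj (x + N - 1)
    by_cases h1 : u = u1
    · subst h1
      have h2 := h.ha u v1 huv1
      have h3 := dvd_add hx hd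
      have h4 : x - s u + (s u + a u v1 - (x + N - 1)) = -(N - 1 - a u v1 : ℤ) := by ring
      rw [h4, dvd_neg] at h3
      have h7 := Int.le_of_dvd (by omega) h3
      omega
    · have h2 := hv' u1 h1
      have h3 := h.ha u1 v1 huv1
      have h4 := h.ha u1 u (fun h' => h1 h'.symm)
      have h5 := dvd_add (dvd_add hx (h.hab u u1 h1)) hd
      have h6 : x - s u + (s u + a u u1 - (s u1 + a u1 u)) + (s u1 + a u1 v1 - (x + N - 1)) =
        -(N - 1 - (a u u1 - a u1 u + a u1 v1) : ℤ) := by ring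
      rw [h6, dvd_neg] at h5
      have h7 := Int.le_of_dvd (by omega) h5
      omega
  · have h1 := h.ha u v huv
    omega

theorem GoodC.le {N t : ℕ} {s : Fin N → ℤ} {a : Fin N → Fin N → ℕ} (h : GoodC N t s a) :
    t + 3 ≤ 2 * N := by
  classical
  by_contra hcon
  push Not at hcon
  obtain ⟨u0, v0, huv0, _⟩ := h.surj 0
  have hN : 2 ≤ N := by have := h.ha u0 v0 huv0; omega
  have ht : 0 < t := by omega
  have htz : (0 : ℤ) < t := by omega
  choose fv fy hf1 hf2 hf3 hf4 hf5 using fun (p : {p : Fin N × ℤ // (t : ℤ) ∣ p.2 - s p.1}) =>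
    h.step hcon p.1.1 p.1.2 p.2
  let F : {p : Fin N × ℤ // (t : ℤ) ∣ p.2 - s p.1} → {p : Fin N × ℤ // (t : ℤ) ∣ p.2 - s p.1} :=
    fun p => ⟨(fv p, fy p), hf1 p⟩
  have g2 : ∀ p, p.1.2 < (F p).1.2 := hf2
  have g3 : ∀ p, (F p).1.2 + 2 ≤ p.1.2 + N := hf3
  have g4 : ∀ p w, p.1.1 ≠ w → p.1.2 + a p.1.1 w - a w p.1.1 ≤ (F p).1.2 := hf4
  have g5 : ∀ p, p.1.1 ≠ (F p).1.1 ∧ (F p).1.2 = p.1.2 + a p.1.1 (F p).1.1 - a (F p).1.1 p.1.1 := by
    intro p
    obtain ⟨w, hw1, hw2, hw3⟩ := hf5 p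
    have : (F p).1.1 = w := hw2
    rw [this]
    exact ⟨hw1, hw3⟩
  have ineq : ∀ p, 1 + (F p).1.2 - p.1.2 ≤ cnt t s (F (F p)).1.2 - cnt t s p.1.2 := by
    intro p
    set q := F p with hq
    obtain ⟨hne, heq⟩ := g5 p
    rw [← hq] at hne heq
    have hqx : p.1.2 < q.1.2 := g2 p
    have hqx' : q.1.2 < (F q).1.2 := g2 q
    have hb := g3 p
    rw [← hq] at hb
    -- labels: position in the arc of `q`, and `N - 1` for `q` itself
    have := cnt_ineq ht s p.1.2 (F q).1.2 (by omega)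
      (fun u => if u = q.1.1 then N - 1 else a q.1.1 u) (by
        intro u u' huu
        simp only at huu
        by_cases h1 : u = q.1.1
        · by_cases h2 : u' = q.1.1
          · rw [h1, h2]
          · rw [if_pos h1, if_neg h2] at huu
            have := h.ha q.1.1 u' (fun h' => h2 h'.symm)
            omega
        · by_cases h2 : u' = q.1.1
          · rw [if_neg h1, if_pos h2] at huu
            have := h.ha q.1.1 u (fun h' => h1 h'.symm)
            omega
          · rw [if_neg h1, if_neg h2] at huu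
            exact h.inj q.1.1 u u' (fun h' => h1 h'.symm) (fun h' => h2 h'.symm) huu)
      ((N : ℤ) - 1 + p.1.2 - q.1.2).toNat (by
        intro u hu
        by_cases h1 : u = q.1.1
        · refine ⟨q.1.2, hqx, hqx'.le, ?_⟩
          rw [h1]; exact q.2
        · rw [if_neg h1] at hu
          have hne' : q.1.1 ≠ u := fun h' => h1 h'.symm
          refine ⟨q.1.2 + a q.1.1 u - a u q.1.1, ?_, g4 q u hne', ?_⟩
          · have := h.ha u q.1.1 h1
            omega
          · have h3 := dvd_add q.2 (h.hab q.1.1 u hne')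
            have h4 : q.1.2 - s q.1.1 + (s q.1.1 + a q.1.1 u - (s u + a u q.1.1)) =
              q.1.2 + a q.1.1 u - a u q.1.1 - s u := by ring
            rwa [h4] at h3)
    rw [Int.toNat_of_nonneg (by omega)] at this
    linarith
  let P : ℕ → {p : Fin N × ℤ // (t : ℤ) ∣ p.2 - s p.1} := fun k =>
    Nat.rec ⟨(u0, s u0), by simp⟩ (fun _ p => F p) k
  have hP : ∀ k, P (k + 1) = F (P k) := fun k => rfl
  let Ψ : ℕ → ℤ := fun k => cnt t s (P k).1.2 + cnt t s (P (k + 1)).1.2 - (P k).1.2 - k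
  have hΨ : ∀ k, Ψ 0 ≤ Ψ k := by
    intro k
    induction k with
    | zero => exact le_refl _
    | succ k ih =>
      have h1 := ineq (P k)
      have : Ψ k ≤ Ψ (k + 1) := by
        simp only [Ψ, hP]
        push_cast
        linarith
      linarith
  have hlin : ∀ k : ℕ, (P k).1.2 ≤ (P 0).1.2 + k * (N - 2) ∧ (P 0).1.2 + k ≤ (P k).1.2 := by
    intro k
    induction k with
    | zero => simp
    | succ k ih =>
      have h1 := g2 (P k)
      have h2 := g3 (P k)
      rw [← hP] at h1 h2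
      push_cast
      constructor <;> linarith [ih.1, ih.2]
  have hkey : ∀ k : ℕ, (t : ℤ) * Ψ 0 + 2 * ∑ u, s u + t * k ≤
      (2 * N - t) * (P k).1.2 + N * N := by
    intro k
    have h1 := cnt_le ht s (P k).1.2
    have h2 := cnt_le ht s (P (k + 1)).1.2
    have h3 := hΨ k
    have h4 := g3 (P k)
    rw [← hP] at h4
    have h5 : (t : ℤ) * Ψ 0 ≤ t * Ψ k := mul_le_mul_of_nonneg_left h3 htz.le
    have h6 : (t : ℤ) * Ψ k = t * cnt t s (P k).1.2 + t * cnt t s (P (k + 1)).1.2 -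
      t * (P k).1.2 - t * k := by simp only [Ψ]; ring
    have h7 : (N : ℤ) * (P (k + 1)).1.2 ≤ N * ((P k).1.2 + N) :=
      mul_le_mul_of_nonneg_left (by omega) (by omega)
    linarith
  -- choose k large
  obtain ⟨k, hk0, hk⟩ : ∃ k : ℕ, 0 ≤ (P 0).1.2 + k ∧
      |(t : ℤ) * Ψ 0 + 2 * ∑ u, s u - N * N| + 2 * |(P 0).1.2| < k := by
    refine ⟨(|(t : ℤ) * Ψ 0 + 2 * ∑ u, s u - N * N| + 2 * |(P 0).1.2| + 1).toNat, ?_, ?_⟩
    · have h1 := abs_nonneg ((t : ℤ) * Ψ 0 + 2 * ∑ u, s u - N * N)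
      have h2 := neg_abs_le (P 0).1.2
      have h3 := abs_nonneg (P 0).1.2
      rw [Int.toNat_of_nonneg (by omega)]
      omega
    · have h1 := abs_nonneg ((t : ℤ) * Ψ 0 + 2 * ∑ u, s u - N * N)
      have h3 := abs_nonneg (P 0).1.2
      rw [Int.toNat_of_nonneg (by omega)]
      omega
  have h1 := hkey k
  obtain ⟨h2, h3⟩ := hlin k
  have hpos : 0 ≤ (P k).1.2 := by omega
  have h4 : (2 * N - t : ℤ) ≤ 2 := by omega
  have h5 : (2 * N - t : ℤ) * (P k).1.2 ≤ 2 * (P k).1.2 := mul_le_mul_of_nonneg_right h4 hpos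
  have h6 := neg_abs_le ((t : ℤ) * Ψ 0 + 2 * ∑ u, s u - N * N)
  have h7 := le_abs_self (P 0).1.2
  have h8 : ((2 : ℤ) * N - 2) * k ≤ t * k := mul_le_mul_of_nonneg_right (by omega) (by omega)
  linarith

theorem le_of_mem_top {N t : ℕ} (h : t ∈ feasibleSet (⊤ : SimpleGraph (Fin N))) :
    N - 1 ≤ t ∧ t + 3 ≤ 2 * N := by
  obtain ⟨ht, s, α, hg⟩ := good_of_mem h
  obtain ⟨a, hC⟩ := goodC_of_good hg
  have h1 := hC.le
  refine ⟨?_, h1⟩
  have hN : 0 < N := by omega
  have := degree_le_of_good ht hg ⟨0, hN⟩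
  rwa [ncard_top] at this

end Pool.Agent.MP2596c2
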