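import Mathlib
import Pool.Agent.Lib.MP_2596c2_co.Trans
import Pool.Agent.Lib.MP_2596c2_co.KnUpper
import Pool.Agent.Lib.MP_2596c2_co.FourChain

/-!
If `K_N` (`N ≥ 3`) has an interval cyclic `(2N-3)`-colouring then `3 ∣ N`.
-/

namespace Pool.Agent.MP2596c2

/-- Sorted data: lifted starts `S`, vertices `V`, positions `a`. -/
structure Lift (N : ℕ) (S : ℤ → ℤ) (V : ℤ → Fin N) (a : Fin N → Fin N → ℕ) : Prop where
  hN : 3 ≤ N
  mono : ∀ i j : ℤ, i ≤ j → S i ≤ S j
  per : ∀ j : ℤ, S (j + N) = S j + (2 * N - 3)
  vinj : ∀ i j : ℤ, i < j → j < i + N → V i ≠ V j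
  vper : ∀ j : ℤ, V (j + N) = V j
  ha : ∀ u v, u ≠ v → a u v + 1 < N
  hab : ∀ i j : ℤ, V i ≠ V j → (2 * N - 3 : ℤ) ∣ (S i + a (V i) (V j)) - (S j + a (V j) (V i))
  inj : ∀ u v w, u ≠ v → u ≠ w → a u v = a u w → v = w
  surj : ∀ k : ℤ, ∃ i j, V i ≠ V j ∧ (2 * N - 3 : ℤ) ∣ S i + a (V i) (V j) - k

theorem sum_Ioc_add (f : ℤ → ℤ) {a b c : ℤ} (h1 : a ≤ b) (h2 : b ≤ c) :
    ∑ i ∈ Finset.Ioc a c, f i = ∑ i ∈ Finset.Ioc a b, f i + ∑ i ∈ Finset.Ioc b c, f i := by
  rw [← Finset.Ioc_union_Ioc_eq_Ioc h1 h2, Finset.sum_union]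
  exact Finset.Ioc_disjoint_Ioc_of_le (le_refl _)

theorem sum_Ioc_range (f : ℤ → ℤ) (k : ℤ) (h : ℕ) :
    ∑ i ∈ Finset.Ioc k (k + h), f i = ∑ i ∈ Finset.range h, f (k + 1 + i) := by
  induction h with
  | zero => simp
  | succ h ih =>
    rw [Finset.sum_range_succ, ← ih, sum_Ioc_add f (show k ≤ k + h by omega)
      (show k + (h : ℤ) ≤ k + ((h + 1 : ℕ) : ℤ) by push_cast; omega)]
    congr 1
    have : Finset.Ioc (k + (h : ℤ)) (k + ((h + 1 : ℕ) : ℤ)) = {k + 1 + h} := by
      ext x
      simp only [Finset.mem_Ioc, Finset.mem_singleton]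
      push_cast
      constructor
      · rintro ⟨h1, h2⟩; omega
      · rintro rfl; constructor <;> omega
    rw [this, Finset.sum_singleton]

/-- Counting lemma: how many positions at a vertex are at least `m`. -/
theorem count_pos {N : ℕ} {a : Fin N → Fin N → ℕ} (ha : ∀ u v, u ≠ v → a u v + 1 < N)
    (inj : ∀ u v w, u ≠ v → u ≠ w → a u v = a u w → v = w) (u : Fin N) (m : ℕ) (hm : m + 1 ≤ N) :
    ∑ v : Fin N, (if u ≠ v ∧ m ≤ a u v then (1 : ℤ) else 0) = N - 1 - m := by
  classical
  have himg : (Finset.univ.erase u).image (a u) = Finset.range (N - 1) := by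
    apply Finset.eq_of_subset_of_card_le
    · intro x hx
      rw [Finset.mem_image] at hx
      obtain ⟨v, hv, rfl⟩ := hx
      have : u ≠ v := fun h => by simp [h] at hv
      have := ha u v this
      rw [Finset.mem_range]
      omega
    · rw [Finset.card_range, Finset.card_image_of_injOn]
      · rw [Finset.card_erase_of_mem (Finset.mem_univ _)]
        simp
      · intro v hv w hw hvw
        have h1 : u ≠ v := fun h => by simp [h] at hv
        have h2 : u ≠ w := fun h => by simp [h] at hw
        exact inj u v w h1 h2 hvw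
  have h1 : ∑ v : Fin N, (if u ≠ v ∧ m ≤ a u v then (1 : ℤ) else 0) =
      ∑ v ∈ Finset.univ.erase u, (if m ≤ a u v then (1 : ℤ) else 0) := by
    rw [← Finset.add_sum_erase _ _ (Finset.mem_univ u)]
    simp only [ne_eq, not_true_eq_false, false_and, if_false, zero_add]
    apply Finset.sum_congr rfl
    intro v hv
    have : ¬ u = v := fun h => by simp [h] at hv
    simp [this]
  have h2 : ∑ v ∈ Finset.univ.erase u, (if m ≤ a u v then (1 : ℤ) else 0) =
      ∑ x ∈ Finset.range (N - 1), (if m ≤ x then (1 : ℤ) else 0) := by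
    rw [← himg, Finset.sum_image]
    intro v hv w hw hvw
    have h1 : u ≠ v := fun h => by simp [h] at hv
    have h2 : u ≠ w := fun h => by simp [h] at hw
    exact inj u v w h1 h2 hvw
  rw [h1, h2, Finset.sum_ite]
  simp only [Finset.sum_const_zero, add_zero, Finset.sum_const, nsmul_eq_mul, mul_one]
  have h3 : (Finset.range (N - 1)).filter (fun x => m ≤ x) = Finset.Ico m (N - 1) := by
    ext x
    simp only [Finset.mem_filter, Finset.mem_range, Finset.mem_Ico]
    omega
  rw [h3, Nat.card_Ico, Nat.cast_sub (by omega), Nat.cast_sub (by omega)]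
  push_cast
  ring

namespace Lift

variable {N : ℕ} {S : ℤ → ℤ} {V : ℤ → Fin N} {a : Fin N → Fin N → ℕ}

theorem near (L : Lift N S V a) {i j : ℤ} (hij : i < j) (hN : j < i + N)
    (hS : S j ≤ S i + (N - 2)) : S i + a (V i) (V j) = S j + a (V j) (V i) := by
  have hne := L.vinj i j hij hN
  have h0 := L.hN
  have h1 := L.ha _ _ hne
  have h2 := L.ha _ _ hne.symm
  have h3 := L.mono i j hij.le
  obtain ⟨q, hq⟩ := L.hab i j hne
  have hq1 : q < 1 := by
    by_contra hcon
    push Not at hcon
    nlinarith
  have hq2 : -1 < q := by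
    by_contra hcon
    push Not at hcon
    nlinarith
  have hq0 : q = 0 := by omega
  rw [hq0] at hq
  omega

/-- The maximum rank whose start lies in the arc of `j`. -/
theorem exists_F (L : Lift N S V a) : ∃ F : ℤ → ℤ, ∀ j i, i ≤ F j ↔ S i ≤ S j + (N - 2) := by
  have h0 := L.hN
  have : ∀ j, ∃ f : ℤ, ∀ i, i ≤ f ↔ S i ≤ S j + (N - 2) := by
    intro j
    obtain ⟨f, hf1, hf2⟩ := Int.exists_greatest_of_bdd (P := fun i => S i ≤ S j + (N - 2))
      ⟨j + N, by
        intro z hz
        by_contra hcon
        push Not at hcon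
        have h1 := L.mono (j + N) z hcon.le
        have h2 := L.per j
        omega⟩ ⟨j, by omega⟩
    refine ⟨f, fun i => ⟨fun hi => (L.mono i f hi).trans hf1, fun hi => hf2 i hi⟩⟩
  choose F hF using this
  exact ⟨F, hF⟩

open Classical in
/-- Indicator that the edge between ranks `j` and `i` has lifted colour at least `θ`. -/
noncomputable def E (S : ℤ → ℤ) (V : ℤ → Fin N) (a : Fin N → Fin N → ℕ) (θ : ℤ) (j i : ℤ) : ℤ :=
  if V j ≠ V i ∧ θ ≤ S j + a (V j) (V i) then 1 else 0

theorem E_nonneg (θ j i : ℤ) : 0 ≤ E S V a θ j i := by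
  unfold E; split_ifs <;> simp

theorem E_le (θ j i : ℤ) : E S V a θ j i ≤ 1 := by
  unfold E; split_ifs <;> simp

theorem E_self (θ j : ℤ) : E S V a θ j j = 0 := by
  unfold E; simp

theorem E_full (L : Lift N S V a) (θ j f : ℤ) (h1 : S j ≤ θ) (h2 : θ ≤ S j + (N - 1)) :
    ∑ i ∈ Finset.Ioc (f - N) f, E S V a θ j i = S j + (N - 1) - θ := by
  classical
  have h0 := L.hN
  have hinj : Set.InjOn V (Finset.Ioc (f - N) f : Finset ℤ) := by
    intro x hx y hy hxy
    simp only [Finset.coe_Ioc, Set.mem_Ioc] at hx hy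
    rcases lt_trichotomy x y with h | h | h
    · exact absurd hxy (L.vinj x y h (by omega))
    · exact h
    · exact absurd hxy.symm (L.vinj y x h (by omega))
  have hsurj : Set.SurjOn V (Finset.Ioc (f - N) f : Finset ℤ) (Finset.univ : Finset (Fin N)) := by
    apply Finset.surjOn_of_injOn_of_card_le
    · intro x _; simp
    · exact hinj
    · simp
  obtain ⟨m, hm⟩ := Int.eq_ofNat_of_zero_le (sub_nonneg.2 h1)
  have key := count_pos L.ha L.inj (V j) m (by
    have : (m : ℤ) ≤ N - 1 := by rw [← hm]; omega
    omega)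
  have hrw : ∑ i ∈ Finset.Ioc (f - N) f, E S V a θ j i =
      ∑ v : Fin N, (if V j ≠ v ∧ m ≤ a (V j) v then (1 : ℤ) else 0) := by
    apply Finset.sum_nbij V
    · intro x _; simp
    · exact hinj
    · exact hsurj
    · intro x _
      unfold E
      have hiff : (θ ≤ S j + a (V j) (V x)) ↔ m ≤ a (V j) (V x) := by
        constructor
        · intro h; omega
        · intro h
          have : (m : ℤ) ≤ a (V j) (V x) := by exact_mod_cast h
          omega
      by_cases h3 : V j ≠ V x ∧ θ ≤ S j + a (V j) (V x)
      · rw [if_pos h3, if_pos ⟨h3.1, hiff.1 h3.2⟩]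
      · rw [if_neg h3, if_neg (fun h4 => h3 ⟨h4.1, hiff.2 h4.2⟩)]
  rw [hrw, key]
  omega

theorem toCore (L : Lift N S V a) {F : ℤ → ℤ} (hF : ∀ j i, i ≤ F j ↔ S i ≤ S j + (N - 2))
    (hpos : ∀ k, k + 1 ≤ F k) : Core (N : ℤ) F (fun j => F j + j - S j) := by
  have h0 := L.hN
  have hmono : ∀ i j, i ≤ j → F i ≤ F j := by
    intro i j hij
    rw [hF]
    have h1 := (hF i (F i)).1 (le_refl _)
    have h2 := L.mono i j hij
    omega
  have hper : ∀ k, F (k + N) = F k + N := by
    intro k
    apply le_antisymm
    · have h1 := (hF (k + N) (F (k + N))).1 (le_refl _)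
      have h2 := L.per k
      have h3 := L.per (F (k + N) - N)
      have h4 : F (k + N) - N + N = F (k + N) := by ring
      rw [h4] at h3
      have h5 : F (k + N) - N ≤ F k := (hF k _).2 (by omega)
      omega
    · rw [hF]
      have h1 := (hF k (F k)).1 (le_refl _)
      have h2 := L.per k
      have h3 := L.per (F k)
      omega
  have htau : ∀ k r, F k ≤ r → r ≤ F (k + 1) → F r ≤ k + N ∧ k + N ≤ F (r + 1) := by
    intro k r h1 h2
    constructor
    · by_contra hcon
      push Not at hcon
      have h3 : k + N + 1 ≤ F r := by omega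
      rw [hF] at h2 h3
      have h4 := L.per (k + 1)
      have h5 : k + 1 + (N : ℤ) = k + N + 1 := by ring
      rw [h5] at h4
      omega
    · rw [hF]
      have h3 : ¬ (r + 1 ≤ F k) := by omega
      rw [hF] at h3
      have h4 := L.per k
      omega
  refine ⟨by exact_mod_cast (by omega : 1 ≤ N), hmono, hper, htau, hpos, ?_, ?_⟩
  · intro k
    have h1 := hper k
    have h2 := L.per k
    omega
  · intro k r h h1 h2 h3
    -- the cut
    set x := max (S k) (S r - (N - 1)) with hx
    have hx1 : S k ≤ x := le_max_left _ _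
    have hx2 : S r - (N - 1) ≤ x := le_max_right _ _
    have hr1 : S r ≤ S (k + 1) + (N - 2) := (hF _ _).1 h2
    have hr2 : ¬ S (r + 1) ≤ S k + (N - 2) := by rw [← hF]; omega
    have hk1 := L.mono k (k + 1) (by omega)
    have hrr := L.mono r (r + 1) (by omega)
    have hx3 : x ≤ S (k + 1) := max_le hk1 (by omega)
    have hx4 : x ≤ S (r + 1) - (N - 1) := max_le (by omega) (by omega)
    have hkr : k + 1 ≤ r := by have := hpos k; omega
    obtain ⟨t1, t2⟩ := htau k r h1 h2
    have hrN : r ≤ k + N := by have := hpos r; omega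
    set θ := x + (N - 1) with hθ
    -- symmetry inside the window
    have hsym : ∀ i j, k < i → i ≤ r → k < j → j ≤ r → E S V a θ i j = E S V a θ j i := by
      have aux : ∀ i j, k < i → i < j → j ≤ r → E S V a θ i j = E S V a θ j i := by
        intro i j hi hij hj
        have hS : S j ≤ S i + (N - 2) := by
          have e1 := L.mono j r hj
          have e2 := L.mono (k + 1) i (by omega)
          omega
        have hn := L.near hij (by omega) hS
        have hne := L.vinj i j hij (by omega)
        unfold E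
        rw [hn]
        simp only [ne_comm]
      intro i j hi1 hi2 hj1 hj2
      rcases lt_trichotomy i j with h4 | h4 | h4
      · exact aux i j hi1 h4 hj2
      · rw [h4]
      · exact (aux j i hj1 h4 hi2).symm
    -- degrees
    have hdeg : ∀ j, k < j → j ≤ r →
        ∑ i ∈ Finset.Ioc k r, E S V a θ j i = (S j - x) - (F j - r) := by
      intro j hj1 hj2
      have e1 := L.mono (k + 1) j (by omega)
      have e2 := L.mono j r hj2
      have e3 := hmono (k + 1) j (by omega)
      have e4 := hmono j r hj2
      have hfull := L.E_full θ j (F j) (by omega) (by omega)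
      rw [sum_Ioc_add _ (show F j - N ≤ k by omega) (show k ≤ F j by omega),
        sum_Ioc_add _ (show k ≤ r by omega) (show r ≤ F j by omega)] at hfull
      have hlow : ∑ i ∈ Finset.Ioc (F j - N) k, E S V a θ j i = 0 := by
        apply Finset.sum_eq_zero
        intro i hi
        rw [Finset.mem_Ioc] at hi
        have hiN : ¬ (i + N ≤ F j) := by omega
        rw [hF] at hiN
        have e5 := L.per i
        have hjF := (hF j j).2 (by omega)
        have hS : S j ≤ S i + (N - 2) := by omega
        have hFN : F j ≤ j + N := by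
          by_contra hcon
          push Not at hcon
          have e6 := (hF j (j + N)).1 hcon.le
          have e7 := L.per j
          omega
        have hn := L.near (i := i) (j := j) (by omega) (by
          by_contra hcon
          push Not at hcon
          have e8 := L.mono (i + N) j hcon
          omega) hS
        have hne := L.vinj i j (by omega) (by
          by_contra hcon
          push Not at hcon
          have e8 := L.mono (i + N) j hcon
          omega)
        unfold E
        rw [if_neg]
        rintro ⟨-, h5⟩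
        rw [← hn] at h5
        have e6 := L.ha _ _ hne
        have e7 := L.mono i k hi.2
        omega
      have hhigh : ∑ i ∈ Finset.Ioc r (F j), E S V a θ j i = F j - r := by
        have : ∀ i ∈ Finset.Ioc r (F j), E S V a θ j i = 1 := by
          intro i hi
          rw [Finset.mem_Ioc] at hi
          have hS := (hF j i).1 hi.2
          have hiN : i < j + N := by
            by_contra hcon
            push Not at hcon
            have e5 := L.mono (j + N) i hcon
            have e6 := L.per j
            omega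
          have hn := L.near (i := j) (j := i) (by omega) hiN hS
          have hne := L.vinj j i (by omega) hiN
          unfold E
          rw [if_pos]
          refine ⟨hne, ?_⟩
          rw [hn]
          have e5 := L.mono (r + 1) i (by omega)
          have e6 : (0 : ℤ) ≤ a (V i) (V j) := by positivity
          omega
        rw [Finset.sum_congr rfl this]
        simp only [Finset.sum_const, Int.card_Ioc, nsmul_eq_mul, mul_one]
        rw [Int.toNat_of_nonneg (by omega)]
      rw [hlow, hhigh] at hfull
      omega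
    -- double counting
    have hmain : ∑ u ∈ Finset.Ioc (r - h) r, ∑ i ∈ Finset.Ioc k r, E S V a θ u i ≤
        h * (r - k - h - 1) + ∑ z ∈ Finset.Ioc k (k + h), ∑ i ∈ Finset.Ioc k r, E S V a θ z i := by
      have hsplit : ∀ u ∈ Finset.Ioc (r - h) r, ∑ i ∈ Finset.Ioc k r, E S V a θ u i ≤
          (r - k - h - 1) + ∑ z ∈ Finset.Ioc k (k + h), E S V a θ u z := by
        intro u hu
        rw [Finset.mem_Ioc] at hu
        rw [sum_Ioc_add _ (show k ≤ k + h by omega) (show k + h ≤ r by omega)]
        have : ∑ i ∈ Finset.Ioc (k + (h : ℤ)) r, E S V a θ u i ≤ r - k - h - 1 := by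
          have hu' : u ∈ Finset.Ioc (k + (h : ℤ)) r := by
            rw [Finset.mem_Ioc]; constructor <;> omega
          rw [← Finset.add_sum_erase _ _ hu', E_self, zero_add]
          calc ∑ i ∈ (Finset.Ioc (k + (h : ℤ)) r).erase u, E S V a θ u i
              ≤ ∑ i ∈ (Finset.Ioc (k + (h : ℤ)) r).erase u, 1 :=
                Finset.sum_le_sum (fun i _ => E_le θ u i)
            _ = r - k - h - 1 := by
                simp only [Finset.sum_const, nsmul_eq_mul, mul_one]
                rw [Finset.card_erase_of_mem hu', Int.card_Ioc]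
                rw [Nat.cast_sub (by omega), Int.toNat_of_nonneg (by omega)]
                push_cast
                ring
        linarith
      calc ∑ u ∈ Finset.Ioc (r - h) r, ∑ i ∈ Finset.Ioc k r, E S V a θ u i
          ≤ ∑ u ∈ Finset.Ioc (r - h) r, ((r - k - h - 1) + ∑ z ∈ Finset.Ioc k (k + h), E S V a θ u z) :=
            Finset.sum_le_sum hsplit
        _ = h * (r - k - h - 1) +
            ∑ u ∈ Finset.Ioc (r - h) r, ∑ z ∈ Finset.Ioc k (k + h), E S V a θ u z := by
            rw [Finset.sum_add_distrib]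
            congr 1
            simp only [Finset.sum_const, Int.card_Ioc, nsmul_eq_mul]
            congr 1
            have : r - (r - (h : ℤ)) = h := by ring
            rw [this]
            simp
        _ = h * (r - k - h - 1) +
            ∑ z ∈ Finset.Ioc k (k + h), ∑ u ∈ Finset.Ioc (r - h) r, E S V a θ u z := by
            rw [Finset.sum_comm]
        _ ≤ h * (r - k - h - 1) +
            ∑ z ∈ Finset.Ioc k (k + h), ∑ i ∈ Finset.Ioc k r, E S V a θ z i := by
            have : ∑ z ∈ Finset.Ioc k (k + (h : ℤ)), ∑ u ∈ Finset.Ioc (r - h) r, E S V a θ u z ≤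
                ∑ z ∈ Finset.Ioc k (k + (h : ℤ)), ∑ i ∈ Finset.Ioc k r, E S V a θ z i := by
              apply Finset.sum_le_sum
              intro z hz
              rw [Finset.mem_Ioc] at hz
              calc ∑ u ∈ Finset.Ioc (r - (h : ℤ)) r, E S V a θ u z
                  = ∑ u ∈ Finset.Ioc (r - (h : ℤ)) r, E S V a θ z u := by
                    apply Finset.sum_congr rfl
                    intro u hu
                    rw [Finset.mem_Ioc] at hu
                    exact hsym u z (by omega) hu.2 hz.1 (by omega)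
                _ ≤ ∑ i ∈ Finset.Ioc k r, E S V a θ z i := by
                    apply Finset.sum_le_sum_of_subset_of_nonneg
                    · intro u hu
                      rw [Finset.mem_Ioc] at hu ⊢
                      constructor <;> omega
                    · intro i _ _
                      exact E_nonneg θ z i
            linarith
    have hU : ∑ u ∈ Finset.Ioc (r - (h : ℤ)) r, ∑ i ∈ Finset.Ioc k r, E S V a θ u i =
        ∑ i ∈ Finset.range h, ((S (r - h + 1 + i) - x) - (F (r - h + 1 + i) - r)) := by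
      have e : r = r - h + h := by ring
      have := sum_Ioc_range (fun u => (S u - x) - (F u - r)) (r - h) h
      rw [← e] at this
      rw [← this]
      apply Finset.sum_congr rfl
      intro u hu
      rw [Finset.mem_Ioc] at hu
      exact hdeg u (by omega) hu.2
    have hZ : ∑ z ∈ Finset.Ioc k (k + (h : ℤ)), ∑ i ∈ Finset.Ioc k r, E S V a θ z i =
        ∑ i ∈ Finset.range h, ((S (k + 1 + i) - x) - (F (k + 1 + i) - r)) := by
      rw [← sum_Ioc_range (fun u => (S u - x) - (F u - r)) k h]
      apply Finset.sum_congr rfl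
      intro u hu
      rw [Finset.mem_Ioc] at hu
      exact hdeg u hu.1 (by omega)
    rw [hU, hZ] at hmain
    have hfin : ∑ i ∈ Finset.range h,
        ((F (r - h + 1 + i) + (r - h + 1 + i) - S (r - h + 1 + i)) -
          (F (k + 1 + i) + (k + 1 + i) - S (k + 1 + i))) =
        h * (r - h - k) - (∑ i ∈ Finset.range h, ((S (r - h + 1 + i) - x) - (F (r - h + 1 + i) - r)) -
          ∑ i ∈ Finset.range h, ((S (k + 1 + i) - x) - (F (k + 1 + i) - r))) := by
      rw [← Finset.sum_sub_distrib]
      have : (h : ℤ) * (r - h - k) = ∑ i ∈ Finset.range h, (r - h - k) := by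
        rw [Finset.sum_const, Finset.card_range, nsmul_eq_mul]
      rw [this, ← Finset.sum_sub_distrib]
      apply Finset.sum_congr rfl
      intro i _
      ring
    rw [hfin]
    have : (h : ℤ) * (r - k - h - 1) = h * (r - h - k) - h := by ring
    linarith

/-- Coverage: consecutive starts are at distance at most `N - 2`. -/
theorem covered (L : Lift N S V a) (k : ℤ) : S (k + 1) ≤ S k + (N - 2) := by
  by_contra hcon
  push Not at hcon
  have h0 := L.hN
  have hk := L.per k
  -- all lifts in `k+1 .. k+N`
  have hrep : ∀ i : ℤ, ∃ j, k < j ∧ j ≤ k + N ∧ V j = V i ∧ (2 * N - 3 : ℤ) ∣ S j - S i := by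
    have hup : ∀ (n : ℕ) (i : ℤ), V (i + n * N) = V i ∧ S (i + n * N) = S i + n * (2 * N - 3) := by
      intro n i
      induction n with
      | zero => simp
      | succ n ih =>
        have e : i + ((n + 1 : ℕ) : ℤ) * N = i + n * N + N := by push_cast; ring
        rw [e, L.vper, L.per, ih.1, ih.2]
        exact ⟨rfl, by push_cast; ring⟩
    intro i
    have hNz : (0 : ℤ) < N := by omega
    -- j = k + 1 + (i - k - 1) % N
    refine ⟨k + 1 + (i - k - 1) % N, ?_, ?_, ?_⟩
    · have := Int.emod_nonneg (i - k - 1) hNz.ne'; omega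
    · have := Int.emod_lt_of_pos (i - k - 1) hNz; omega
    · have hdiv := Int.emod_add_mul_ediv (i - k - 1) N
      rcases le_total 0 ((i - k - 1) / (N : ℤ)) with hq | hq
      · obtain ⟨n, hn⟩ := Int.eq_ofNat_of_zero_le hq
        have := hup n (k + 1 + (i - k - 1) % N)
        have e : k + 1 + (i - k - 1) % N + (n : ℤ) * N = i := by
          rw [hn] at hdiv; linarith
        rw [e] at this
        exact ⟨this.1.symm, ⟨-n, by rw [this.2]; ring⟩⟩
      · obtain ⟨n, hn⟩ := Int.eq_ofNat_of_zero_le (neg_nonneg.2 hq)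
        have := hup n i
        have e : i + (n : ℤ) * N = k + 1 + (i - k - 1) % N := by
          have e2 : (i - k - 1) / (N : ℤ) = -n := by linarith
          rw [e2] at hdiv; linarith
        rw [e] at this
        exact ⟨this.1, ⟨n, by rw [this.2]; ring⟩⟩
  have hbound : ∀ j, k < j → j ≤ k + N → S k + (N - 1) ≤ S j ∧ S j ≤ S k + (2 * N - 3) := by
    intro j h1 h2
    have e1 := L.mono (k + 1) j (by omega)
    have e2 := L.mono j (k + N) h2
    omega
  -- a vertex whose arc contains `S k + N - 1` starts there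
  have hstart : ∀ u v : Fin N, ∀ i, V i = u → u ≠ v →
      (2 * N - 3 : ℤ) ∣ S i + a u v - (S k + (N - 1)) →
      ∃ j, k < j ∧ j ≤ k + N ∧ V j = u ∧ S j = S k + (N - 1) := by
    intro u v i hi huv hd
    obtain ⟨j, h1, h2, h3, h4⟩ := hrep i
    refine ⟨j, h1, h2, h3.trans hi, ?_⟩
    have h5 := dvd_add h4 hd
    have h6 : S j - S i + (S i + a u v - (S k + (N - 1))) = S j + a u v - (S k + (N - 1)) := by ring
    rw [h6] at h5
    obtain ⟨q, hq⟩ := h5
    have h7 := hbound j h1 h2
    have h8 := L.ha u v huv
    have hq1 : q < 1 := by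
      by_contra hc
      push Not at hc
      nlinarith
    have hq2 : -1 < q := by
      by_contra hc
      push Not at hc
      nlinarith
    have hq0 : q = 0 := by omega
    rw [hq0] at hq
    omega
  obtain ⟨i, i', hne, hd⟩ := L.surj (S k + (N - 1))
  have hd' : (2 * N - 3 : ℤ) ∣ S i' + a (V i') (V i) - (S k + (N - 1)) := by
    have h1 := dvd_sub hd (L.hab i i' hne)
    have h2 : S i + a (V i) (V i') - (S k + (N - 1)) -
      (S i + a (V i) (V i') - (S i' + a (V i') (V i))) =
      S i' + a (V i') (V i) - (S k + (N - 1)) := by ring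
    rwa [h2] at h1
  obtain ⟨j, hj1, hj2, hj3, hj4⟩ := hstart _ _ i rfl hne hd
  obtain ⟨j', hj1', hj2', hj3', hj4'⟩ := hstart _ _ i' rfl hne.symm hd'
  have hjj : j ≠ j' := by
    intro h
    apply hne
    rw [← hj3, ← hj3', h]
  -- the vertex `k + N`
  have hpos : ∀ m, k < m → m ≤ k + N → S m = S k + (N - 1) →
      V (k + N) ≠ V m ∧ a (V (k + N)) (V m) = 0 := by
    intro m hm1 hm2 hm3
    have hmlt : m < k + N := by
      rcases eq_or_lt_of_le hm2 with h | h
      · rw [h] at hm3; omega
      · exact h
    have hne' := L.vinj m (k + N) hmlt (by omega)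
    have hn := L.near hmlt (by omega) (by omega)
    have h1 := L.ha _ _ hne'
    refine ⟨hne'.symm, ?_⟩
    omega
  obtain ⟨p1, p2⟩ := hpos j hj1 hj2 hj4
  obtain ⟨p3, p4⟩ := hpos j' hj1' hj2' hj4'
  have hV := L.inj _ _ _ p1 p3 (p2.trans p4.symm)
  rcases lt_or_gt_of_ne hjj with h | h
  · exact L.vinj j j' h (by omega) hV
  · exact L.vinj j' j h (by omega) hV.symm

theorem three_dvd (L : Lift N S V a) : 3 ∣ N := by
  obtain ⟨F, hF⟩ := L.exists_F
  have hC := L.toCore hF (fun k => (hF k (k + 1)).2 (L.covered k))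
  have := hC.three_dvd
  exact_mod_cast this

end Lift

/-- From a colouring to sorted data. -/
theorem exists_lift {N : ℕ} (hN : 3 ≤ N) {s : Fin N → ℤ} {a : Fin N → Fin N → ℕ}
    (h : GoodC N (2 * N - 3) s a) : ∃ S V, Lift N S V a := by
  have ht : ((2 * N - 3 : ℕ) : ℤ) = 2 * N - 3 := by omega
  set t : ℤ := 2 * N - 3 with htdef
  have htpos : 0 < t := by omega
  have hNz : (0 : ℤ) < N := by omega
  let s' : Fin N → ℤ := fun u => s u % t
  let σ := Tuple.sort s'
  have hσ : Monotone (s' ∘ σ) := Tuple.monotone_sort s'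
  let r : ℤ → Fin N := fun j => ⟨(j % N).toNat, by
    have h1 := Int.emod_nonneg j hNz.ne'
    have h2 := Int.emod_lt_of_pos j hNz
    omega⟩
  have hr : ∀ j, ((r j : ℕ) : ℤ) = j % N := fun j =>
    Int.toNat_of_nonneg (Int.emod_nonneg j hNz.ne')
  let V : ℤ → Fin N := fun j => σ (r j)
  let S : ℤ → ℤ := fun j => s' (V j) + t * (j / N)
  have hs1 : ∀ u, 0 ≤ s' u := fun u => Int.emod_nonneg _ htpos.ne'
  have hs2 : ∀ u, s' u < t := fun u => Int.emod_lt_of_pos _ htpos
  have hs3 : ∀ u, t ∣ s' u - s u := by
    intro u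
    have := Int.emod_add_mul_ediv (s u) t
    exact ⟨-(s u / t), by simp only [s']; linarith⟩
  have hS3 : ∀ i, t ∣ S i - s (V i) := by
    intro i
    have h1 := dvd_add (hs3 (V i)) (dvd_mul_right t (i / N))
    have h2 : s' (V i) - s (V i) + t * (i / N) = S i - s (V i) := by simp only [S]; ring
    rwa [h2] at h1
  refine ⟨S, V, ⟨hN, ?_, ?_, ?_, ?_, h.ha, ?_, h.inj, ?_⟩⟩
  · intro i j hij
    have h1 := Int.ediv_le_ediv hNz hij
    rcases eq_or_lt_of_le h1 with h2 | h2
    · have h3 : r i ≤ r j := by
        have e1 := Int.emod_add_mul_ediv i N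
        have e2 := Int.emod_add_mul_ediv j N
        rw [← h2] at e2
        have e3 : i % N ≤ j % N := by linarith
        rw [← hr, ← hr] at e3
        exact_mod_cast e3
      have h4 := hσ h3
      simp only [Function.comp] at h4
      simp only [S, V]
      rw [h2]
      linarith
    · have h3 := hs2 (V i)
      have h4 := hs1 (V j)
      have h5 : t * (i / N + 1) ≤ t * (j / N) := mul_le_mul_of_nonneg_left (by omega) htpos.le
      simp only [S]
      linarith
  · intro j
    have e1 : (j + N) % N = j % N := Int.add_emod_right ..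
    have e2 : (j + N) / N = j / N + 1 := by
      have := Int.add_mul_ediv_right j 1 hNz.ne'
      rwa [one_mul] at this
    have e3 : r (j + N) = r j := by
      apply Fin.ext
      have := hr (j + N)
      rw [e1, ← hr j] at this
      exact_mod_cast this
    simp only [S, V, e3, e2]
    ring
  · intro i j hij hjN hV
    have h1 : r i = r j := σ.injective hV
    have h2 : i % N = j % N := by rw [← hr, ← hr, h1]
    have h3 : (N : ℤ) ∣ j - i := Int.ModEq.dvd h2
    have h4 := Int.le_of_dvd (by omega) h3
    omega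
  · intro j
    have e1 : (j + N) % N = j % N := Int.add_emod_right ..
    have e3 : r (j + N) = r j := by
      apply Fin.ext
      have := hr (j + N)
      rw [e1, ← hr j] at this
      exact_mod_cast this
    simp only [V, e3]
  · intro i j hV
    have h1 := h.hab (V i) (V j) hV
    rw [ht] at h1
    have h2 := dvd_sub (dvd_add h1 (hS3 i)) (hS3 j)
    have h3 : s (V i) + a (V i) (V j) - (s (V j) + a (V j) (V i)) + (S i - s (V i)) - (S j - s (V j)) =
      S i + a (V i) (V j) - (S j + a (V j) (V i)) := by ring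
    rwa [h3] at h2
  · intro k
    obtain ⟨u, v, huv, hd⟩ := h.surj k
    rw [ht] at hd
    have hrep : ∀ u : Fin N, ∃ i : ℤ, V i = u := by
      intro u
      refine ⟨((σ.symm u : Fin N) : ℕ), ?_⟩
      have : r (((σ.symm u : Fin N) : ℕ) : ℤ) = σ.symm u := by
        apply Fin.ext
        have h1 := hr (((σ.symm u : Fin N) : ℕ) : ℤ)
        rw [Int.emod_eq_of_lt (by omega) (by exact_mod_cast (σ.symm u).2)] at h1
        exact_mod_cast h1
      simp only [V, this, Equiv.apply_symm_apply]
    obtain ⟨i, hi⟩ := hrep u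
    obtain ⟨j, hj⟩ := hrep v
    refine ⟨i, j, by rw [hi, hj]; exact huv, ?_⟩
    have h1 := dvd_add hd (hS3 i)
    rw [hi] at h1
    have h3 : s u + a u v - k + (S i - s u) = S i + a u v - k := by ring
    rw [h3] at h1
    rw [hi, hj]
    exact h1

/-- If `K_N`, `N ≥ 3`, has an interval cyclic `(2N-3)`-colouring, then `3 ∣ N`. -/
theorem three_dvd_of_mem_top {N : ℕ} (hN : 3 ≤ N)
    (h : 2 * N - 3 ∈ feasibleSet (⊤ : SimpleGraph (Fin N))) : 3 ∣ N := by
  obtain ⟨_, s, α, hg⟩ := good_of_mem h
  obtain ⟨a, hC⟩ := goodC_of_good hg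
  obtain ⟨S, V, L⟩ := exists_lift hN hC
  exact L.three_dvd

end Pool.Agent.MP2596c2
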