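import Mathlib
import Pool.Agent.Lib.MP_2596c2_co.Defs
import Pool.Agent.Lib.MP_2596c2_co.KnUpper
import Pool.Agent.Lib.MP_2596c2_co.KnTop
import Pool.Agent.Lib.MP_2596c2_co.KnRanges
import Pool.Agent.Lib.MP_2596c2_co.K8

/-!
The feasible set of `K_{2n}` is gap-free.
-/

namespace Pool.Agent.MP2596c2

/-- The lower part of the range. -/
theorem range_low {n : ℕ} (hn : 3 ≤ n) {t : ℕ} (h1 : 2 * n ≤ t + 1) (h2 : t + 3 ≤ 3 * n) :
    t ∈ feasibleSet (⊤ : SimpleGraph (Fin (2 * n))) := by
  by_cases h : 2 ∣ n
  · exact range_even (by omega) h h1 (by omega)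
  · exact range_odd hn h h1 h2

/-- Everything from `2 n - 1` to `4 n - 5` is feasible for `K_{2n}`, `n ≥ 3`. -/
theorem range_all {n : ℕ} (hn : 3 ≤ n) {t : ℕ} (h1 : 2 * n ≤ t + 1) (h2 : t + 5 ≤ 4 * n) :
    t ∈ feasibleSet (⊤ : SimpleGraph (Fin (2 * n))) := by
  by_cases hlow : t + 3 ≤ 3 * n
  · exact range_low hn h1 hlow
  · by_cases h3 : 3 ∣ n
    · exact range_three (by omega) h3 (by omega) (by omega)
    · by_cases h4 : n = 4
      · subst h4
        by_cases h5 : t = 11
        · subst h5
          exact mem_eleven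
        · exact range_even (by omega) (by omega) (by omega) (by omega)
      · by_cases h5 : n % 3 = 1
        · exact range_one (by omega) h5 (by omega) (by omega)
        · exact range_two (by omega) (by omega) (by omega) (by omega)

theorem gapFree_complete (n : ℕ) (hn : 1 ≤ n) :
    GapFree (feasibleSet (⊤ : SimpleGraph (Fin (2 * n)))) := by
  intro a b c hab hbc ha hc
  have ha' := le_of_mem_top ha
  have hc' := le_of_mem_top hc
  by_cases h3 : 3 ∣ n
  · by_cases hlow : b + 3 ≤ 3 * n
    · exact range_low (by omega) (by omega) hlow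
    · exact range_three (by omega) h3 (by omega) (by omega)
  · by_cases hc3 : c = 2 * (2 * n) - 3
    · exfalso
      rw [hc3] at hc
      have := three_dvd_of_mem_top (N := 2 * n) (by omega) hc
      omega
    · exact range_all (by omega) (by omega) (by omega)

end Pool.Agent.MP2596c2
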